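import Pool.Agent.Helper24.LOC.XLoc
import Pool.Agent.Helper41.SST.Main
import Pool.Agent.Helper81.AN.SpG

/-!
X05 Loc2: the spin characters of the local group (statement `loc_2` of `Helper81/AN/Iface.lean`).
-/

set_option autoImplicit false

open Equiv

namespace Pool.Agent.Helper24.LOC

open Pool.Agent.Helper42.INC Pool.Agent.Helper81.AN Pool.Agent.Helper41.SST

theorem loc_2 (p : ℕ) [Fact p.Prime] (m : ℕ) (hm : 2 * m + 1 = p) (hm0 : 0 < m) (w r : ℕ) :
    Nonempty (Lab (BG ((permH (Pt p w r)).comp (permL p w r))) (BG.par _) (BG.z _) (-1)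
      (LabZ m w r) LabZ.tw LabZ.dg) := by
  obtain ⟨E, htw, hdg⟩ := relab2 m w r
  have h := s_step p m hm hm0 w r (x3_lab p m hm hm0 w r fun v => sp_G v r)
  haveI : Finite (Cl (Pt p w r)) := by
    apply Nat.finite_of_card_ne_zero
    rw [Cl.card]
    positivity
  haveI : Finite (LL p w r) := Finite.of_equiv _ SemidirectProduct.equivProd.symm
  haveI : Finite (BG ((permH (Pt p w r)).comp (permL p w r))) := Finite.of_equiv _ SemidirectProduct.equivProd.symm
  exact lab_congr (MulEquiv.refl _) _ _ (fun _ => rfl) _ _ rfl _ E _ _ htw _ _ hdg h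

end Pool.Agent.Helper24.LOC
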