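import Pool.Agent.Helper24.LOC.BProd
import Pool.Agent.Helper24.AN.LinG

/-!
B03 Perm: canonical labels for the irreducible characters of `Perm α`.

`plab α χ : P0` is the partition attached to the irreducible character `χ` of `Perm α`, by an arbitrary numbering of `α`.

PROOFS. `plab` is defined with `lin_G` (chosen once for every `n`, `linGe n`) and `Fintype.equivFin α`. `plab_congr` (independence of the
numbering): let `a : α ≃ Fin n`, `b : β ≃ Fin n` be the two numberings (`card α = card β`); the characters `χ ∘ a⁻¹`-conjugation and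
`χ' ∘ b⁻¹`-conjugation of `Perm (Fin n)` differ by the inner automorphism of `b ρ a⁻¹ ∈ Perm (Fin n)`, so they are equal (class functions,
`Irr.isClass`). (Do the case of a general `n` with `h : card α = n` first, to avoid casts: the helper statement
`plab_eq : plab α χ = (linGe n ⟨χ ∘ (a.symm.permCongr ..), _⟩).1` for EVERY `a : α ≃ Fin n`.)
`plab_size`, `plab_inj`, `plab_surj`: `linGe` is a bijection onto `Par n`. `plab_deg`: `Lab.deg`. `plab_tw`: `Lab.twist`, and the sign is invariant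
under `permCongr` (`Equiv.Perm.sign_permCongr`).
-/

set_option autoImplicit false

open Equiv

namespace Pool.Agent.Helper24.LOC

open Pool.Agent.Helper42.INC Pool.Agent.Helper7.MK Pool.Agent.Helper81.AN

/-- a choice of labels -/
noncomputable def linGe (n : ℕ) : Lab (Perm (Fin n)) Perm.sign 1 1 (Par n) Par.tw Par.dg :=
  (Pool.Agent.Helper24.AN.lin_G n).some

/-- transport along a numbering -/
theorem transp_mem {α β : Type} (a : α ≃ β) {χ : Perm α → ℂ} (hχ : χ ∈ Irr (Perm α)) :
    (fun σ : Perm β => χ (a.symm.permCongr σ)) ∈ IrrZ (1 : Perm β) 1 :=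
  ⟨irr_comp (Equiv.permCongrHom a.symm) hχ, (one_mul _).symm⟩

/-- the partition of an irreducible character of `Perm α` -/
noncomputable def plab (α : Type) [Fintype α] (χ : Irr (Perm α)) : P0 :=
  ((linGe (Fintype.card α)).e ⟨_, transp_mem (Fintype.equivFin α) χ.2⟩).1

variable {α β : Type} [Fintype α] [Fintype β]

omit [Fintype α] [Fintype β] in
private theorem transp_eq {n : ℕ} (a : α ≃ Fin n) (b : β ≃ Fin n) (ρ : α ≃ β) {χ : Perm α → ℂ} {χ' : Perm β → ℂ}
    (hχ : χ ∈ Irr (Perm α)) (h : ∀ σ : Perm α, χ' (ρ.permCongr σ) = χ σ) (σ : Perm (Fin n)) :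
    χ' (b.symm.permCongr σ) = χ (a.symm.permCongr σ) := by
  have : Finite α := Finite.of_equiv _ a.symm
  obtain ⟨τ, hτ⟩ : ∃ τ : Perm α, τ = a.trans (ρ.trans b).symm := ⟨_, rfl⟩
  have h1 : b.symm.permCongr σ = ρ.permCongr (τ * a.symm.permCongr σ * τ⁻¹) := by
    ext x
    simp [hτ, Equiv.permCongr_apply, Equiv.Perm.mul_apply, Equiv.Perm.inv_def]
  rw [h1, h]
  exact Irr.isClass hχ _ _

private theorem plab_eq {n : ℕ} (hn : Fintype.card α = n) (a : α ≃ Fin n) (χ : Irr (Perm α)) :
    plab α χ = ((linGe n).e ⟨_, transp_mem a χ.2⟩).1 := by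
  subst hn
  unfold plab
  congr 2
  apply Subtype.ext
  funext σ
  exact transp_eq a (Fintype.equivFin α) (Equiv.refl α) χ.2 (fun σ => by
    congr 1) σ

theorem plab_congr (ρ : α ≃ β) (χ : Irr (Perm α)) (χ' : Irr (Perm β)) (h : ∀ σ : Perm α, χ'.1 (ρ.permCongr σ) = χ.1 σ) :
    plab β χ' = plab α χ := by
  rw [plab_eq rfl (Fintype.equivFin α) χ, plab_eq (Fintype.card_congr ρ).symm (ρ.symm.trans (Fintype.equivFin α)) χ']
  congr 2
  apply Subtype.ext
  funext σ
  exact transp_eq _ _ ρ χ.2 h σ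

theorem plab_size (χ : Irr (Perm α)) : (plab α χ).size = Fintype.card α :=
  ((linGe (Fintype.card α)).e ⟨_, transp_mem (Fintype.equivFin α) χ.2⟩).2

theorem plab_inj : Function.Injective (plab α) := by
  intro χ χ' h
  have h1 := (linGe (Fintype.card α)).e.injective (Subtype.ext h)
  have h2 := congrArg Subtype.val h1
  apply Subtype.ext
  funext σ
  have h3 := congrFun h2 ((Fintype.equivFin α).permCongr σ)
  have h4 : (Fintype.equivFin α).symm.permCongr ((Fintype.equivFin α).permCongr σ) = σ := by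
    ext x
    simp [Equiv.permCongr_apply]
  change χ.1 ((Fintype.equivFin α).symm.permCongr ((Fintype.equivFin α).permCongr σ)) =
    χ'.1 ((Fintype.equivFin α).symm.permCongr ((Fintype.equivFin α).permCongr σ)) at h3
  rwa [h4] at h3

theorem plab_surj (M : P0) (h : M.size = Fintype.card α) : ∃ χ : Irr (Perm α), plab α χ = M := by
  obtain ⟨η, hη⟩ : ∃ η, (linGe (Fintype.card α)).e η = ⟨M, h⟩ :=
    (linGe (Fintype.card α)).e.surjective ⟨M, h⟩
  refine ⟨⟨fun σ => η.1 ((Fintype.equivFin α).permCongr σ),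
    irr_comp (Equiv.permCongrHom (Fintype.equivFin α)) η.2.1⟩, ?_⟩
  have h1 : (⟨_, transp_mem (Fintype.equivFin α) (χ := fun σ => η.1 ((Fintype.equivFin α).permCongr σ))
      (irr_comp (Equiv.permCongrHom (Fintype.equivFin α)) η.2.1)⟩ :
      IrrZ (1 : Perm (Fin (Fintype.card α))) 1) = η := by
    apply Subtype.ext
    funext σ
    change η.1 ((Fintype.equivFin α).permCongr ((Fintype.equivFin α).symm.permCongr σ)) = η.1 σ
    have h3 : (Fintype.equivFin α).permCongr ((Fintype.equivFin α).symm.permCongr σ) = σ := by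
      ext x
      simp [Equiv.permCongr_apply]
    rw [h3]
  have h2 := congrArg (fun t => ((linGe (Fintype.card α)).e t).1) h1
  change ((linGe (Fintype.card α)).e _).1 = M
  rw [hη] at h2
  exact h2

theorem plab_deg (χ : Irr (Perm α)) : χ.1 1 = ((plab α χ).f : ℂ) := by
  have h := (linGe (Fintype.card α)).deg ⟨_, transp_mem (Fintype.equivFin α) χ.2⟩
  have h1 : (Fintype.equivFin α).symm.permCongr 1 = 1 := by
    ext x
    simp [Equiv.permCongr_apply]
  change χ.1 ((Fintype.equivFin α).symm.permCongr 1) = _ at h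
  rw [h1] at h
  exact h

theorem plab_tw [DecidableEq α] (χ χ' : Irr (Perm α))
    (h : ∀ σ, χ'.1 σ = (((Perm.sign σ : ℤˣ) : ℤ) : ℂ) * χ.1 σ) : plab α χ' = (plab α χ).conj := by
  have h1 := (linGe (Fintype.card α)).twist ⟨_, transp_mem (Fintype.equivFin α) χ.2⟩
    ⟨_, transp_mem (Fintype.equivFin α) χ'.2⟩ (by
      intro σ
      change χ'.1 ((Fintype.equivFin α).symm.permCongr σ) = _ * χ.1 ((Fintype.equivFin α).symm.permCongr σ)
      rw [h, Equiv.Perm.sign_permCongr])
  exact congrArg Subtype.val h1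

/-- labels of `Perm α` -/
theorem lab_perm [DecidableEq α] (n : ℕ) (hn : Fintype.card α = n) :
    Nonempty (Lab (Perm α) Perm.sign 1 1 (Par n) Par.tw Par.dg) := by
  refine ⟨⟨Equiv.ofBijective (fun χ => ⟨plab α ⟨χ.1, χ.2.1⟩, by rw [plab_size, hn]⟩) ⟨?_, ?_⟩, ?_, ?_⟩⟩
  · intro χ χ' h
    have h0 := congrArg (fun t : Par n => t.1) h
    change plab α ⟨χ.1, χ.2.1⟩ = plab α ⟨χ'.1, χ'.2.1⟩ at h0
    have h1 := congrArg (fun t : Irr (Perm α) => t.1) (plab_inj h0)
    exact Subtype.ext h1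
  · intro M
    obtain ⟨χ, hχ⟩ := plab_surj (α := α) M.1 (by rw [M.2, hn])
    exact ⟨⟨χ.1, χ.2, (one_mul _).symm⟩, Subtype.ext hχ⟩
  · intro χ χ' h
    exact Subtype.ext (plab_tw ⟨χ.1, χ.2.1⟩ ⟨χ'.1, χ'.2.1⟩ h)
  · intro χ
    exact plab_deg ⟨χ.1, χ.2.1⟩

end Pool.Agent.Helper24.LOC
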