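import Pool.Agent.Helper24.LOC.EDefs

/-!
E04 Inc: the inclusion `incV`.

PROOFS. `incV_inj`: `Perm.subtypeCongrHom_injective` and `incV_left_neg`. `incV_range`: if `σ` preserves `pr` then
`σ = subtypeCongr (σ restricted) (σ restricted)` (`Equiv.Perm.subtypePerm`). `epsT_incV`: `Equiv.Perm.sign_subtypeCongr`, and
`∏ i, η (left i) = ∏_(i with ¬ pr i) η (x.2.left i)` (`Finset.prod_subtype`/`Fintype.prod_subtype_mul_prod_subtype`).
`card_ltv`: `{i : Fin w // i < v}` has `v` elements, the complement `w - v` (`v ≤ w`). `card_QV`: `Nat.card_prod`, `SemidirectProduct.card`,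
`Nat.card_perm`, `ZMod.card_units_eq_totient`/`ZMod.card_units`; `(p-1)^w w! = (p-1)^v * choose w v * (v! * ((p-1)^(w-v) (w-v)!))`
(`Nat.choose_mul_factorial_mul_factorial`).
-/

set_option autoImplicit false

open Equiv

namespace Pool.Agent.Helper24.LOC

open Pool.Agent.Helper81.AN

theorem incV_inj (K : Type) [Group K] {I : Type} (pr : I → Prop) [DecidablePred pr] :
    Function.Injective (incV K pr) := by
  intro x y hxy
  have h1 : Perm.subtypeCongr x.1 x.2.right = Perm.subtypeCongr y.1 y.2.right := by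
    rw [← incV_right, ← incV_right, hxy]
  have h2 : ((x.1, x.2.right) : Perm {i // pr i} × Perm {i // ¬ pr i}) = (y.1, y.2.right) :=
    Perm.subtypeCongrHom_injective pr h1
  rw [Prod.mk.injEq] at h2
  refine Prod.ext h2.1 (SemidirectProduct.ext ?_ h2.2)
  funext i
  have h3 := incV_left_neg K pr x i.2
  have h4 := incV_left_neg K pr y i.2
  rw [hxy] at h3
  exact h3.symm.trans h4

theorem incV_range (K : Type) [Group K] {I : Type} (pr : I → Prop) [DecidablePred pr] (x : WWt K I) :
    x ∈ (incV K pr).range ↔ (∀ i, pr i ↔ pr (x.right i)) ∧ ∀ i, pr i → x.left i = 1 := by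
  constructor
  · rintro ⟨y, rfl⟩
    refine ⟨fun i => ?_, fun i hi => incV_left_pos K pr y hi⟩
    rw [incV_right]
    by_cases hi : pr i
    · rw [Perm.subtypeCongr.left_apply _ _ hi]
      exact ⟨fun _ => (y.1 ⟨i, hi⟩).2, fun _ => hi⟩
    · rw [Perm.subtypeCongr.right_apply _ _ hi]
      exact ⟨fun h => absurd h hi, fun h => absurd h (y.2.right ⟨i, hi⟩).2⟩
  · rintro ⟨h1, h2⟩
    refine ⟨(x.right.subtypePerm (fun i => (h1 i).symm),
      ⟨fun i => x.left i.1, x.right.subtypePerm (fun i => not_congr (h1 i).symm)⟩), ?_⟩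
    apply SemidirectProduct.ext
    · funext i
      by_cases hi : pr i
      · rw [incV_left_pos K pr _ hi, h2 i hi]
      · rw [incV_left_neg K pr _ hi]
    · rw [incV_right]
      ext i
      by_cases hi : pr i
      · rw [Perm.subtypeCongr.left_apply _ _ hi]
        rfl
      · rw [Perm.subtypeCongr.right_apply _ _ hi]
        rfl

theorem epsT_incV {K : Type} [CommGroup K] {I : Type} [Fintype I] [DecidableEq I] (pr : I → Prop) [DecidablePred pr]
    (η : K →* ℤˣ) (x : Perm {i // pr i} × WWt K {i // ¬ pr i}) :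
    epsT η (incV K pr x) = Perm.sign x.1 * epsT η x.2 := by
  rw [epsT_apply, epsT_apply, incV_right, Perm.sign_subtypeCongr,
    ← Fintype.prod_subtype_mul_prod_subtype pr]
  have h1 : ∏ i : {i // pr i}, η ((incV K pr x).left i.1) = 1 := by
    apply Finset.prod_eq_one
    intro i _
    rw [incV_left_pos K pr x i.2, map_one]
  have h2 : ∏ i : {i // ¬ pr i}, η ((incV K pr x).left i.1) = ∏ i, η (x.2.left i) := by
    apply Finset.prod_congr rfl
    intro i _
    rw [incV_left_neg K pr x i.2]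
  rw [h1, h2, one_mul]
  ac_rfl

theorem card_ltv {w : ℕ} (v : Fin (w + 1)) :
    Fintype.card {i : Fin w // ltv (v : ℕ) i} = v ∧ Fintype.card {i : Fin w // ¬ ltv (v : ℕ) i} = w - v := by
  have hv : (v : ℕ) ≤ w := Nat.lt_succ_iff.1 v.2
  have h1 : Fintype.card {i : Fin w // ltv (v : ℕ) i} = v := by
    refine (Fintype.card_congr (β := Fin (v : ℕ))
      ⟨fun i => ⟨i.1.1, i.2⟩, fun i => ⟨⟨i.1, by omega⟩, i.2⟩, ?_, ?_⟩).trans (Fintype.card_fin _)
    · intro i
      rfl
    · intro i
      rfl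
  refine ⟨h1, ?_⟩
  rw [Fintype.card_subtype_compl, h1, Fintype.card_fin]

theorem card_QV (p w : ℕ) [Fact p.Prime] (v : Fin (w + 1)) :
    Nat.card (WW p w) = (p - 1) ^ (v : ℕ) * w.choose v *
      Nat.card (Perm {i : Fin w // ltv (v : ℕ) i} × WWt (ZMod p)ˣ {i : Fin w // ¬ ltv (v : ℕ) i}) := by
  classical
  have hv : (v : ℕ) ≤ w := Nat.lt_succ_iff.1 v.2
  have hcard : ∀ (I : Type) [Fintype I] [DecidableEq I], Nat.card (WWt (ZMod p)ˣ I) =
      (p - 1) ^ (Fintype.card I) * (Fintype.card I).factorial := by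
    intro I _ _
    rw [Nat.card_congr (SemidirectProduct.equivProd
      (φ := mulAutArrow (G := Perm I) (M := (ZMod p)ˣ))), Nat.card_prod, Nat.card_perm,
      Nat.card_fun, Nat.card_eq_fintype_card (α := I), Nat.card_eq_fintype_card (α := (ZMod p)ˣ),
      ZMod.card_units]
  rw [Nat.card_prod, Nat.card_perm, hcard, hcard, Nat.card_eq_fintype_card, (card_ltv v).1,
    (card_ltv v).2, Fintype.card_fin, ← Nat.choose_mul_factorial_mul_factorial hv]
  have hp : (p - 1) ^ w = (p - 1) ^ (v : ℕ) * (p - 1) ^ (w - (v : ℕ)) := by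
    rw [← pow_add]
    congr 1
    omega
  rw [hp]
  ring

end Pool.Agent.Helper24.LOC
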