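import Pool.Agent.Helper24.LOC.EInv

/-!
E07 Rel: renaming the labels for `loc_1`.

PROOF. `E ⟨v, ((α, κ), β)⟩ = (β.1, fun i => if h : i = mid then α.1 else κ.1 ⟨i, h⟩)`; the total size is
`v + (w - v) = w` (`Fintype.sum_eq_add_sum_subtype_ne` / `Finset.sum_subtype`, `Finset.add_sum_erase`). The inverse: `v = size (q.2 mid)`
(it is `≤ w`), `α = q.2 mid`, `κ c = q.2 c.1`, `β = q.1` (to avoid casts show that the map is bijective: injective by cases on `v`
with `subst`, surjective by giving the preimage; `Equiv.ofBijective`). Twist: at `mid`: `rev mid = mid` (`hmid`); at `i ≠ mid`: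
`(q.2 i.rev).conj = (κ (revC i)).conj`. Degree: `multinomial univ (sizes) = choose w v * multinomial univ (sizes of κ)`
(`Nat.multinomial_insert`/`Nat.multinomial` by factorials: `Nat.multinomial_spec` for both and `Nat.choose_mul_factorial_mul_factorial`;
`w = ∑ sizes`), and the products split in the same way (`Fintype.prod_eq_mul_prod_subtype_ne`-type lemma).
-/

set_option autoImplicit false

open Equiv

namespace Pool.Agent.Helper24.LOC

open Pool.Agent.Helper81.AN

/-- the source of the renaming -/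
abbrev SrcR (p w r : ℕ) (mid : Fin p) : Type :=
  Σ v : Fin (w + 1), (Par (v : ℕ) × LabW {i : Fin p // i ≠ mid} (w - v)) × Par r

/-- the family of partitions -/
def famR {p w r : ℕ} {mid : Fin p} (s : SrcR p w r mid) (i : Fin p) : P0 :=
  if h : i = mid then s.2.1.1.1 else s.2.1.2.1 ⟨i, h⟩

theorem famR_mid {p w r : ℕ} {mid : Fin p} (s : SrcR p w r mid) : famR s mid = s.2.1.1.1 :=
  dif_pos rfl

theorem famR_ne {p w r : ℕ} {mid : Fin p} (s : SrcR p w r mid) (i : Fin p) (h : i ≠ mid) :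
    famR s i = s.2.1.2.1 ⟨i, h⟩ := dif_neg h

theorem sumR {p : ℕ} (mid : Fin p) (f : Fin p → ℕ) :
    ∑ i, f i = f mid + ∑ i : {i : Fin p // i ≠ mid}, f i.1 := by
  classical
  rw [← Finset.add_sum_erase _ f (Finset.mem_univ mid)]
  congr 1
  rw [← Finset.sum_subtype]
  intro x
  simp

theorem prodR {p : ℕ} (mid : Fin p) (f : Fin p → ℕ) :
    ∏ i, f i = f mid * ∏ i : {i : Fin p // i ≠ mid}, f i.1 := by
  classical
  rw [← Finset.mul_prod_erase _ f (Finset.mem_univ mid)]
  congr 1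
  rw [← Finset.prod_subtype]
  intro x
  simp

theorem famR_sum {p w r : ℕ} {mid : Fin p} (s : SrcR p w r mid) :
    ∑ i, (famR s i).size = w := by
  rw [sumR mid, famR_mid, s.2.1.1.2]
  have h : ∑ i : {i : Fin p // i ≠ mid}, (famR s i.1).size =
      ∑ c : {i : Fin p // i ≠ mid}, (s.2.1.2.1 c).size :=
    Finset.sum_congr rfl fun c _ => by rw [famR_ne s c.1 c.2]
  rw [h, s.2.1.2.2]
  have := s.1.2
  omega

/-- the renaming -/
def mapR {p w r : ℕ} {mid : Fin p} (s : SrcR p w r mid) : LabL p w r :=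
  ⟨(s.2.2.1, famR s), s.2.2.2, famR_sum s⟩

theorem mapR_inj {p w r : ℕ} {mid : Fin p} :
    Function.Injective (mapR : SrcR p w r mid → LabL p w r) := by
  intro s s' h
  have h1 : s.2.2.1 = s'.2.2.1 := congrArg (fun q => q.1.1) h
  have h2 : famR s = famR s' := congrArg (fun q => q.1.2) h
  have h3 : s.2.1.1.1 = s'.2.1.1.1 := by rw [← famR_mid s, ← famR_mid s', h2]
  have h4 : s.2.1.2.1 = s'.2.1.2.1 := by
    funext c
    rw [← famR_ne s c.1 c.2, ← famR_ne s' c.1 c.2, h2]
  obtain ⟨v, ⟨⟨α, hα⟩, ⟨κ, hκ⟩⟩, ⟨β, hβ⟩⟩ := s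
  obtain ⟨v', ⟨⟨α', hα'⟩, ⟨κ', hκ'⟩⟩, ⟨β', hβ'⟩⟩ := s'
  simp only at h1 h3 h4
  subst h1 h3 h4
  have h5 : v = v' := Fin.ext (hα.symm.trans hα')
  subst h5
  rfl

theorem mapR_surj {p w r : ℕ} {mid : Fin p} :
    Function.Surjective (mapR : SrcR p w r mid → LabL p w r) := by
  intro q
  have hq := q.2.2
  rw [sumR mid] at hq
  refine ⟨⟨⟨(q.1.2 mid).size, by omega⟩, (⟨q.1.2 mid, rfl⟩, ⟨fun c => q.1.2 c.1, by
    simp only
    omega⟩), ⟨q.1.1, q.2.1⟩⟩, ?_⟩
  apply Subtype.ext
  refine Prod.ext rfl ?_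
  funext i
  by_cases h : i = mid
  · subst h
    exact dif_pos rfl
  · exact dif_neg h

theorem relab1 (p w r : ℕ) (mid : Fin p) (hmid : 2 * (mid : ℕ) + 1 = p) :
    ∃ E : (Σ v : Fin (w + 1), (Par (v : ℕ) × LabW {i : Fin p // i ≠ mid} (w - v)) × Par r) ≃ LabL p w r,
      (∀ s, E (Sigma.map id (fun _ => Prod.map (Prod.map Par.tw (LabW.tw (revC mid hmid))) Par.tw) s) = (E s).tw) ∧
      ∀ s, (E s).dg mid =
        (p - 1) ^ (s.1 : ℕ) * w.choose s.1 * (s.2.1.1.dg * s.2.1.2.dg * s.2.2.dg) := by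
  have hrev : ∀ i : Fin p, i.rev = mid ↔ i = mid := by
    intro i
    have hi := i.2
    constructor
    · intro h
      apply Fin.ext
      have := congrArg Fin.val h
      rw [Fin.val_rev] at this
      omega
    · rintro rfl
      apply Fin.ext
      rw [Fin.val_rev]
      omega
  refine ⟨Equiv.ofBijective mapR ⟨mapR_inj, mapR_surj⟩, fun s => ?_, fun s => ?_⟩
  · change mapR (Sigma.map id (fun _ => Prod.map (Prod.map Par.tw (LabW.tw (revC mid hmid)))
      Par.tw) s) = (mapR s).tw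
    apply Subtype.ext
    refine Prod.ext rfl ?_
    funext i
    change famR (Sigma.map id (fun _ => Prod.map (Prod.map Par.tw (LabW.tw (revC mid hmid)))
      Par.tw) s) i = (famR s i.rev).conj
    by_cases h : i = mid
    · rw [(hrev i).2 h, h, famR_mid, famR_mid]
      rfl
    · have h' : i.rev ≠ mid := fun h1 => h ((hrev i).1 h1)
      rw [famR_ne _ i h, famR_ne s i.rev h']
      rfl
  · change (p - 1) ^ (famR s mid).size * Nat.multinomial Finset.univ (fun i => (famR s i).size) *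
      (∏ i, (famR s i).f) * s.2.2.1.f = (p - 1) ^ (s.1 : ℕ) * w.choose s.1 *
        (s.2.1.1.1.f * (Nat.multinomial Finset.univ (fun c => (s.2.1.2.1 c).size) *
          ∏ c, (s.2.1.2.1 c).f) * s.2.2.1.f)
    have h1 : ∏ i, (famR s i).f = s.2.1.1.1.f * ∏ c, (s.2.1.2.1 c).f := by
      rw [prodR mid, famR_mid]
      congr 1
      exact Finset.prod_congr rfl fun c _ => by rw [famR_ne s c.1 c.2]
    have h2 := Nat.multinomial_spec Finset.univ (fun i => (famR s i).size)
    have h3 := Nat.multinomial_spec Finset.univ (fun c => (s.2.1.2.1 c).size)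
    have h4 : ∏ i, ((famR s i).size).factorial =
        (s.1 : ℕ).factorial * ∏ c, ((s.2.1.2.1 c).size).factorial := by
      rw [prodR mid, famR_mid, s.2.1.1.2]
      congr 1
      exact Finset.prod_congr rfl fun c _ => by rw [famR_ne s c.1 c.2]
    rw [famR_sum, h4] at h2
    rw [s.2.1.2.2] at h3
    have hv : (s.1 : ℕ) ≤ w := by have := s.1.2; omega
    have h5 := Nat.choose_mul_factorial_mul_factorial hv
    have h6 : Nat.multinomial Finset.univ (fun i => (famR s i).size) =
        w.choose s.1 * Nat.multinomial Finset.univ (fun c => (s.2.1.2.1 c).size) := by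
      have hpos : 0 < (s.1 : ℕ).factorial * ∏ c, ((s.2.1.2.1 c).size).factorial :=
        Nat.mul_pos (Nat.factorial_pos _) (Finset.prod_pos fun c _ => Nat.factorial_pos _)
      apply Nat.eq_of_mul_eq_mul_left hpos
      rw [h2, ← h5, ← h3]
      ring
    rw [h1, h6, famR_mid, s.2.1.1.2]
    ring

end Pool.Agent.Helper24.LOC
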