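import Pool.Agent.Helper24.LOC.EDefs

/-!
E05 Sgn: the sign of the local group on the points.

PROOF. `permL (e, (x, τ)) = permE e * permW (x, τ)` (`SemidirectProduct.lift`). `sign (permE e) = 1`: `(permE e)^p = 1` (`e^p = 1` in
`Multiplicative (ZMod p)^w`) and `p` is odd, so `sign = sign^p = 1`. `permW (x, τ)`, `x = (u, σ)`: it is the product of
`(i, y) ↦ (i, u i * y)` (identity on `Fin r`), `(i, y) ↦ (σ i, y)` and `τ` on `Fin r` (`Equiv.Perm.sumCongr`, `Equiv.Perm.sign_sumCongr`).
The first has sign `∏ i, chi2 (u i)` (`Equiv.Perm.sign_prodExtendRight`, `Equiv.Perm.prodCongrRight`, `Equiv.Perm.sign_prodCongrRight`), the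
second has sign `(sign σ)^p = sign σ` (`Equiv.Perm.sign_prodCongrLeft`; the product over `ZMod p` of `sign σ`, `ZMod.card`).
`epsT_apply`.
-/

set_option autoImplicit false

open Equiv

namespace Pool.Agent.Helper24.LOC

open Pool.Agent.Helper81.AN Pool.Agent.Helper41.SST

private theorem sg_pow_odd {n : ℕ} (hn : Odd n) (a : ℤˣ) : a ^ n = a := by
  rcases Int.units_eq_one_or a with h | h
  · rw [h, one_pow]
  · rw [h, hn.neg_one_pow]

private theorem sg_permE (p w r : ℕ) [Fact p.Prime] (hodd : Odd p) (e : EE p w) :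
    Perm.sign (permE p w r e) = 1 := by
  have h1 : e ^ p = 1 := by
    apply Multiplicative.toAdd.injective
    funext i
    change p • (Multiplicative.toAdd e i) = 0
    rw [nsmul_eq_mul, CharP.cast_eq_zero, zero_mul]
  have h3 : (Perm.sign (permE p w r e)) ^ p = 1 := by
    rw [← map_pow, ← map_pow, h1, map_one, map_one]
  rwa [sg_pow_odd hodd] at h3

private theorem sg_permW (p w r : ℕ) [Fact p.Prime] (hodd : Odd p) (g : WW p w × Perm (Fin r)) :
    Perm.sign (permW p w r g) = epsT (chi2 p) g.1 * Perm.sign g.2 := by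
  have h1 : permW p w r g = Equiv.Perm.sumCongr
      ((Equiv.prodCongrRight fun i : Fin w =>
        (MulAction.toPermHom (ZMod p)ˣ (ZMod p) (g.1.left i) : Perm (ZMod p))) *
        (Equiv.prodCongrLeft fun _ : ZMod p => (g.1.right : Perm (Fin w)))) g.2 := by
    ext1 q
    rcases q with a | a
    · rfl
    · rfl
  rw [h1, Equiv.Perm.sign_sumCongr, map_mul, Equiv.Perm.sign_prodCongrRight,
    Equiv.Perm.sign_prodCongrLeft, Finset.prod_const, Finset.card_univ, ZMod.card,
    sg_pow_odd hodd, epsT_apply]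
  rfl

theorem sign_permL (p w r : ℕ) [Fact p.Prime] (h2 : p ≠ 2) (g : LL p w r) :
    Perm.sign (permL p w r g) = epsT (chi2 p) g.right.1 * Perm.sign g.right.2 := by
  have hodd : Odd p := (Fact.out : p.Prime).odd_of_ne_two h2
  have h1 : permL p w r g = permE p w r g.left * permW p w r g.right := rfl
  rw [h1, map_mul, sg_permE p w r hodd, sg_permW p w r hodd, one_mul]

end Pool.Agent.Helper24.LOC
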