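import Pool.Agent.Helper24.LOC.BProd

/-!
B02 Lab: the calculus of labels.

PROOFS. `lab_congr`: `IrrZ z' ν ≃ IrrZ z ν` by `χ ↦ χ ∘ f` (`irr_comp`, also for `f.symm`), then `e`, then `E`.
`lab_prod`: `(χ, ψ) ↦ χ ⊗ ψ` is a bijection `IrrZ z ν × IrrZ 1 1 ≃ IrrZ (z, 1) ν` (`irr_mul_prod`, `prod_inj2`, `prod_surj2`; the value at
`(z, 1)` is `χ z * ψ 1`, and `ψ 1 ≠ 0` by `irr_one`; `IrrZ 1 1` is all of `Irr`: `ψ 1 = 1 * ψ 1`). Twist: if `η' = ε η`, `η = χ ⊗ ψ`,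
`η' = χ' ⊗ ψ'` then `χ' = ε χ` and `ψ' = ε' ψ` by `prod_inj2` (the functions `ε χ`, `ε' ψ` are irreducible: use the surjectivity of
nothing: apply `irr_lin`-type facts, or evaluate the identity `χ' x ψ' y = ε x χ x ε' y ψ y` at `y = 1`, resp. `x = 1`: this gives
`χ' = c (ε χ)` with `c = ψ 1 / ψ' 1 > 0`, and `B χ' χ' = 1 = B χ χ` gives `c = 1`).
-/

set_option autoImplicit false

namespace Pool.Agent.Helper24.LOC

open Pool.Agent.Helper42.INC Pool.Agent.Helper7.MK Pool.Agent.Helper81.AN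

private def irrzComp {X X' : Type} [Group X] [Group X'] [Finite X] [Finite X'] (f : X ≃* X') {z : X} {z' : X'}
    (hz : f z = z') (ν : ℂ) (χ : IrrZ z' ν) : IrrZ z ν :=
  ⟨fun x => χ.1 (f x), irr_comp f χ.2.1, by
    change χ.1 (f z) = ν * χ.1 (f 1)
    rw [hz, map_one]
    exact χ.2.2⟩

theorem lab_congr {X X' : Type} [Group X] [Group X'] [Finite X] [Finite X'] (f : X ≃* X') (ε : X →* ℤˣ)
    (ε' : X' →* ℤˣ) (hε : ∀ x, ε' (f x) = ε x) (z : X) (z' : X') (hz : f z = z') (ν : ℂ) {L L' : Type} (E : L ≃ L')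
    (tw : L → L) (tw' : L' → L') (htw : ∀ l, E (tw l) = tw' (E l)) (dg : L → ℕ) (dg' : L' → ℕ)
    (hdg : ∀ l, dg' (E l) = dg l) (h : Nonempty (Lab X ε z ν L tw dg)) : Nonempty (Lab X' ε' z' ν L' tw' dg') := by
  obtain ⟨A⟩ := h
  let F : IrrZ z' ν ≃ IrrZ z ν :=
    { toFun := irrzComp f hz ν
      invFun := irrzComp f.symm (by rw [← hz, f.symm_apply_apply]) ν
      left_inv := fun χ => by
        apply Subtype.ext
        funext x
        change χ.1 (f (f.symm x)) = χ.1 x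
        rw [f.apply_symm_apply]
      right_inv := fun χ => by
        apply Subtype.ext
        funext x
        change χ.1 (f.symm (f x)) = χ.1 x
        rw [f.symm_apply_apply] }
  refine ⟨⟨F.trans (A.e.trans E), ?_, ?_⟩⟩
  · intro χ χ' hχ
    change E (A.e (F χ')) = tw' (E (A.e (F χ)))
    rw [← htw, A.twist (F χ) (F χ') fun x => ?_]
    change χ'.1 (f x) = _ * χ.1 (f x)
    rw [hχ, hε]
  · intro χ
    change χ.1 1 = (dg' (E (A.e (F χ))) : ℂ)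
    rw [hdg, ← A.deg (F χ)]
    change χ.1 1 = χ.1 (f 1)
    rw [map_one]

private theorem irr_sgn {X : Type} [Group X] [Finite X] (ε : X →* ℤˣ) {χ : X → ℂ} (hχ : χ ∈ Irr X) :
    (fun x => (((ε x : ℤˣ) : ℤ) : ℂ) * χ x) ∈ Irr X := by
  have := Fintype.ofFinite X
  have h1 : IsChar (fun x => (((ε x : ℤˣ) : ℤ) : ℂ)) := by
    have h := isChar_matrix (n := Fin 1) (G := X)
      { toFun := fun x => Matrix.diagonal fun _ => (((ε x : ℤˣ) : ℤ) : ℂ)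
        map_one' := by
          rw [map_one, Units.val_one, Int.cast_one, Matrix.diagonal_one]
        map_mul' := fun a b => by
          rw [Matrix.diagonal_mul_diagonal, map_mul, Units.val_mul, Int.cast_mul] }
    have h2 : (fun x : X => (Matrix.diagonal fun _ : Fin 1 => (((ε x : ℤˣ) : ℤ) : ℂ)).trace) =
        fun x => (((ε x : ℤˣ) : ℤ) : ℂ) := by
      funext x
      rw [Matrix.trace_diagonal, Fin.sum_univ_one]
    rw [← h2]
    exact h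
  refine (h1.mul (IsChar.of_irr hχ)).irr ?_
  have h3 : B (fun x => (((ε x : ℤˣ) : ℤ) : ℂ) * χ x) (fun x => (((ε x : ℤˣ) : ℤ) : ℂ) * χ x) = B χ χ := by
    rw [B_eq, B_eq]
    congr 1
    refine Finset.sum_congr rfl fun x _ => ?_
    have h4 : (((ε x : ℤˣ) : ℤ) : ℂ) * (((ε x⁻¹ : ℤˣ) : ℤ) : ℂ) = 1 := by
      rw [← Int.cast_mul, ← Units.val_mul, ← map_mul, mul_inv_cancel, map_one, Units.val_one,
        Int.cast_one]
    calc (((ε x : ℤˣ) : ℤ) : ℂ) * χ x * ((((ε x⁻¹ : ℤˣ) : ℤ) : ℂ) * χ x⁻¹) =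
        ((((ε x : ℤˣ) : ℤ) : ℂ) * (((ε x⁻¹ : ℤˣ) : ℤ) : ℂ)) * (χ x * χ x⁻¹) := by ring
      _ = χ x * χ x⁻¹ := by rw [h4, one_mul]
  rw [h3]
  exact B_irr_self hχ

private def irrzProd {X Y : Type} [Group X] [Finite X] [Group Y] [Finite Y] (z : X) (ν : ℂ)
    (q : IrrZ z ν × IrrZ (1 : Y) 1) : IrrZ ((z, 1) : X × Y) ν :=
  ⟨fun p => q.1.1 p.1 * q.2.1 p.2, irr_mul_prod q.1.2.1 q.2.2.1, by
    change q.1.1 z * q.2.1 1 = ν * (q.1.1 1 * q.2.1 1)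
    rw [q.1.2.2]
    ring⟩

private theorem irrzProd_bij {X Y : Type} [Group X] [Finite X] [Group Y] [Finite Y] (z : X) (ν : ℂ) :
    Function.Bijective (irrzProd (Y := Y) z ν) := by
  constructor
  · intro q q' h
    obtain ⟨h1, h2⟩ := prod_inj2 q.1.2.1 q.2.2.1 q'.1.2.1 q'.2.2.1
      (fun x y => congrFun (congrArg Subtype.val h) (x, y))
    exact Prod.ext (Subtype.ext h1) (Subtype.ext h2)
  · intro η
    obtain ⟨χ, hχ, ψ, hψ, h⟩ := prod_surj2 η.2.1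
    have hψ1 : ψ 1 ≠ 0 := by
      rw [← deg_cast hψ]
      exact Nat.cast_ne_zero.2 (deg_pos hψ).ne'
    have h1 : χ z = ν * χ 1 := by
      have h2 := η.2.2
      rw [h] at h2
      have h3 : χ z * ψ 1 = ν * (χ 1 * ψ 1) := h2
      rw [← mul_assoc] at h3
      exact mul_right_cancel₀ hψ1 h3
    exact ⟨(⟨χ, hχ, h1⟩, ⟨ψ, hψ, (one_mul _).symm⟩), Subtype.ext h.symm⟩

theorem lab_prod {X Y : Type} [Group X] [Finite X] [Group Y] [Finite Y] (ε : X →* ℤˣ) (ε' : Y →* ℤˣ) (z : X) (ν : ℂ)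
    {L L' : Type} (tw : L → L) (tw' : L' → L') (dg : L → ℕ) (dg' : L' → ℕ) (h : Nonempty (Lab X ε z ν L tw dg))
    (h' : Nonempty (Lab Y ε' 1 1 L' tw' dg')) :
    Nonempty (Lab (X × Y) (ε.coprod ε') (z, 1) ν (L × L') (Prod.map tw tw') fun q => dg q.1 * dg' q.2) := by
  obtain ⟨A⟩ := h
  obtain ⟨A'⟩ := h'
  let F := Equiv.ofBijective _ (irrzProd_bij (Y := Y) z ν)
  have hF : ∀ q, F q = irrzProd z ν q := fun _ => rfl
  refine ⟨⟨F.symm.trans (A.e.prodCongr A'.e), ?_, ?_⟩⟩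
  · intro η η' hη
    obtain ⟨⟨χ, ψ⟩, rfl⟩ := F.surjective η
    obtain ⟨⟨χ', ψ'⟩, rfl⟩ := F.surjective η'
    change (A.e.prodCongr A'.e) (F.symm (F (χ', ψ'))) =
      Prod.map tw tw' ((A.e.prodCongr A'.e) (F.symm (F (χ, ψ))))
    rw [F.symm_apply_apply, F.symm_apply_apply]
    obtain ⟨h1, h2⟩ := prod_inj2 (irr_sgn ε χ.2.1) (irr_sgn ε' ψ.2.1) χ'.2.1 ψ'.2.1 (fun x y => by
      have h3 : χ'.1 x * ψ'.1 y = ((((ε.coprod ε') (x, y) : ℤˣ) : ℤ) : ℂ) * (χ.1 x * ψ.1 y) := hη (x, y)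
      rw [h3, MonoidHom.coprod_apply, Units.val_mul, Int.cast_mul]
      ring)
    change (A.e χ', A'.e ψ') = (tw (A.e χ), tw' (A'.e ψ))
    rw [A.twist χ χ' fun x => (congrFun h1 x).symm, A'.twist ψ ψ' fun y => (congrFun h2 y).symm]
  · intro η
    obtain ⟨⟨χ, ψ⟩, rfl⟩ := F.surjective η
    change χ.1 1 * ψ.1 1 = ((dg ((A.e.prodCongr A'.e) (F.symm (F (χ, ψ)))).1 *
      dg' ((A.e.prodCongr A'.e) (F.symm (F (χ, ψ)))).2 : ℕ) : ℂ)
    rw [F.symm_apply_apply, A.deg, A'.deg, Nat.cast_mul]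
    rfl

end Pool.Agent.Helper24.LOC
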