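import Pool.Agent.Helper24.LOC.CDefs

/-!
C03 Gal: characters over an extendible linear character.

PROOF. `irr_lin`: the product of an irreducible character with a linear character `lh` is irreducible (`IsChar.mul`; a
linear character is the character of a one-dimensional representation, e.g. `isChar_matrix` with `1 x 1` matrices, or
`irr_of_norm_one`-type facts; the norm `B` is unchanged since `lh(x) lh(x⁻¹) = 1`; `IsChar.irr`).
`piece_to`: `lh * (χ ∘ q)` is irreducible by `irr_infl` and `irr_lin`; over `lam` and value at `gz`: the two cases of `P.hA`, with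
`χ (q gz) = ν χ 1`, `lh gz = 1`.
`piece_from`: `ψ' = lh⁻¹ * ψ` is irreducible; for `k` in the kernel of `q`, `ψ k = lam(a) ψ 1 = lh(k) ψ 1` (`P.hker`), so
`ψ' k = ψ' 1`, and then `ψ' (k x) = ψ' x` for all `x` (the kernel of a character: if `ρ` affords `ψ'` then `ρ k` has finite order and
trace equal to the dimension, so `ρ k = 1`; there may be a lemma in `Helper42/INC` or `Helper7/MK`; or use the idempotent
`|K|⁻¹ ∑_k ρ(k)` which commutes with `ρ` and has nonzero trace, so it is `1`, Schur). So `ψ' = χ ∘ q` (`inflEquiv`) with `χ ∈ Irr Q`.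
-/

set_option autoImplicit false

namespace Pool.Agent.Helper24.LOC

open Pool.Agent.Helper42.INC Pool.Agent.Helper7.MK Pool.Agent.Helper81.AN

theorem isChar_lin {G : Type} [Group G] (lh : G →* ℂˣ) : IsChar (fun g => ((lh g : ℂˣ) : ℂ)) := by
  have h := isChar_matrix (n := Unit)
    ((Matrix.scalar Unit).toMonoidHom.comp ((Units.coeHom ℂ).comp lh))
  have e : (fun g => ((lh g : ℂˣ) : ℂ)) =
      fun g => (((Matrix.scalar Unit).toMonoidHom.comp ((Units.coeHom ℂ).comp lh)) g).trace := by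
    funext g
    simp [Matrix.trace]
  rw [e]
  exact h

theorem irr_lin {G : Type} [Group G] [Finite G] (lh : G →* ℂˣ) {ψ : G → ℂ} (hψ : ψ ∈ Irr G) :
    (fun g => ((lh g : ℂˣ) : ℂ) * ψ g) ∈ Irr G := by
  apply IsChar.irr ((isChar_lin lh).mul (IsChar.of_irr hψ))
  have := Fintype.ofFinite G
  rw [← B_irr_self hψ, B_eq, B_eq]
  congr 1
  refine Finset.sum_congr rfl fun x _ => ?_
  have h1 : ((lh x : ℂˣ) : ℂ) * ((lh x⁻¹ : ℂˣ) : ℂ) = 1 := by
    rw [← Units.val_mul, ← map_mul, mul_inv_cancel, map_one, Units.val_one]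
  calc ((lh x : ℂˣ) : ℂ) * ψ x * (((lh x⁻¹ : ℂˣ) : ℂ) * ψ x⁻¹) =
      (((lh x : ℂˣ) : ℂ) * ((lh x⁻¹ : ℂˣ) : ℂ)) * (ψ x * ψ x⁻¹) := by ring
    _ = ψ x * ψ x⁻¹ := by rw [h1, one_mul]

/-- the kernel of a character -/
theorem char_ker {G : Type} [Group G] [Finite G] {χ : G → ℂ} (hχ : χ ∈ Irr G) (K : Subgroup G)
    [hK : K.Normal] (h : ∀ k ∈ K, χ k = χ 1) : ∀ k ∈ K, ∀ x, χ (k * x) = χ x := by
  classical
  have := Fintype.ofFinite K
  obtain ⟨V, _, _, _, ρ, hρ, rfl⟩ := hχ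
  have hnt := ((isIrreducible_iff ρ).1 hρ).1
  have hdim : (Module.finrank ℂ V : ℂ) ≠ 0 := by
    exact_mod_cast (Module.finrank_pos (R := ℂ) (M := V)).ne'
  have hc : (Nat.card K : ℂ) ≠ 0 := by exact_mod_cast Nat.card_pos.ne'
  let e : V →ₗ[ℂ] V := (Nat.card K : ℂ)⁻¹ • ∑ k : K, ρ (k : G)
  have hcomm : ∀ g, e * ρ g = ρ g * e := by
    intro g
    change ((Nat.card K : ℂ)⁻¹ • ∑ k : K, ρ (k : G)) * ρ g =
      ρ g * ((Nat.card K : ℂ)⁻¹ • ∑ k : K, ρ (k : G))
    rw [smul_mul_assoc, mul_smul_comm, Finset.sum_mul, Finset.mul_sum]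
    congr 1
    rw [← Equiv.sum_comp (MulAut.conjNormal (H := K) g).toEquiv]
    refine Finset.sum_congr rfl fun k _ => ?_
    change ρ ((MulAut.conjNormal (H := K) g k : K) : G) * ρ g = ρ g * ρ (k : G)
    rw [MulAut.conjNormal_apply, ← map_mul, ← map_mul]
    congr 1
    group
  obtain ⟨a, ha⟩ : ∃ a : ℂ, e = a • LinearMap.id := by
    let F : Representation.IntertwiningMap ρ ρ := ⟨e, fun g => hcomm g⟩
    obtain ⟨a, ha⟩ :=
      (Representation.IsIrreducible.algebraMap_intertwiningMap_bijective_of_isAlgClosed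
        (ρ := ρ)).2 F
    refine ⟨a, ?_⟩
    have : F.toLinearMap = a • LinearMap.id := by
      rw [← ha]; rfl
    exact this
  have htr : LinearMap.trace ℂ V e = Module.finrank ℂ V := by
    change LinearMap.trace ℂ V ((Nat.card K : ℂ)⁻¹ • ∑ k : K, ρ (k : G)) = _
    rw [map_smul, map_sum]
    have h1 : ∀ k : K, LinearMap.trace ℂ V (ρ (k : G)) = Module.finrank ℂ V := by
      intro k
      have h2 := h k k.2
      rw [Representation.char_one] at h2
      exact h2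
    rw [Finset.sum_congr rfl (fun k _ => h1 k), Finset.sum_const, nsmul_eq_mul, Finset.card_univ,
      ← Nat.card_eq_fintype_card, smul_eq_mul, ← mul_assoc, inv_mul_cancel₀ hc, one_mul]
  have ha1 : a = 1 := by
    rw [ha, map_smul, LinearMap.trace_id, smul_eq_mul] at htr
    have h3 : (a - 1) * (Module.finrank ℂ V : ℂ) = 0 := by rw [sub_mul, one_mul, htr, sub_self]
    rcases mul_eq_zero.1 h3 with h4 | h4
    · exact sub_eq_zero.1 h4
    · exact absurd h4 hdim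
  have he : e = 1 := by rw [ha, ha1, one_smul]; rfl
  intro k hk x
  have h5 : ρ k * e = e := by
    change ρ k * ((Nat.card K : ℂ)⁻¹ • ∑ k : K, ρ (k : G)) = (Nat.card K : ℂ)⁻¹ • ∑ k : K, ρ (k : G)
    rw [mul_smul_comm, Finset.mul_sum]
    congr 1
    rw [← Equiv.sum_comp (Equiv.mulLeft (⟨k, hk⟩ : K)) (fun k : K => ρ (k : G))]
    refine Finset.sum_congr rfl fun l _ => ?_
    rw [← map_mul]
    rfl
  rw [he, mul_one] at h5
  change LinearMap.trace ℂ V (ρ (k * x)) = LinearMap.trace ℂ V (ρ x)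
  rw [map_mul, h5, one_mul]

variable {X A : Type} [Group X] [CommGroup A] {D : ANS X A} {z : X} {ν : ℂ} {lam : A →* ℂˣ} {G Q : Type} [Group G]
  [Finite G] [Group Q] [Finite Q] (P : Piece D z ν lam G Q)

theorem piece_to {χ : Q → ℂ} (hχ : χ ∈ IrrZ (P.q P.gz) ν) :
    (fun g => ((P.lh g : ℂˣ) : ℂ) * χ (P.q g)) ∈ IrrZ P.gz ν ∧
      P.toStab.Over (fun g => ((P.lh g : ℂˣ) : ℂ) * χ (P.q g)) := by
  refine ⟨⟨irr_lin P.lh (irr_infl P.q P.surj hχ.1), ?_⟩, ?_⟩
  · simp only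
    rw [P.lh_gz, map_one, map_one, hχ.2, Units.val_one]
    ring
  · intro g a hg
    simp only
    rw [map_one, map_one, Units.val_one, one_mul]
    rcases P.hA g a hg with ⟨h1, h2⟩ | ⟨h1, h2⟩
    · rw [h1, h2]
    · rw [h1, h2, hχ.2]
      ring

theorem piece_from {ψ : G → ℂ} (hψ : ψ ∈ IrrZ P.gz ν) (ho : P.toStab.Over ψ) :
    ∃ χ ∈ IrrZ (P.q P.gz) ν, ψ = fun g => ((P.lh g : ℂˣ) : ℂ) * χ (P.q g) := by
  have h1 := irr_lin P.lh⁻¹ hψ.1
  set ψ' : G → ℂ := fun g => ((P.lh⁻¹ g : ℂˣ) : ℂ) * ψ g with hψ'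
  have hval : ∀ g, ((P.lh g : ℂˣ) : ℂ) * ψ' g = ψ g := by
    intro g
    have : ((P.lh g : ℂˣ) : ℂ) * ((P.lh⁻¹ g : ℂˣ) : ℂ) = 1 := by
      rw [← Units.val_mul, MonoidHom.inv_apply, mul_inv_cancel, Units.val_one]
    rw [hψ']
    simp only
    rw [← mul_assoc, this, one_mul]
  have hone : ψ' 1 = ψ 1 := by
    have := hval 1
    rwa [map_one, Units.val_one, one_mul] at this
  have hker : ∀ k ∈ P.q.ker, ψ' k = ψ' 1 := by
    intro k hk
    obtain ⟨a, ha, hl⟩ := P.hker k hk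
    have h2 := ho k a ha
    have h3 := hval k
    rw [h2, hl] at h3
    have h4 := mul_left_cancel₀ (Units.ne_zero _) h3
    rw [h4, hone]
  have hinv := char_ker h1 P.q.ker hker
  obtain ⟨η, hη⟩ := (inflEquiv P.q P.surj).surjective ⟨⟨ψ', h1⟩, hinv⟩
  have hη' : ψ' = fun x => η.1 (P.q x) := (congrArg (fun t => t.1.1) hη).symm
  refine ⟨η.1, ⟨η.2, ?_⟩, ?_⟩
  · have h5 : ψ' P.gz = η.1 (P.q P.gz) := congrFun hη' P.gz
    have h6 : ψ' 1 = η.1 (P.q 1) := congrFun hη' 1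
    have h7 := hval P.gz
    rw [P.lh_gz, Units.val_one, one_mul, hψ.2, ← hone] at h7
    rw [map_one] at h6
    rw [← h5, ← h6, h7]
  · funext g
    rw [← hval g, hη']

end Pool.Agent.Helper24.LOC
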