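import Pool.Agent.Helper24.LOC.CInd
import Pool.Agent.Helper24.LOC.CGal

/-!
C04 Main: labels for all characters of `X` from labels for the pieces.

PROOF. For `r : R` and `χ0 ∈ IrrZ (q gz) ν` of `Q r` let `Θ r χ0 = indHom inc (lh * (χ0 ∘ q))`. By `piece_to`, `ind_irr`, `ind_z`, `ind_one`
it is in `IrrZ z ν` of `X` (the value at `z` is `(|X| / |G|) ψ(gz) = (|X| / |G|) ν ψ(1)`). The map
`Θ : (Σ r, IrrZ (q gz) ν) → IrrZ z ν` is injective: `occ_ind` gives from `Θ r χ0 = Θ r' χ0'` an `x` with `Rel x (lam r) (lam r')`, so `r = r'`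
(`h1`), then `ind_inj`, and `lh * (χ0 ∘ q)` determines `χ0` (`q` surjective, `lh` has nonzero values). Surjective: for `χ ∈ IrrZ z ν` let
`mu` occur in `χ` (`exists_occ`); `mu a = ν` if `j a = z` (`occ_z`), so `Rel x (lam r) mu` for some `r, x` (`h2`) and `lam r` occurs in `χ` too
(`χ` is a class function: reindex the sum `occ`); `exists_ind`: `χ = indHom inc ψ`, `ψ` irreducible over `lam r`, with
`ψ gz = ν ψ 1` by `ind_z`, `ind_one`; `piece_from`. So `e' = ` the inverse of `Θ` followed by `Sigma.map id e`.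
Degree: `ind_one`, `|X| = ix r * |G r|`, `he`.
Twist: let `χ' = ε χ`, `χ = Θ r χ0`, and `r', x` as in `hT`. For `g : G r`, `x⁻¹ (inc g) x` stabilizes `lam r'` (from `hrel` and the invariance of
`ε` and `lam r` under `inc g`), and conversely; so there is a bijection `E : G r ≃ G r'` with `inc' (E g) = x⁻¹ (inc g) x`
(a group isomorphism). Let `ψ' (E g) = ε(inc g) lh(g) χ0(q g)`: it is irreducible (`irr_comp` with the isomorphism, `irr_lin` for
`ε`), over `lam r'` (`hrel`), and `ψ' gz' = ν ψ' 1` (`E gz = gz'` as `z` is central; `ε(z) ψ(z)`, hence we need `ε z = 1`: hypothesis `hεz`).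
So `ψ' = lh' * (χ0' ∘ q')` (`piece_from`) and `χ' = Θ r' χ0'` by `ind_sign`, `ind_conj`. The last hypothesis in `hT` gives
`T ⟨r, e χ0⟩ = ⟨r', e' χ0'⟩`.
-/

set_option autoImplicit false

namespace Pool.Agent.Helper24.LOC

open Pool.Agent.Helper42.INC Pool.Agent.Helper7.MK Pool.Agent.Helper81.AN

private theorem occ_rel {X A : Type} [Group X] [CommGroup A] [Finite A] (D : ANS X A) {x : X}
    {lam mu : A →* ℂˣ} (h : D.Rel x lam mu) {χ : X → ℂ} (hχ : IsClass χ) :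
    D.occ mu χ = D.occ lam χ := by
  classical
  choose f hf using D.norm x
  have hinj : Function.Injective f := by
    intro a b hab
    have h1 : x * D.j a * x⁻¹ = x * D.j b * x⁻¹ := by rw [← hf a, ← hf b, hab]
    have h2 : D.j a = D.j b := by simpa using h1
    exact D.inj h2
  have hbij : Function.Bijective f := ⟨hinj, Finite.surjective_of_injective hinj⟩
  symm
  unfold ANS.occ
  refine finsum_eq_of_bijective f hbij fun a => ?_
  rw [h a (f a) (hf a), hf a, hχ]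

private theorem ind_IrrZ {X A : Type} [Group X] [CommGroup A] [Finite X] [Finite A] {D : ANS X A} {z : X}
    (hz : ∀ x, z * x = x * z) {ν : ℂ} {lam : A →* ℂˣ} {G Q : Type} [Group G] [Finite G] [Group Q] [Finite Q]
    (P : Piece D z ν lam G Q) {χ : Q → ℂ} (hχ : χ ∈ IrrZ (P.q P.gz) ν) :
    indHom P.inc (fun g => ((P.lh g : ℂˣ) : ℂ) * χ (P.q g)) ∈ IrrZ z ν := by
  obtain ⟨h1, h2⟩ := piece_to P hχ
  refine ⟨ind_irr P.toStab h1.1 h2, ?_⟩
  have h3 := ind_z P.inc P.inj z hz P.gz P.inc_gz (fun g => ((P.lh g : ℂˣ) : ℂ) * χ (P.q g))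
  have h4 := ind_one P.inc P.inj (fun g => ((P.lh g : ℂˣ) : ℂ) * χ (P.q g))
  have h5 : (Nat.card G : ℂ) ≠ 0 := Nat.cast_ne_zero.2 Nat.card_pos.ne'
  have h6 : ((P.lh P.gz : ℂˣ) : ℂ) * χ (P.q P.gz) = ν * (((P.lh 1 : ℂˣ) : ℂ) * χ (P.q 1)) := h1.2
  rw [h6] at h3
  apply mul_left_cancel₀ h5
  rw [h3, mul_left_comm, ← h4]
  ring

private theorem lift_inj {X A : Type} [Group X] [CommGroup A] {D : ANS X A} {z : X}
    {ν : ℂ} {lam : A →* ℂˣ} {G Q : Type} [Group G] [Group Q]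
    (P : Piece D z ν lam G Q) {χ χ' : Q → ℂ}
    (h : (fun g => ((P.lh g : ℂˣ) : ℂ) * χ (P.q g)) = fun g => ((P.lh g : ℂˣ) : ℂ) * χ' (P.q g)) : χ = χ' := by
  funext y
  obtain ⟨g, rfl⟩ := P.surj y
  have h1 := congrFun h g
  exact mul_left_cancel₀ (Units.ne_zero _) h1

private theorem surj_aux {X A : Type} [Group X] [CommGroup A] [Finite X] [Finite A] {D : ANS X A} {z : X}
    (hz : ∀ x, z * x = x * z) {ν : ℂ} {lam : A →* ℂˣ} {G Q : Type} [Group G] [Finite G] [Group Q] [Finite Q]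
    (P : Piece D z ν lam G Q) {χ : X → ℂ} (hχ : χ ∈ IrrZ z ν) (ho : D.occ lam χ ≠ 0) :
    ∃ χ0 ∈ IrrZ (P.q P.gz) ν, χ = indHom P.inc (fun g => ((P.lh g : ℂˣ) : ℂ) * χ0 (P.q g)) := by
  obtain ⟨ψ, hψ, hov, he⟩ := exists_ind P.toStab hχ.1 ho
  have h3 := ind_z P.inc P.inj z hz P.gz P.inc_gz ψ
  have h4 := ind_one P.inc P.inj ψ
  have h5 : (Nat.card X : ℂ) ≠ 0 := Nat.cast_ne_zero.2 Nat.card_pos.ne'
  have h6 : ψ P.gz = ν * ψ 1 := by
    apply mul_left_cancel₀ h5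
    rw [← h3, ← he, hχ.2, mul_left_comm, mul_left_comm (Nat.card X : ℂ), ← h4, ← he]
  obtain ⟨χ0, h0, h7⟩ := piece_from P (ψ := ψ) ⟨hψ, h6⟩ hov
  exact ⟨χ0, h0, by rw [he, h7]⟩

private theorem twist_aux {X A : Type} [Group X] [CommGroup A] [Finite X] [Finite A] {D : ANS X A} {z : X}
    (hz : ∀ x, z * x = x * z) {ν : ℂ} (ε : X →* ℤˣ) (hεz : ε z = 1) {lam lam' : A →* ℂˣ} {G Q G' Q' : Type}
    [Group G] [Finite G] [Group Q] [Finite Q] [Group G'] [Finite G'] [Group Q'] [Finite Q']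
    (P : Piece D z ν lam G Q) (P' : Piece D z ν lam' G' Q') (x : X)
    (hl : ∀ a a', D.j a' = x⁻¹ * D.j a * x →
        ((lam' a' : ℂˣ) : ℂ) = (((ε (D.j a) : ℤˣ) : ℤ) : ℂ) * ((lam a : ℂˣ) : ℂ))
    {χ0 : Q → ℂ} (h0 : χ0 ∈ IrrZ (P.q P.gz) ν) :
    ∃ χ0' ∈ IrrZ (P'.q P'.gz) ν,
      (∀ y, indHom P'.inc (fun g => ((P'.lh g : ℂˣ) : ℂ) * χ0' (P'.q g)) y =
        (((ε y : ℤˣ) : ℤ) : ℂ) * indHom P.inc (fun g => ((P.lh g : ℂˣ) : ℂ) * χ0 (P.q g)) y) ∧
      ∀ (g : G) (g' : G'), P'.inc g' = x⁻¹ * P.inc g * x →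
          (((P'.lh g' : ℂˣ) : ℂ) * χ0' (P'.q g')) =
            (((ε (P.inc g) : ℤˣ) : ℤ) : ℂ) * ((((P.lh g : ℂˣ) : ℂ) * χ0 (P.q g))) := by
  classical
  have hεc : ∀ (y : X), ε (x * y * x⁻¹) = ε y := by
    intro y
    rw [map_mul, map_mul, map_inv, mul_comm (ε x), mul_assoc, mul_inv_cancel, mul_one]
  have hεne : ∀ y : X, ((((ε y : ℤˣ) : ℤ) : ℂ)) ≠ 0 := by
    intro y
    exact Int.cast_ne_zero.2 (Units.ne_zero _)
  have hrel : ∀ y : X, D.Rel y lam lam ↔ D.Rel (x⁻¹ * y * x) lam' lam' := by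
    intro y
    constructor
    · intro h a a' haa
      obtain ⟨b, hb⟩ := D.norm x a
      obtain ⟨b', hb'⟩ := D.norm x a'
      have e1 : D.j a = x⁻¹ * D.j b * x := by rw [hb]; group
      have e2 : D.j a' = x⁻¹ * D.j b' * x := by rw [hb']; group
      have e3 : D.j b' = y * D.j b * y⁻¹ := by rw [hb', haa, hb]; group
      apply Units.ext
      rw [hl b' a' e2, hl b a e1, h b b' e3]
      have e4 : ε (D.j b') = ε (D.j b) := by
        rw [e3, map_mul, map_mul, map_inv, mul_comm (ε y), mul_assoc, mul_inv_cancel, mul_one]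
      rw [e4]
    · intro h b b' hbb
      obtain ⟨a, ha⟩ := D.norm x⁻¹ b
      obtain ⟨a', ha'⟩ := D.norm x⁻¹ b'
      rw [inv_inv] at ha ha'
      have e3 : D.j a' = (x⁻¹ * y * x) * D.j a * (x⁻¹ * y * x)⁻¹ := by
        rw [ha', hbb, ha]; group
      have e5 := h a a' e3
      have e6 : ((lam' a' : ℂˣ) : ℂ) = ((lam' a : ℂˣ) : ℂ) := by rw [e5]
      have e4 : ε (D.j b') = ε (D.j b) := by
        rw [hbb, map_mul, map_mul, map_inv, mul_comm (ε y), mul_assoc, mul_inv_cancel, mul_one]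
      rw [hl b' a' ha', hl b a ha, e4] at e6
      exact Units.ext (mul_left_cancel₀ (hεne _) e6)
  have hex : ∀ g : G, ∃ g' : G', P'.inc g' = x⁻¹ * P.inc g * x := by
    intro g
    have h1 : D.Rel (P.inc g) lam lam := (P.range _).1 ⟨g, rfl⟩
    exact (P'.range _).2 ((hrel _).1 h1)
  choose f hf using hex
  let F : G →* G' := MonoidHom.mk' f fun a b => by
    apply P'.inj
    rw [map_mul, hf, hf, hf, map_mul]
    group
  have hF : ∀ g, P'.inc (F g) = x⁻¹ * P.inc g * x := hf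
  have hFb : Function.Bijective F := by
    constructor
    · intro a b hab
      have h1 : x⁻¹ * P.inc a * x = x⁻¹ * P.inc b * x := by rw [← hF, ← hF, hab]
      apply P.inj
      simpa using h1
    · intro g'
      have h1 : D.Rel (P'.inc g') lam' lam' := (P'.range _).1 ⟨g', rfl⟩
      have h2 : D.Rel (x * P'.inc g' * x⁻¹) lam lam := by
        rw [hrel]
        have : x⁻¹ * (x * P'.inc g' * x⁻¹) * x = P'.inc g' := by group
        rw [this]
        exact h1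
      obtain ⟨g, hg⟩ := (P.range _).2 h2
      refine ⟨g, ?_⟩
      apply P'.inj
      rw [hF, hg]
      group
  let E : G ≃* G' := MulEquiv.ofBijective F hFb
  have hE : ∀ g, P'.inc (E g) = x⁻¹ * P.inc g * x := hF
  obtain ⟨hψ, hov⟩ := piece_to P h0
  set ψ : G → ℂ := fun g => ((P.lh g : ℂˣ) : ℂ) * χ0 (P.q g) with hψdef
  let εh : G →* ℂˣ := (Units.map ((Int.castRingHom ℂ : ℤ →+* ℂ) : ℤ →* ℂ)).comp (ε.comp P.inc)
  have hεh : ∀ g, ((εh g : ℂˣ) : ℂ) = (((ε (P.inc g) : ℤˣ) : ℤ) : ℂ) := fun g => rfl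
  have hirr1 : (fun g => (((ε (P.inc g) : ℤˣ) : ℤ) : ℂ) * ψ g) ∈ Irr G := irr_lin εh hψ.1
  let ψ' : G' → ℂ := fun g' => (((ε (P.inc (E.symm g')) : ℤˣ) : ℤ) : ℂ) * ψ (E.symm g')
  have hirr2 : ψ' ∈ Irr G' := irr_comp E.symm hirr1
  have hψE : ∀ g, ψ' (E g) = (((ε (P.inc g) : ℤˣ) : ℤ) : ℂ) * ψ g := by
    intro g
    simp only [ψ', MulEquiv.symm_apply_apply]
  have hψ1 : ψ' 1 = ψ 1 := by
    have := hψE 1
    rw [map_one, map_one, map_one] at this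
    simpa using this
  have hEz : E P.gz = P'.gz := by
    apply P'.inj
    rw [hE, P.inc_gz, P'.inc_gz, mul_assoc, hz x, ← mul_assoc, inv_mul_cancel, one_mul]
  have hz' : ψ' P'.gz = ν * ψ' 1 := by
    rw [← hEz, hψE, hψ1, P.inc_gz, hεz]
    have : ψ P.gz = ν * ψ 1 := hψ.2
    rw [this]
    simp
  have hov' : P'.toStab.Over ψ' := by
    intro g' a hga
    obtain ⟨g, rfl⟩ := E.surjective g'
    obtain ⟨b, hb⟩ := D.norm x a
    have e1 : D.j a = x⁻¹ * D.j b * x := by rw [hb]; group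
    have e2 : P.inc g = D.j b := by
      have : x⁻¹ * P.inc g * x = x⁻¹ * D.j b * x := by
        rw [← hE, ← e1]
        exact hga
      simpa using this
    rw [hψE, hψ1, hl b a e1, e2, hov g b e2]
    ring
  obtain ⟨χ0', h0', hψ'⟩ := piece_from P' (ψ := ψ') ⟨hirr2, hz'⟩ hov'
  refine ⟨χ0', h0', ?_, ?_⟩
  · intro y
    rw [← hψ']
    rw [← ind_sign P.inc ε ψ y]
    exact congrFun (ind_conj P.inc P'.inc E.toEquiv x hE _ ψ' hψE) y
  · intro g g' hg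
    have h1 : g' = E g := by
      apply P'.inj
      rw [hg, hE]
    have h2 := congrFun hψ' g'
    rw [h1] at h2 ⊢
    exact h2.symm.trans (hψE g)

theorem ccl {X A : Type} [Group X] [CommGroup A] [Finite X] [Finite A] (D : ANS X A) (z : X)
    (hz : ∀ x, z * x = x * z) (ν : ℂ) (ε : X →* ℤˣ) (hεz : ε z = 1) (R : Type) (lam : R → (A →* ℂˣ)) (G Q : R → Type)
    [∀ r, Group (G r)] [∀ r, Finite (G r)] [∀ r, Group (Q r)] [∀ r, Finite (Q r)]
    (P : ∀ r, Piece D z ν (lam r) (G r) (Q r)) (L : R → Type) (dg : ∀ r, L r → ℕ)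
    (e : ∀ r, IrrZ ((P r).q (P r).gz) ν ≃ L r) (he : ∀ r χ, χ.1 1 = (dg r (e r χ) : ℂ))
    (ix : R → ℕ) (hix : ∀ r, Nat.card X = ix r * Nat.card (G r))
    (h1 : ∀ r r' x, D.Rel x (lam r) (lam r') → r = r')
    (h2 : ∀ mu : A →* ℂˣ, (∀ a, D.j a = z → ((mu a : ℂˣ) : ℂ) = ν) → ∃ r x, D.Rel x (lam r) mu)
    (T : (Σ r, L r) → Σ r, L r)
    (hT : ∀ r, ∃ (r' : R) (x : X),
      (∀ a a', D.j a' = x⁻¹ * D.j a * x →
        ((lam r' a' : ℂˣ) : ℂ) = (((ε (D.j a) : ℤˣ) : ℤ) : ℂ) * ((lam r a : ℂˣ) : ℂ)) ∧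
      ∀ (χ : IrrZ ((P r).q (P r).gz) ν) (χ' : IrrZ ((P r').q (P r').gz) ν),
        (∀ (g : G r) (g' : G r'), (P r').inc g' = x⁻¹ * (P r).inc g * x →
          (((P r').lh g' : ℂˣ) : ℂ) * χ'.1 ((P r').q g') =
            (((ε ((P r).inc g) : ℤˣ) : ℤ) : ℂ) * ((((P r).lh g : ℂˣ) : ℂ) * χ.1 ((P r).q g))) →
        T ⟨r, e r χ⟩ = ⟨r', e r' χ'⟩) :
    Nonempty (Lab X ε z ν (Σ r, L r) T fun s => ix s.1 * dg s.1 s.2) := by
  classical
  let Θ : (Σ r, IrrZ ((P r).q (P r).gz) ν) → IrrZ z ν := fun s =>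
    ⟨indHom (P s.1).inc (fun g => (((P s.1).lh g : ℂˣ) : ℂ) * s.2.1 ((P s.1).q g)),
      ind_IrrZ hz (P s.1) s.2.2⟩
  have hΘ : Function.Bijective Θ := by
    constructor
    · rintro ⟨r, χ0⟩ ⟨r', χ0'⟩ hab
      have h3 : indHom (P r).inc (fun g => (((P r).lh g : ℂˣ) : ℂ) * χ0.1 ((P r).q g)) =
        indHom (P r').inc (fun g => (((P r').lh g : ℂˣ) : ℂ) * χ0'.1 ((P r').q g)) :=
        congrArg Subtype.val hab
      obtain ⟨p1, p2⟩ := piece_to (P r) χ0.2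
      obtain ⟨p3, p4⟩ := piece_to (P r') χ0'.2
      have h4 := (occ_ind (P r).toStab p1.1 p2 (lam r)).2 ⟨1, rel_one D (lam r)⟩
      rw [h3] at h4
      obtain ⟨x, hx⟩ := (occ_ind (P r').toStab p3.1 p4 (lam r)).1 h4
      have h5 := h1 r' r x hx
      subst h5
      have h6 := ind_inj (P r').toStab p1.1 p2 p3.1 p4 h3
      have h7 : χ0 = χ0' := Subtype.ext (lift_inj (P r') h6)
      rw [h7]
    · intro χ
      obtain ⟨mu, hmu⟩ := exists_occ D χ.2.1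
      obtain ⟨r, x, hx⟩ := h2 mu fun a ha => occ_z D hz χ.2 hmu a ha
      have h3 : D.occ (lam r) χ.1 ≠ 0 := by
        rw [← occ_rel D hx (Irr.isClass χ.2.1)]
        exact hmu
      obtain ⟨χ0, h0, he0⟩ := surj_aux hz (P r) χ.2 h3
      exact ⟨⟨r, ⟨χ0, h0⟩⟩, Subtype.ext he0.symm⟩
  let eΘ := Equiv.ofBijective Θ hΘ
  refine ⟨⟨eΘ.symm.trans (Equiv.sigmaCongrRight e), ?_, ?_⟩⟩
  · intro χ χ' hχ
    obtain ⟨s, hs⟩ := eΘ.surjective χ
    obtain ⟨r, χ0⟩ := s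
    obtain ⟨r', x, hl, hTT⟩ := hT r
    obtain ⟨χ0', h0', hind, hrel⟩ := twist_aux hz ε hεz (P r) (P r') x hl χ0.2
    have h3 : eΘ ⟨r', ⟨χ0', h0'⟩⟩ = χ' := by
      apply Subtype.ext
      funext y
      rw [hχ, ← hs]
      exact hind y
    have h4 := hTT χ0 ⟨χ0', h0'⟩ hrel
    rw [← h3, ← hs, Equiv.trans_apply, Equiv.trans_apply, Equiv.symm_apply_apply,
      Equiv.symm_apply_apply]
    exact h4.symm
  · intro χ
    obtain ⟨s, hs⟩ := eΘ.surjective χ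
    obtain ⟨r, χ0⟩ := s
    rw [← hs, Equiv.trans_apply, Equiv.symm_apply_apply]
    have h4 := ind_one (P r).inc (P r).inj (fun g => (((P r).lh g : ℂˣ) : ℂ) * χ0.1 ((P r).q g))
    have h5 : (Nat.card (G r) : ℂ) ≠ 0 := Nat.cast_ne_zero.2 Nat.card_pos.ne'
    change indHom (P r).inc (fun g => (((P r).lh g : ℂˣ) : ℂ) * χ0.1 ((P r).q g)) 1 =
      ((ix r * dg r (e r χ0) : ℕ) : ℂ)
    apply mul_left_cancel₀ h5
    rw [h4, hix r, map_one, map_one, he r χ0]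
    push_cast
    ring

/-- the case where `ε` is trivial on `A` and comes from the quotients -/
theorem ccl_simple {X A : Type} [Group X] [CommGroup A] [Finite X] [Finite A] (D : ANS X A) (z : X)
    (hz : ∀ x, z * x = x * z) (ν : ℂ) (ε : X →* ℤˣ) (hεz : ε z = 1) (R : Type) (lam : R → (A →* ℂˣ)) (G Q : R → Type)
    [∀ r, Group (G r)] [∀ r, Finite (G r)] [∀ r, Group (Q r)] [∀ r, Finite (Q r)]
    (P : ∀ r, Piece D z ν (lam r) (G r) (Q r)) (L : R → Type) (dg : ∀ r, L r → ℕ) (tw : ∀ r, L r → L r)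
    (εQ : ∀ r, Q r →* ℤˣ) (hε : ∀ r g, εQ r ((P r).q g) = ε ((P r).inc g)) (hεA : ∀ a, ε (D.j a) = 1)
    (hlab : ∀ r, Nonempty (Lab (Q r) (εQ r) ((P r).q (P r).gz) ν (L r) (tw r) (dg r)))
    (ix : R → ℕ) (hix : ∀ r, Nat.card X = ix r * Nat.card (G r))
    (h1 : ∀ r r' x, D.Rel x (lam r) (lam r') → r = r')
    (h2 : ∀ mu : A →* ℂˣ, (∀ a, D.j a = z → ((mu a : ℂˣ) : ℂ) = ν) → ∃ r x, D.Rel x (lam r) mu) :
    Nonempty (Lab X ε z ν (Σ r, L r) (Sigma.map id tw) fun s => ix s.1 * dg s.1 s.2) := by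
  have lab := fun r => (hlab r).some
  refine ccl D z hz ν ε hεz R lam G Q P L dg (fun r => (lab r).e) (fun r χ => (lab r).deg χ) ix hix h1 h2 _ ?_
  intro r
  refine ⟨r, 1, ?_, ?_⟩
  · intro a a' h
    rw [inv_one, one_mul, mul_one] at h
    rw [D.inj h, hεA]
    simp
  · intro χ χ' h
    have h3 : (lab r).e χ' = tw r ((lab r).e χ) := by
      apply (lab r).twist
      intro y
      obtain ⟨g, rfl⟩ := (P r).surj y
      have h4 := h g g (by simp)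
      rw [hε]
      have h5 : (((P r).lh g : ℂˣ) : ℂ) ≠ 0 := Units.ne_zero _
      apply mul_left_cancel₀ h5
      rw [h4]
      ring
    rw [h3]
    rfl

end Pool.Agent.Helper24.LOC
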