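import Pool.Agent.Helper24.LOC.TFib
import Pool.Agent.Helper24.LOC.BPerm
import Pool.Agent.Helper42.INC.Red2

/-!
T03 Lab: labels of the characters of `∏_c Perm (fibre of c)`.

PROOFS. Every irreducible character `χ` of the product is `∏_c χ_c` (`pi_surj`), uniquely (`pi_inj`); `labF f χ c = plab (χ_c)`.
`labF_size`, `labF_inj`, `labF_surj`, `labF_deg`: from `plab_size`, `plab_inj`, `plab_surj`, `plab_deg`, `irr_pi`.
`labF_tw`: for a colour `c` let `ρ_c : {i // f' i = c} ≃ {i // f i = s c}` be the bijection `i ↦ τ i` (`f' i = s (f (τ i))` and `s (s c) = c`).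
For `g` in `∏ Perm {i // f i = c}` let `g' c = ρ_c.symm.permCongr (g (s c))`; then `fib f' g' = τ⁻¹ * fib f g * τ`, so
`∏_c χ'_c (g' c) = sign (fib f g) * ∏_c χ_c (g c) = ∏_c sign (g c) χ_c (g c)` (`sign_fib`). Every `g'` is obtained, so by uniqueness
(`pi_inj`) `χ'_c (ρ_c.symm.permCongr σ) = sign σ * χ_(s c) σ` for `σ : Perm {i // f i = s c}`; so by `plab_congr` and `plab_tw`
`plab χ'_c = conj (plab χ_(s c))`. (To use `plab_tw` apply it to the irreducible character `sign * χ_(s c)`, which is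
`χ'_c ∘ ρ_c.symm.permCongr`.)
`labF_equiv`: `Equiv.ofBijective` (it is used without the twist).
-/

set_option autoImplicit false
set_option linter.unusedSectionVars false

open Equiv

namespace Pool.Agent.Helper24.LOC

open Pool.Agent.Helper42.INC Pool.Agent.Helper7.MK Pool.Agent.Helper81.AN

variable {I C : Type} [Fintype I] [DecidableEq I] [Fintype C] [DecidableEq C]

/-- the label -/
noncomputable def labF (f : I → C) (χ : Irr (∀ c, Perm {i // f i = c})) (c : C) : P0 :=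
  plab _ ((pi_surj χ.1 χ.2).choose c)

private theorem labF_spec (f : I → C) (χ : Irr (∀ c, Perm {i // f i = c})) :
    ∃ ξ : ∀ c, Irr (Perm {i // f i = c}), (∀ g, χ.1 g = ∏ c, (ξ c).1 (g c)) ∧
      ∀ c, labF f χ c = plab _ (ξ c) :=
  ⟨(pi_surj χ.1 χ.2).choose, (pi_surj χ.1 χ.2).choose_spec, fun _ => rfl⟩

private theorem labF_eq (f : I → C) (χ : Irr (∀ c, Perm {i // f i = c}))
    (ξ : ∀ c, Irr (Perm {i // f i = c})) (h : ∀ g, χ.1 g = ∏ c, (ξ c).1 (g c)) (c : C) :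
    labF f χ c = plab _ (ξ c) := by
  obtain ⟨ξ', h1, h2⟩ := labF_spec f χ
  rw [h2]
  have h3 : ξ' = ξ := by
    apply pi_inj
    intro g
    rw [← h1, h]
  rw [h3]

theorem labF_size (f : I → C) (χ : Irr (∀ c, Perm {i // f i = c})) (c : C) :
    (labF f χ c).size = Fintype.card {i // f i = c} := by
  rw [labF, plab_size]

theorem labF_inj (f : I → C) : Function.Injective (labF f) := by
  intro χ χ' h
  obtain ⟨ξ, h1, h2⟩ := labF_spec f χ
  obtain ⟨ξ', h1', h2'⟩ := labF_spec f χ'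
  have h3 : ξ = ξ' := by
    funext c
    apply plab_inj
    rw [← h2, ← h2', h]
  apply Subtype.ext
  funext g
  rw [h1, h1', h3]

theorem labF_surj (f : I → C) (κ : C → P0) (h : ∀ c, (κ c).size = Fintype.card {i // f i = c}) :
    ∃ χ, labF f χ = κ := by
  have h1 : ∀ c, ∃ ξ : Irr (Perm {i // f i = c}), plab _ ξ = κ c := fun c => plab_surj _ (h c)
  choose ξ hξ using h1
  refine ⟨⟨_, irr_pi ξ⟩, ?_⟩
  funext c
  rw [labF_eq f _ ξ (fun g => rfl), hξ]

theorem labF_deg (f : I → C) (χ : Irr (∀ c, Perm {i // f i = c})) :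
    χ.1 1 = ((∏ c, (labF f χ c).f : ℕ) : ℂ) := by
  obtain ⟨ξ, h1, h2⟩ := labF_spec f χ
  rw [h1, Nat.cast_prod]
  refine Finset.prod_congr rfl fun c _ => ?_
  rw [h2, Pi.one_apply, plab_deg]

theorem labF_tw (f f' : I → C) (s : C → C) (hs : ∀ c, s (s c) = c) (τ : Perm I) (h : ∀ i, s (f (τ i)) = f' i)
    (χ : Irr (∀ c, Perm {i // f i = c})) (χ' : Irr (∀ c, Perm {i // f' i = c}))
    (hχ : ∀ g g', fib f' g' = τ⁻¹ * fib f g * τ → χ'.1 g' = (((Perm.sign (fib f g) : ℤˣ) : ℤ) : ℂ) * χ.1 g) (c : C) :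
    labF f' χ' c = (labF f χ (s c)).conj := by
  obtain ⟨ξ, h1, h2⟩ := labF_spec f χ
  obtain ⟨ξ', h1', h2'⟩ := labF_spec f' χ'
  have hρ : ∀ (c : C) (i : I), f' i = c ↔ f (τ i) = s c := by
    intro c i
    rw [← h]
    constructor
    · intro e
      rw [← e, hs]
    · intro e
      rw [e, hs]
  have hti : ∀ j, τ (τ⁻¹ j) = j := fun j => τ.apply_symm_apply j
  have hit : ∀ i, τ⁻¹ (τ i) = i := fun i => τ.symm_apply_apply i
  obtain ⟨ρ, hρv⟩ : ∃ ρ : ∀ c, {i // f' i = c} ≃ {i // f i = s c},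
      ∀ c i, ((ρ c i : {i // f i = s c}) : I) = τ i :=
    ⟨fun c => τ.subtypeEquiv (hρ c), fun c i => rfl⟩
  have hρs : ∀ c j, (((ρ c).symm j : {i // f' i = c}) : I) = τ⁻¹ j := by
    intro c j
    rw [Perm.eq_inv_iff_eq, ← hρv, Equiv.apply_symm_apply]
  -- the two families
  obtain ⟨ζ, hζ⟩ : ∃ ζ : ∀ c, Irr (Perm {i // f' i = c}),
      ∀ c σ, (ζ c).1 σ = (ξ (s c)).1 ((ρ c).permCongr σ) :=
    ⟨fun c => ⟨_, irr_comp (ρ c).permCongrHom (ξ (s c)).2⟩, fun c σ => rfl⟩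
  obtain ⟨θ, hθ⟩ : ∃ θ : ∀ c, Irr (Perm {i // f' i = c}),
      ∀ c σ, (θ c).1 σ = (((Perm.sign σ : ℤˣ) : ℤ) : ℂ) * (ζ c).1 σ := by
    refine ⟨fun c => ⟨_, irr_linTwist
      ((Units.map (Int.castRingHom ℂ : ℤ →* ℂ)).comp Perm.sign) (ζ c).2⟩, fun c σ => ?_⟩
    rfl
  have hfam : ξ' = θ := by
    apply pi_inj
    intro g'
    obtain ⟨g, hg⟩ : ∃ g : ∀ d, Perm {i // f i = d},
        ∀ d j, ((g d j : {i // f i = d}) : I) =
          τ (g' (s d) ⟨τ⁻¹ j, (hρ _ _).2 (by rw [hti, hs]; exact j.2)⟩).1 := by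
      refine ⟨fun d => ((τ.subtypeEquiv (fun i => by rw [hρ, hs]) :
        {i // f' i = s d} ≃ {i // f i = d})).permCongr (g' (s d)), fun d j => rfl⟩
    have hg2 : ∀ c, g (s c) = (ρ c).permCongr (g' c) := by
      intro c
      ext j
      rw [hg, Equiv.permCongr_apply, hρv]
      congr 1
      have e1 : f' (τ⁻¹ j) = c := (hρ _ _).2 (by rw [hti]; exact j.2)
      have e2 : f' (τ⁻¹ j) = s (s c) := by rw [hs]; exact e1
      have e3 := fib_aux f' g' e1
      have e4 := fib_aux f' g' e2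
      rw [← e4, e3]
      congr 2
      exact Subtype.ext (hρs c j).symm
    have hfib : fib f' g' = τ⁻¹ * fib f g * τ := by
      ext i
      rw [Perm.mul_apply, Perm.mul_apply, Perm.eq_inv_iff_eq, fib_apply, fib_apply, hg]
      congr 1
      have e1 : f' i = s (f (τ i)) := (h i).symm
      have e2 := fib_aux f' g' e1
      rw [e2]
      congr 2
      exact Subtype.ext (hit i).symm
    have e := hχ g g' hfib
    rw [← h1', e, h1, sign_fib]
    push_cast
    rw [← Finset.prod_mul_distrib]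
    obtain ⟨S, hS⟩ : ∃ S : Perm C, ∀ c, S c = s c := ⟨⟨s, s, hs, hs⟩, fun _ => rfl⟩
    rw [← Equiv.prod_comp S]
    refine Finset.prod_congr rfl fun c _ => ?_
    rw [hS, hθ, hζ, hg2, Perm.sign_permCongr]
  rw [h2', h2, hfam]
  have e1 : plab _ (ξ (s c)) = plab _ (ζ c) :=
    plab_congr (ρ c) (ζ c) (ξ (s c)) fun σ => (hζ c σ).symm
  rw [e1]
  exact plab_tw (ζ c) (θ c) (hθ c)

/-- families of partitions with prescribed sizes -/
def LabF (n : C → ℕ) : Type := {κ : C → P0 // ∀ c, (κ c).size = n c}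

theorem labF_equiv (f : I → C) (n : C → ℕ) (hf : ∀ c, Fintype.card {i // f i = c} = n c) :
    ∃ e : IrrZ (1 : ∀ c, Perm {i // f i = c}) 1 ≃ LabF n, ∀ χ : IrrZ (1 : ∀ c, Perm {i // f i = c}) 1,
      (e χ).1 = labF f ⟨χ.1, χ.2.1⟩ := by
  refine ⟨Equiv.ofBijective (fun χ => ⟨labF f ⟨χ.1, χ.2.1⟩, fun c => by rw [labF_size, hf]⟩)
    ⟨?_, ?_⟩, fun χ => rfl⟩
  · intro χ χ' h
    have h1 := labF_inj f (congrArg Subtype.val h)
    exact Subtype.ext (congrArg (fun ψ : Irr (∀ c, Perm {i // f i = c}) => ψ.1) h1)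
  · intro κ
    obtain ⟨χ, hχ⟩ := labF_surj f κ.1 (fun c => by rw [κ.2, hf])
    exact ⟨⟨χ.1, χ.2, (one_mul _).symm⟩, Subtype.ext hχ⟩

end Pool.Agent.Helper24.LOC
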