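import Pool.Agent.Helper24.LOC.TChar
import Pool.Agent.Helper24.LOC.TLab
import Pool.Agent.Helper24.LOC.CMain
import Pool.Agent.Helper24.LOC.BLab

/-!
T04 Main: labels of the irreducible characters of the wreath product `K wr Perm I`, `K` abelian.

PROOF. Apply `ccl` with `D = ansT K I`, `z = 1`, `ν = 1`, `ε = epsT η`, `R = {m : C → ℕ // ∑ m = n}`, a colouring `f m : I → C` of content `m`
(`exists_colouring`, `choose`), `lam m = chiOf (θ ∘ f m)`, `P m = pieceT θ _ (f m)`, `L m = LabF m`, `e m` from `labF_equiv` (note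
`(pieceT ..).q (pieceT ..).gz = 1`), `dg m κ = ∏ (κ c).f` (`labF_deg`), `ix m = multinomial univ m`:
`|WWt K I| = |K|^n n!`, `|WWf f K| = |K|^n ∏ (m c)!` (`SemidirectProduct.card`, `card_fib`, `Nat.multinomial_spec`).
`h1`: `relT` gives `θ (f m' (σ i)) = θ (f m i)`, so the contents are equal (`content_perm`). `h2`: `mu = chiOf g` (`chiOf_surj`), `g = θ ∘ g'`, the
content `m` of `g'` (`sum_card_fib`), `exists_perm_of_content (f := g') (g := f m)`: `g' (τ i) = f m i`, `relT` with `x = inr τ`.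
`T ⟨m, κ⟩ = ⟨m ∘ s, fun c => (κ (s c)).conj⟩`. `s (s c) = c` by `hs`, `(η k)^2 = 1`. `hT`: for `m` let `m' = m ∘ s`; the colouring
`s ∘ f m` has content `m' c = m (s c)`; `τ` with `s (f m (τ i)) = f m' i` (`exists_perm_of_content`); `x = inr τ`. The first condition is
`chiOf (θ ∘ f m') (a ∘ τ) = ∏ (θ (s (f m (τ i)))) (a (τ i)) = ∏ η (a i) * ∏ θ (f m i) (a i)`. The second: for `g = inr ρ`, `g' = inr ρ'` with
`fib (f m') ρ' = τ⁻¹ * fib (f m) ρ * τ` the hypothesis says `χ' ρ' = sign (fib ρ) χ ρ`; `labF_tw`.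
Finally `lab_congr` with `f = MulEquiv.refl` and `E : (Σ m, LabF m) ≃ LabW C n`, `⟨m, κ⟩ ↦ κ` (the inverse: `m c = size (κ c)`);
degree: `multinomial univ m * ∏ f`, with `size (κ c) = m c`.
-/

set_option autoImplicit false

open Equiv

namespace Pool.Agent.Helper24.LOC

open Pool.Agent.Helper42.INC Pool.Agent.Helper7.MK Pool.Agent.Helper81.AN

private theorem tm_card {I C : Type} [Fintype I] [DecidableEq C] {f g : I → C} (h : ∀ i, f i = g i) (c : C) :
    Fintype.card {i // f i = c} = Fintype.card {i // g i = c} :=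
  Fintype.card_congr (Equiv.subtypeEquivRight fun i => by rw [h i])

private theorem tm_eta {K : Type} [Group K] (η : K →* ℤˣ) (k : K) :
    (((η k : ℤˣ) : ℤ) : ℂ) * (((η k : ℤˣ) : ℤ) : ℂ) = 1 := by
  rw [← Int.cast_mul, ← Units.val_mul, Int.units_mul_self, Units.val_one, Int.cast_one]

private theorem tm_invol {K C : Type} [Group K] (θ : C ≃ (K →* ℂˣ)) (η : K →* ℤˣ) (s : Perm C)
    (hs : ∀ c k, ((θ (s c) k : ℂˣ) : ℂ) = (((η k : ℤˣ) : ℤ) : ℂ) * ((θ c k : ℂˣ) : ℂ)) (c : C) :
    s (s c) = c := by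
  apply θ.injective
  refine MonoidHom.ext fun k => Units.ext ?_
  rw [hs, hs, ← mul_assoc, tm_eta, one_mul]

/-- the two descriptions of the labels -/
private noncomputable def tmE (C : Type) [Fintype C] (n : ℕ) :
    (Σ m : {m : C → ℕ // ∑ c, m c = n}, LabF m.1) ≃ LabW C n where
  toFun q := ⟨q.2.1, by rw [Finset.sum_congr rfl fun c _ => q.2.2 c]; exact q.1.2⟩
  invFun κ := ⟨⟨fun c => (κ.1 c).size, κ.2⟩, ⟨κ.1, fun c => rfl⟩⟩
  left_inv := by
    rintro ⟨⟨m, hm⟩, ⟨κ, hκ⟩⟩
    obtain rfl : m = fun c => (κ c).size := funext fun c => (hκ c).symm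
    rfl
  right_inv κ := rfl

theorem lab_wreath {K I C : Type} [CommGroup K] [Finite K] [Fintype I] [DecidableEq I] [Fintype C] [DecidableEq C]
    (θ : C ≃ (K →* ℂˣ)) (η : K →* ℤˣ) (s : Perm C)
    (hs : ∀ c k, ((θ (s c) k : ℂˣ) : ℂ) = (((η k : ℤˣ) : ℤ) : ℂ) * ((θ c k : ℂˣ) : ℂ)) (n : ℕ)
    (hn : Fintype.card I = n) :
    Nonempty (Lab (WWt K I) (epsT η) 1 1 (LabW C n) (LabW.tw s) LabW.dg) := by
  classical
  have hs2 := tm_invol θ η s hs
  have hfinW : Finite (WWt K I) := Finite.of_equiv _ SemidirectProduct.equivProd.symm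
  have hex : ∀ m : {m : C → ℕ // ∑ c, m c = n}, ∃ f : I → C, ∀ c, Fintype.card {i // f i = c} = m.1 c :=
    fun m => exists_colouring m.1 (m.2.trans hn.symm)
  choose f hf using hex
  have hfin : ∀ m, Finite (WWf (f m) K) := fun m =>
    Finite.of_equiv _ SemidirectProduct.equivProd.symm
  have hee : ∀ m, ∃ e : IrrZ (1 : ∀ c, Perm {i // f m i = c}) 1 ≃ LabF m.1,
      ∀ χ : IrrZ (1 : ∀ c, Perm {i // f m i = c}) 1, (e χ).1 = labF (f m) ⟨χ.1, χ.2.1⟩ :=
    fun m => labF_equiv (f m) m.1 (hf m)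
  choose e he using hee
  let T : (Σ m : {m : C → ℕ // ∑ c, m c = n}, LabF m.1) → Σ m : {m : C → ℕ // ∑ c, m c = n}, LabF m.1 :=
    fun q => ⟨⟨fun c => q.1.1 (s c), by rw [Equiv.sum_comp s q.1.1]; exact q.1.2⟩,
      ⟨fun c => (q.2.1 (s c)).conj, fun c => by rw [P0.size_conj]; exact q.2.2 (s c)⟩⟩
  have key := ccl (X := WWt K I) (A := I → K) (ansT K I) 1 (fun x => by rw [one_mul, mul_one]) 1 (epsT η)
    (map_one _) {m : C → ℕ // ∑ c, m c = n} (fun m => chiOf fun i => θ (f m i)) (fun m => WWf (f m) K)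
    (fun m => ∀ c, Perm {i // f m i = c}) (fun m => pieceT θ θ.injective (f m)) (fun m => LabF m.1)
    (fun m κ => ∏ c, (κ.1 c).f) (fun m => e m) ?_ (fun m => Nat.multinomial Finset.univ m.1) ?_ ?_ ?_ T ?_
  · refine lab_congr (MulEquiv.refl _) (epsT η) (epsT η) (fun _ => rfl) 1 1 rfl 1 (tmE C n) T (LabW.tw s)
      (fun q => rfl) _ LabW.dg (fun q => ?_) key
    change Nat.multinomial Finset.univ (fun c => (q.2.1 c).size) * _ = _
    have h1 : (fun c => (q.2.1 c).size) = q.1.1 := funext q.2.2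
    rw [h1]
    rfl
  · intro m χ
    have h1 := labF_deg (f m) ⟨χ.1, χ.2.1⟩
    have h2 := he m χ
    change χ.1 1 = ((∏ c, ((e m χ).1 c).f : ℕ) : ℂ)
    rw [h2]
    exact h1
  · intro m
    rw [SemidirectProduct.card, SemidirectProduct.card, card_fib, Nat.card_perm]
    have h1 := Nat.multinomial_spec Finset.univ m.1
    rw [m.2] at h1
    have h2 : Nat.card I = n := by rw [Nat.card_eq_fintype_card, hn]
    have h3 : ∏ c, (Fintype.card {i // f m i = c}).factorial = ∏ c, (m.1 c).factorial :=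
      Finset.prod_congr rfl fun c _ => congrArg Nat.factorial (hf m c)
    rw [h2, ← h1, h3]
    ring
  · intro m m' x hx
    have h1 := (relT x _ _).1 hx
    have h2 : ∀ i, f m' (x.right i) = f m i := fun i => θ.injective (h1 i)
    apply Subtype.ext
    funext c
    rw [← hf m c, ← hf m' c, ← content_perm (f m') x.right c]
    exact tm_card (fun i => (h2 i).symm) c
  · intro mu _
    obtain ⟨g, rfl⟩ := chiOf_surj mu
    let r : {m : C → ℕ // ∑ c, m c = n} := ⟨fun c => Fintype.card {i // θ.symm (g i) = c},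
      (sum_card_fib fun i => θ.symm (g i)).trans hn⟩
    obtain ⟨τ, hτ⟩ := exists_perm_of_content (fun i => θ.symm (g i)) (f r) (fun c => (hf r c).symm)
    refine ⟨r, SemidirectProduct.inr τ, (relT _ _ _).2 fun i => ?_⟩
    change g (τ i) = θ (f r i)
    rw [← hτ i, θ.apply_symm_apply]
  · intro m
    let m' : {m : C → ℕ // ∑ c, m c = n} := ⟨fun c => m.1 (s c), by
      rw [Equiv.sum_comp s m.1]; exact m.2⟩
    obtain ⟨τ, hτ⟩ := exists_perm_of_content (fun i => s (f m i)) (f m') (fun c => by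
      rw [hf m' c]
      change _ = m.1 (s c)
      rw [← hf m (s c)]
      refine Fintype.card_congr (Equiv.subtypeEquivRight fun i => ?_)
      constructor
      · intro h
        rw [← h, hs2]
      · intro h
        rw [h, hs2])
    refine ⟨m', SemidirectProduct.inr τ, ?_, ?_⟩
    · intro a a' haa
      have h1 : a' = fun i => a (τ i) := by
        have h2 := congrArg SemidirectProduct.left haa
        have h3 : ((SemidirectProduct.inr τ : WWt K I)⁻¹ * (ansT K I).j a *
            (SemidirectProduct.inr τ : WWt K I)).left = fun i => a (τ i) := by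
          rw [← map_inv]
          funext i
          change ((1 : I → K) * (mulAutArrow (G := Perm I) (M := K) τ⁻¹ a : I → K) *
            (mulAutArrow (G := Perm I) (M := K) (τ⁻¹ * 1) (1 : I → K) : I → K) : I → K) i = a (τ i)
          rw [map_one, mul_one, one_mul]
          change a (τ⁻¹⁻¹ i) = a (τ i)
          rw [inv_inv]
        rw [h3] at h2
        exact h2
      have h4 : epsT η ((ansT K I).j a) = ∏ i, η (a i) := by
        change (∏ i, η (a i)) * Perm.sign (1 : Perm I) = _
        rw [map_one, mul_one]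
      rw [h4, h1]
      change ((∏ i, θ (f m' i) (a (τ i)) : ℂˣ) : ℂ) = _ * ((∏ i, θ (f m i) (a i) : ℂˣ) : ℂ)
      have h5 : (∏ i, θ (f m' i) (a (τ i)) : ℂˣ) = ∏ i, θ (s (f m i)) (a i) := by
        rw [← Equiv.prod_comp τ fun i => θ (s (f m i)) (a i)]
        refine Finset.prod_congr rfl fun i _ => ?_
        rw [hτ i]
      rw [h5]
      push_cast
      rw [← Finset.prod_mul_distrib]
      exact Finset.prod_congr rfl fun i _ => hs _ _
    · intro χ χ' hχ
      refine Sigma.ext rfl (heq_of_eq (Subtype.ext (funext fun c => ?_)))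
      change ((e m χ).1 (s c)).conj = (e m' χ').1 c
      rw [he m χ, he m' χ']
      symm
      refine labF_tw (f m) (f m') s hs2 τ hτ ⟨χ.1, χ.2.1⟩ ⟨χ'.1, χ'.2.1⟩ ?_ c
      intro ρ ρ' hρ
      have h1 := hχ (SemidirectProduct.inr ρ) (SemidirectProduct.inr ρ') (by
        have h2 : (pieceT θ θ.injective (f m')).inc (SemidirectProduct.inr ρ') =
            (SemidirectProduct.inr (fib (f m') ρ') : WWt K I) :=
          SemidirectProduct.ext rfl rfl
        have h3 : (pieceT θ θ.injective (f m)).inc (SemidirectProduct.inr ρ) =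
            (SemidirectProduct.inr (fib (f m) ρ) : WWt K I) :=
          SemidirectProduct.ext rfl rfl
        rw [h2, h3, hρ, map_mul, map_mul, map_inv])
      have h4 : (((pieceT θ θ.injective (f m')).lh (SemidirectProduct.inr ρ') : ℂˣ) : ℂ) = 1 := by
        have h5 : (pieceT θ θ.injective (f m')).lh (SemidirectProduct.inr ρ') = 1 := by
          change lhF (f m') θ (SemidirectProduct.inr ρ') = 1
          rw [lhF_apply]
          exact Finset.prod_eq_one fun i _ => map_one _
        rw [h5, Units.val_one]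
      have h6 : (((pieceT θ θ.injective (f m)).lh (SemidirectProduct.inr ρ) : ℂˣ) : ℂ) = 1 := by
        have h5 : (pieceT θ θ.injective (f m)).lh (SemidirectProduct.inr ρ) = 1 := by
          change lhF (f m) θ (SemidirectProduct.inr ρ) = 1
          rw [lhF_apply]
          exact Finset.prod_eq_one fun i _ => map_one _
        rw [h5, Units.val_one]
      have h7 : epsT η ((pieceT θ θ.injective (f m)).inc (SemidirectProduct.inr ρ)) =
          Perm.sign (fib (f m) ρ) := by
        change (∏ i : I, η 1) * Perm.sign (fib (f m) ρ) = _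
        rw [Finset.prod_eq_one fun i _ => map_one _, one_mul]
      rw [h4, h6, h7, one_mul, one_mul] at h1
      exact h1

end Pool.Agent.Helper24.LOC
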