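import Pool.Agent.Helper24.LOC.EMain
import Pool.Agent.Helper24.LOC.EInc
import Pool.Agent.Helper24.LOC.ESgn
import Pool.Agent.Helper24.LOC.ERel
import Pool.Agent.Helper24.LOC.TMain
import Pool.Agent.Helper24.LOC.BPerm

/-!
E08 Loc1: the linear characters of the local group (statement `loc_1` of `Helper81/AN/Iface.lean`, with `sgnL` unfolded).

PROOF. `p` is odd (`hmid`). `est` with `H = WW p w × Perm (Fin r)`, `f = MonoidHom.fst _ _` (so that the semidirect product is `LL p w r`),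
`zH = 1`, `ν = 1`, `ε = (epsT (chi2 p)).coprod Perm.sign`, `Q v = (Perm {i // ltv v i} × WWt (ZMod p)ˣ {i // ¬ ltv v i}) × Perm (Fin r)`,
`inc v = (incV _ (ltv v)).prodMap (MonoidHom.id _)`, `zQ v = 1`, `hrange` by `incV_range` (`StabV`), `hcard` by `card_QV`,
`L v = (Par v × LabW _ (w - v)) × Par r`; the labels of `Q v`: `lab_prod` twice with `lab_perm` (`card_ltv`), `lab_wreath` (with `θ` from
`exists_theta1`, `s = revC mid hmid`, `η = chi2 p`, `chi2_neg`, `ZMod.card_units`), `lab_perm` (or `lin_G`); `ε.comp (inc v)` is the coproduct of the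
signs by `epsT_incV` (use `lab_congr` with `MulEquiv.refl` to change `ε`). Then `lab_congr` with `MulEquiv.refl`, `sign_permL` and `relab1`.
-/

set_option autoImplicit false

open Equiv

namespace Pool.Agent.Helper24.LOC

open Pool.Agent.Helper42.INC Pool.Agent.Helper81.AN Pool.Agent.Helper41.SST

/-- the labels of one piece -/
private theorem lab_Q (p : ℕ) [Fact p.Prime] (h2 : p ≠ 2) (mid : Fin p)
    (hmid : 2 * (mid : ℕ) + 1 = p) (w r : ℕ) (v : Fin (w + 1)) :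
    Nonempty (Lab ((Perm {i : Fin w // ltv (v : ℕ) i} × WWt (ZMod p)ˣ {i : Fin w // ¬ ltv (v : ℕ) i}) ×
        Perm (Fin r))
      (((epsT (chi2 p)).coprod Perm.sign).comp
        ((incV (ZMod p)ˣ (ltv (v : ℕ))).prodMap (MonoidHom.id (Perm (Fin r))))) 1 1
      ((Par (v : ℕ) × LabW {i : Fin p // i ≠ mid} (w - v)) × Par r)
      (Prod.map (Prod.map Par.tw (LabW.tw (revC mid hmid))) Par.tw)
      (fun q => (q.1.1.dg * q.1.2.dg) * q.2.dg)) := by
  have hK : Nat.card (ZMod p)ˣ = p - 1 := by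
    rw [Nat.card_eq_fintype_card, ZMod.card_units]
  obtain ⟨θ, hθ⟩ := exists_theta1 (chi2 p) (chi2_neg p h2) hK mid hmid
  have hfin : Finite (WWt (ZMod p)ˣ {i : Fin w // ¬ ltv (v : ℕ) i}) :=
    Finite.of_equiv _ SemidirectProduct.equivProd.symm
  have a1 := lab_perm (α := {i : Fin w // ltv (v : ℕ) i}) (v : ℕ) (card_ltv v).1
  have a2 := lab_wreath (I := {i : Fin w // ¬ ltv (v : ℕ) i}) θ (chi2 p) (revC mid hmid) hθ
    (w - v) (card_ltv v).2
  have a3 := lab_perm (α := Fin r) r (Fintype.card_fin r)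
  have a4 := lab_prod _ _ _ _ _ _ _ _ (lab_prod _ _ _ _ _ _ _ _ a1 a2) a3
  refine lab_congr (MulEquiv.refl _) _ _ ?_ _ _ rfl 1 (Equiv.refl _)
    (Prod.map (Prod.map Par.tw (LabW.tw (revC mid hmid))) Par.tw)
    (Prod.map (Prod.map Par.tw (LabW.tw (revC mid hmid))) Par.tw) (fun _ => rfl)
    (fun q => (q.1.1.dg * q.1.2.dg) * q.2.dg) (fun q => (q.1.1.dg * q.1.2.dg) * q.2.dg)
    (fun _ => rfl) a4
  intro x
  change epsT (chi2 p) (incV (ZMod p)ˣ (ltv (v : ℕ)) x.1) * Perm.sign x.2 =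
    Perm.sign x.1.1 * epsT (chi2 p) x.1.2 * Perm.sign x.2
  rw [epsT_incV]

theorem loc_1 (p : ℕ) [Fact p.Prime] (mid : Fin p) (hmid : 2 * (mid : ℕ) + 1 = p) (w r : ℕ) :
    Nonempty (Lab (LL p w r) (Perm.sign.comp (permL p w r)) 1 1 (LabL p w r) LabL.tw (LabL.dg mid)) := by
  have h2 : p ≠ 2 := by omega
  have hfinW : Finite (WW p w) := Finite.of_equiv _ SemidirectProduct.equivProd.symm
  have hfinL : Finite (LL p w r) := Finite.of_equiv _ SemidirectProduct.equivProd.symm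
  have hfinT : ∀ v : Fin (w + 1), Finite (WWt (ZMod p)ˣ {i : Fin w // ¬ ltv (v : ℕ) i}) := fun v =>
    Finite.of_equiv _ SemidirectProduct.equivProd.symm
  have key := est p w (H := WW p w × Perm (Fin r)) (MonoidHom.fst (WW p w) (Perm (Fin r)))
    Prod.fst_surjective 1 (fun x => by rw [one_mul, mul_one]) rfl 1
    ((epsT (chi2 p)).coprod Perm.sign) (map_one _)
    (fun v => (Perm {i : Fin w // ltv (v : ℕ) i} × WWt (ZMod p)ˣ {i : Fin w // ¬ ltv (v : ℕ) i}) ×
        Perm (Fin r))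
    (fun v => (incV (ZMod p)ˣ (ltv (v : ℕ))).prodMap (MonoidHom.id (Perm (Fin r))))
    (fun v => ?_) (fun v x => ?_) (fun v => 1) (fun v => map_one _) (fun v => ?_)
    (fun v => (Par (v : ℕ) × LabW {i : Fin p // i ≠ mid} (w - v)) × Par r)
    (fun v => Prod.map (Prod.map Par.tw (LabW.tw (revC mid hmid))) Par.tw)
    (fun v q => (q.1.1.dg * q.1.2.dg) * q.2.dg) (fun v => lab_Q p h2 mid hmid w r v)
  · obtain ⟨E, hE1, hE2⟩ := relab1 p w r mid hmid
    refine lab_congr (MulEquiv.refl _) _ _ ?_ _ _ rfl 1 E _ _ hE1 _ _ hE2 key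
    intro x
    exact sign_permL p w r h2 x
  · exact (incV_inj (ZMod p)ˣ (ltv (v : ℕ))).prodMap Function.injective_id
  · have h3 := incV_range (ZMod p)ˣ (ltv (v : ℕ)) x.1
    change _ ↔ (∀ i : Fin w, (i : ℕ) < v ↔ ((x.1.right i : Fin w) : ℕ) < v) ∧
      ∀ i : Fin w, (i : ℕ) < v → x.1.left i = 1
    refine Iff.trans ?_ h3
    constructor
    · rintro ⟨y, rfl⟩
      exact ⟨y.1, rfl⟩
    · rintro ⟨y, hy⟩
      exact ⟨(y, x.2), Prod.ext hy rfl⟩
  · rw [Nat.card_prod, card_QV p w v, Nat.card_prod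
      (Perm {i : Fin w // ltv (v : ℕ) i} × WWt (ZMod p)ˣ {i : Fin w // ¬ ltv (v : ℕ) i})
      (Perm (Fin r)), mul_assoc]

end Pool.Agent.Helper24.LOC
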