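import Pool.Agent.Helper24.LOC.CDefs

/-!
B01 Prod: irreducible characters of finite products of groups.

PROOF. `irr_mul_prod`: as `irr_two` in `Helper7/MK/Two` (with `ψ x.2` instead of `ψ x.2⁻¹`): `IsChar.comp`, `IsChar.mul`, `IsChar.irr`, and
`B` of the product is the product of the `B`s (`Fintype.sum_prod_type`, `Finset.sum_mul_sum`). `prod_inj2`: if the products agree then
`B χ χ' * B ψ ψ' = 1`, so both are not `0`, and `B_irr_ne`. `prod_surj2`: counting `∑ deg^2` as in `prod_surjective` in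
`Helper7/MK/PiIrr` (`sum_deg_sq`, `deg_pos`).
`irr_pi`, `pi_inj`, `pi_surj`: the same for dependent products: copy `Helper7/MK/PiIrr` (there `H` is constant; the proofs work for a
family; for `IsChar` use products of pulled back characters: `IsChar.comp` with `Pi.evalMonoidHom` and a finite product by
`Finset.induction_on` with `IsChar.mul`, so no Kronecker products are needed).
-/

set_option autoImplicit false

namespace Pool.Agent.Helper24.LOC

open Pool.Agent.Helper42.INC Pool.Agent.Helper7.MK Pool.Agent.Helper81.AN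

private theorem surj_of_sum {G : Type} [Group G] [Finite G] {J : Type} [Fintype J] (P : J → Irr G)
    (hP : Function.Injective P) (hsum : ∑ j, (deg (P j).1) ^ 2 = Nat.card G) {η : G → ℂ}
    (hη : η ∈ Irr G) : ∃ j, (P j).1 = η := by
  classical
  have := Fintype.ofFinite (Irr G)
  have hall := sum_deg_sq (G := G)
  by_contra hcon
  push Not at hcon
  have hnot : (⟨η, hη⟩ : Irr G) ∉ Finset.univ.image P := by
    intro h
    obtain ⟨χ, _, hχ⟩ := Finset.mem_image.1 h
    exact hcon χ (congrArg Subtype.val hχ)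
  have h1 : ∑ j, (deg (P j).1) ^ 2 = ∑ ψ ∈ Finset.univ.image P, (deg ψ.1) ^ 2 := by
    rw [Finset.sum_image fun a _ b _ hab => hP hab]
  have h2 : ∑ ψ ∈ insert (⟨η, hη⟩ : Irr G) (Finset.univ.image P), (deg ψ.1) ^ 2 ≤
      ∑ ψ : Irr G, (deg ψ.1) ^ 2 :=
    Finset.sum_le_sum_of_subset (Finset.subset_univ _)
  rw [Finset.sum_insert hnot, ← h1, hsum, hall] at h2
  have h3 : 0 < (deg η) ^ 2 := pow_pos (deg_pos hη) 2
  simp only at h2
  omega

private theorem B_mul_prod {X Y : Type} [Group X] [Finite X] [Group Y] [Finite Y] (f f' : X → ℂ)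
    (g g' : Y → ℂ) : B (fun q : X × Y => f q.1 * g q.2) (fun q : X × Y => f' q.1 * g' q.2) =
      B f f' * B g g' := by
  have := Fintype.ofFinite X
  have := Fintype.ofFinite Y
  rw [B_eq, B_eq, B_eq, Fintype.sum_prod_type, Nat.card_prod]
  have h4 : ∑ a : X, ∑ b : Y, f (a, b).1 * g (a, b).2 *
      (f' ((a, b)⁻¹ : X × Y).1 * g' ((a, b)⁻¹ : X × Y).2) =
      (∑ a : X, f a * f' a⁻¹) * ∑ b : Y, g b * g' b⁻¹ := by
    rw [Finset.sum_mul_sum]
    refine Finset.sum_congr rfl fun a _ => Finset.sum_congr rfl fun b _ => ?_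
    change f a * g b * (f' a⁻¹ * g' b⁻¹) = f a * f' a⁻¹ * (g b * g' b⁻¹)
    ring
  rw [h4]
  push_cast
  rw [mul_inv]
  ring

theorem irr_mul_prod {X Y : Type} [Group X] [Finite X] [Group Y] [Finite Y] {χ : X → ℂ} {ψ : Y → ℂ}
    (hχ : χ ∈ Irr X) (hψ : ψ ∈ Irr Y) : (fun q : X × Y => χ q.1 * ψ q.2) ∈ Irr (X × Y) := by
  have h1 : IsChar (fun q : X × Y => χ q.1 * ψ q.2) :=
    ((IsChar.of_irr hχ).comp (MonoidHom.fst X Y)).mul
      ((IsChar.of_irr hψ).comp (MonoidHom.snd X Y))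
  apply h1.irr
  rw [B_mul_prod, B_irr_self hχ, B_irr_self hψ, one_mul]

theorem prod_inj2 {X Y : Type} [Group X] [Finite X] [Group Y] [Finite Y] {χ χ' : X → ℂ} {ψ ψ' : Y → ℂ}
    (hχ : χ ∈ Irr X) (hψ : ψ ∈ Irr Y) (hχ' : χ' ∈ Irr X) (hψ' : ψ' ∈ Irr Y)
    (h : ∀ x y, χ x * ψ y = χ' x * ψ' y) : χ = χ' ∧ ψ = ψ' := by
  have h1 : B χ χ' * B ψ ψ' = 1 := by
    rw [← B_mul_prod]
    have h2 : (fun q : X × Y => χ' q.1 * ψ' q.2) = fun q : X × Y => χ q.1 * ψ q.2 := by
      funext q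
      exact (h q.1 q.2).symm
    rw [h2]
    exact B_irr_self (irr_mul_prod hχ hψ)
  constructor
  · by_contra hne
    rw [B_irr_ne hχ hχ' hne, zero_mul] at h1
    exact zero_ne_one h1
  · by_contra hne
    rw [B_irr_ne hψ hψ' hne, mul_zero] at h1
    exact zero_ne_one h1

theorem prod_surj2 {X Y : Type} [Group X] [Finite X] [Group Y] [Finite Y] {η : X × Y → ℂ} (hη : η ∈ Irr (X × Y)) :
    ∃ χ ∈ Irr X, ∃ ψ ∈ Irr Y, η = fun q : X × Y => χ q.1 * ψ q.2 := by
  classical
  have := Fintype.ofFinite (Irr X)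
  have := Fintype.ofFinite (Irr Y)
  obtain ⟨j, hj⟩ := surj_of_sum (G := X × Y) (J := Irr X × Irr Y)
    (fun j => ⟨_, irr_mul_prod j.1.2 j.2.2⟩) (by
      intro j j' hjj
      have h1 := congrArg Subtype.val hjj
      obtain ⟨h2, h3⟩ := prod_inj2 j.1.2 j.2.2 j'.1.2 j'.2.2
        (fun x y => congrFun h1 (x, y))
      exact Prod.ext (Subtype.ext h2) (Subtype.ext h3)) (by
      have hdeg : ∀ j : Irr X × Irr Y, deg (fun q : X × Y => j.1.1 q.1 * j.2.1 q.2) =
          deg j.1.1 * deg j.2.1 := by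
        intro j
        apply deg_eq
        push_cast
        rw [deg_cast j.1.2, deg_cast j.2.2]
        rfl
      simp only [hdeg, mul_pow]
      rw [Fintype.sum_prod_type]
      have h5 := Finset.sum_mul_sum (Finset.univ : Finset (Irr X)) (Finset.univ : Finset (Irr Y))
        (fun χ => deg χ.1 ^ 2) (fun ψ => deg ψ.1 ^ 2)
      rw [sum_deg_sq, sum_deg_sq] at h5
      rw [Nat.card_prod, h5]) hη
  exact ⟨j.1.1, j.1.2, j.2.1, j.2.2, hj.symm⟩

private theorem B_pi {I : Type} [Fintype I] {Y : I → Type} [∀ i, Group (Y i)] [∀ i, Finite (Y i)]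
    (f g : ∀ i, Y i → ℂ) :
    B (fun x : ∀ i, Y i => ∏ i, f i (x i)) (fun x => ∏ i, g i (x i)) = ∏ i, B (f i) (g i) := by
  classical
  have := fun i => Fintype.ofFinite (Y i)
  rw [B_eq]
  simp_rw [B_eq]
  rw [Finset.prod_mul_distrib]
  congr 1
  · rw [Nat.card_pi, Nat.cast_prod, ← Finset.prod_inv_distrib]
  · rw [Finset.prod_univ_sum, Fintype.piFinset_univ]
    apply Finset.sum_congr rfl
    intro x _
    rw [← Finset.prod_mul_distrib]
    rfl

private theorem isChar_one (G : Type) [Group G] : IsChar (fun _ : G => (1 : ℂ)) := by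
  have h := isChar_matrix (n := Fin 1) (1 : G →* Matrix (Fin 1) (Fin 1) ℂ)
  have h2 : (fun g : G => ((1 : G →* Matrix (Fin 1) (Fin 1) ℂ) g).trace) = fun _ => 1 := by
    funext g
    simp
  rw [h2] at h
  exact h

private theorem isChar_pi {I : Type} [Fintype I] {Y : I → Type} [∀ i, Group (Y i)]
    (f : ∀ i, Y i → ℂ) (hf : ∀ i, IsChar (f i)) :
    IsChar (fun x : ∀ i, Y i => ∏ i, f i (x i)) := by
  classical
  have h : ∀ s : Finset I, IsChar (fun x : ∀ i, Y i => ∏ i ∈ s, f i (x i)) := by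
    intro s
    induction s using Finset.induction_on with
    | empty =>
      simp only [Finset.prod_empty]
      exact isChar_one _
    | insert a s ha ih =>
      simp only [Finset.prod_insert ha]
      exact ((hf a).comp (Pi.evalMonoidHom Y a)).mul ih
  exact h Finset.univ

theorem irr_pi {I : Type} [Fintype I] {Y : I → Type} [∀ i, Group (Y i)] [∀ i, Finite (Y i)]
    (χ : ∀ i, Irr (Y i)) : (fun x : ∀ i, Y i => ∏ i, (χ i).1 (x i)) ∈ Irr (∀ i, Y i) := by
  apply IsChar.irr (isChar_pi (fun i => (χ i).1) fun i => IsChar.of_irr (χ i).2)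
  rw [B_pi (fun i => (χ i).1) (fun i => (χ i).1)]
  exact Finset.prod_eq_one fun i _ => B_irr_self (χ i).2

theorem pi_inj {I : Type} [Fintype I] {Y : I → Type} [∀ i, Group (Y i)] [∀ i, Finite (Y i)]
    (χ χ' : ∀ i, Irr (Y i)) (h : ∀ x : ∀ i, Y i, ∏ i, (χ i).1 (x i) = ∏ i, (χ' i).1 (x i)) : χ = χ' := by
  classical
  have h1 : ∏ i, B (χ i).1 (χ' i).1 = 1 := by
    rw [← B_pi (fun i => (χ i).1) (fun i => (χ' i).1)]
    have h2 : (fun x : ∀ i, Y i => ∏ i, (χ' i).1 (x i)) =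
        fun x : ∀ i, Y i => ∏ i, (χ i).1 (x i) := by
      funext x
      exact (h x).symm
    rw [h2]
    exact B_irr_self (irr_pi χ)
  funext i
  by_contra hne
  have h3 : B (χ i).1 (χ' i).1 = 0 := B_irr_ne (χ i).2 (χ' i).2 fun h4 => hne (Subtype.ext h4)
  rw [Finset.prod_eq_zero (Finset.mem_univ i) h3] at h1
  exact zero_ne_one h1

theorem pi_surj {I : Type} [Fintype I] {Y : I → Type} [∀ i, Group (Y i)] [∀ i, Finite (Y i)]
    (η : (∀ i, Y i) → ℂ) (hη : η ∈ Irr (∀ i, Y i)) :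
    ∃ χ : ∀ i, Irr (Y i), ∀ x, η x = ∏ i, (χ i).1 (x i) := by
  classical
  have := fun i => Fintype.ofFinite (Irr (Y i))
  obtain ⟨j, hj⟩ := surj_of_sum (G := ∀ i, Y i) (J := ∀ i, Irr (Y i))
    (fun χ => ⟨_, irr_pi χ⟩) (by
      intro χ χ' hjj
      have h1 := congrArg Subtype.val hjj
      exact pi_inj χ χ' (fun x => congrFun h1 x)) (by
      have hdeg : ∀ χ : ∀ i, Irr (Y i), deg (fun x : ∀ i, Y i => ∏ i, (χ i).1 (x i)) =
          ∏ i, deg (χ i).1 := by
        intro χ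
        apply deg_eq
        push_cast
        exact Finset.prod_congr rfl fun i _ => (deg_cast (χ i).2).symm
      simp only [hdeg]
      calc ∑ χ : (∀ i, Irr (Y i)), (∏ i, deg (χ i).1) ^ 2
          = ∑ χ : (∀ i, Irr (Y i)), ∏ i, (deg (χ i).1) ^ 2 := by
            apply Finset.sum_congr rfl
            intro χ _
            rw [Finset.prod_pow]
        _ = ∏ i, ∑ ψ : Irr (Y i), (deg ψ.1) ^ 2 := by
            rw [Finset.prod_univ_sum, Fintype.piFinset_univ]
        _ = Nat.card (∀ i, Y i) := by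
            rw [Nat.card_pi]
            exact Finset.prod_congr rfl fun i _ => sum_deg_sq (G := Y i)) hη
  exact ⟨j, fun x => (congrFun hj x).symm⟩

end Pool.Agent.Helper24.LOC
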