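import Pool.Agent.Helper81.AN.Defs
import Pool.Agent.Helper7.MK.Char
import Pool.Agent.Helper42.INC.Clifford
import Pool.Agent.Helper42.INC.Inflate

/-!
# Project AN (MP_5ecade_al), local half: Clifford theory for an abelian normal subgroup, definitions

* `ANS X A`: an abelian normal subgroup of `X`, given by an injective homomorphism `j : A → X`.
* `D.Rel x lam mu`: the linear character `mu` is the conjugate of `lam` by `x`, `mu (x a x⁻¹) = lam a`.
* `D.occ mu χ`: (a multiple of) the multiplicity of `mu` in the restriction of `χ`.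
* `Piece D z ν lam G Q`: `G` is the stabilizer of `lam` (through `inc`), `lh` an extension of `lam` (on the part which is killed
  by `q`), `Q` the quotient; `z` is a central element of `X`.
-/

set_option autoImplicit false

namespace Pool.Agent.Helper24.LOC

open Pool.Agent.Helper42.INC Pool.Agent.Helper7.MK Pool.Agent.Helper81.AN

/-- an abelian normal subgroup, given by an injective homomorphism -/
structure ANS (X A : Type) [Group X] [CommGroup A] where
  j : A →* X
  inj : Function.Injective j
  norm : ∀ (x : X) (a : A), ∃ a' : A, j a' = x * j a * x⁻¹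

section

variable {X A : Type} [Group X] [CommGroup A] (D : ANS X A)

/-- `mu` is the conjugate of `lam` by `x` -/
def ANS.Rel (x : X) (lam mu : A →* ℂˣ) : Prop := ∀ a a' : A, D.j a' = x * D.j a * x⁻¹ → mu a' = lam a

/-- a multiple of the multiplicity of `mu` in `χ` -/
noncomputable def ANS.occ (mu : A →* ℂˣ) (χ : X → ℂ) : ℂ := ∑ᶠ a : A, (((mu a)⁻¹ : ℂˣ) : ℂ) * χ (D.j a)

/-- `G` is the stabilizer of `lam` -/
structure ANS.Stab (lam : A →* ℂˣ) (G : Type) [Group G] where
  inc : G →* X
  inj : Function.Injective inc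
  range : ∀ x : X, x ∈ inc.range ↔ D.Rel x lam lam

/-- `ψ` lies over `lam` -/
def ANS.Stab.Over {D : ANS X A} {lam : A →* ℂˣ} {G : Type} [Group G] (S : D.Stab lam G) (ψ : G → ℂ) : Prop :=
  ∀ (g : G) (a : A), S.inc g = D.j a → ψ g = ((lam a : ℂˣ) : ℂ) * ψ 1

/-- stabilizer, extension and quotient -/
structure Piece (z : X) (ν : ℂ) (lam : A →* ℂˣ) (G Q : Type) [Group G] [Group Q] extends D.Stab lam G where
  q : G →* Q
  surj : Function.Surjective q
  lh : G →* ℂˣ
  gz : G
  inc_gz : inc gz = z
  lh_gz : lh gz = 1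
  hA : ∀ (g : G) (a : A), inc g = D.j a →
    (q g = 1 ∧ lh g = lam a) ∨ (q g = q gz ∧ ((lam a : ℂˣ) : ℂ) = ν * ((lh g : ℂˣ) : ℂ))
  hker : ∀ g : G, q g = 1 → ∃ a : A, inc g = D.j a ∧ lh g = lam a

end

end Pool.Agent.Helper24.LOC
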