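import Pool.Agent.Helper24.LOC.CRel

/-!
C02 Ind: the Clifford correspondence for an abelian normal subgroup.

PROOF. For a function `f` on `X` put `P f x = |A|⁻¹ ∑_a lam(a)⁻¹ f(j a * x)`; write `I ψ = indHom S.inc ψ`.
(1) KEY FORMULA: for `g : G` and `ψ` irreducible over `lam`: `|A|⁻¹ ∑_a lam(a)⁻¹ (I ψ)(j a * inc g) = ψ g`. First
`ψ (h * g) = lam(a) ψ(g)` if `inc h = j a` (central character: `j a` is central in `G` modulo `lam`... directly: if `ρ` affords `ψ`
then `ρ(h)` is the scalar `lam(a)`, because `h` commutes with `g` up to an element on which `lam` is trivial; or: the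
idempotent `e = |A|⁻¹ ∑ lam(a)⁻¹ ρ(h_a)` commutes with `ρ(G)` (`lam` is `G`-invariant), so it is `0` or `1` by Schur, its trace is
`ψ(1)`, so it is `1`; this is the argument of `schur_sum` in `Helper81/AN/SumSq`). Here `inc h = j a` has a solution for
every `a` because `j a` stabilizes `lam` (`A` is abelian: `S.range`). Now by `indHom_eq`
`(I ψ)(y) = |G|⁻¹ ∑_x ψ°(x⁻¹ y x)`, `ψ°` the extension by `0`, `ψ°(j a' * y) = lam(a') ψ°(y)` for ALL `y`. With `a^x` defined by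
`j (a^x) = x⁻¹ (j a) x`: the sum is `|G|⁻¹ ∑_x (|A|⁻¹ ∑_a lam(a)⁻¹ lam(a^x)) ψ°(x⁻¹ (inc g) x)`, the inner sum is `1` if
`x` stabilizes `lam` and `0` otherwise (orthogonality, `sum_hom_units`), i.e. the sum is over `x = inc g'`, and
`ψ(g'⁻¹ g g') = ψ(g)`. In the same way for `mu` not conjugate to `lam` the sum with `mu` is `0`.
(2) `ind_irr`: `irr_of_norm_one` with `indHom_isClass`; `B (I ψ) χ = B ψ (χ ∘ inc)` is a natural number (`B_indHom`,
`IsChar.nat`, `IsChar.comp`, `IsChar.of_irr`), and `B (I ψ) (I ψ) = B ψ ((I ψ) ∘ inc) = B ψ ψ = 1`: replace `ψ(g)` by its average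
`|A|⁻¹ ∑_a lam(a) ψ(h_a⁻¹ g)` and use (1).
(3) `ind_inj`: (1). (4) `occ_ind`: (1) at `g = 1` for `mu = lam` gives `occ ≠ 0`; for conjugates `mu` use that `I ψ` is a class function
(`D.occ mu f = D.occ lam f` if `Rel x lam mu`); otherwise the sum is `0`.
(5) `exists_ind`: the class function `F g = |A|⁻¹ ∑_a lam(a)⁻¹ χ(j a * inc g)` on `G` is not `0` at `1`, so `B F ψ ≠ 0` for some
`ψ ∈ Irr G` (`complete`); as `F (h_a g) = lam(a) F(g)`, `ψ` lies over `lam` (compare `B (F) ψ` with the translates: Schur as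
in (1): the trace of `e` is not `0`, so `e = 1`), and then `B (I ψ) χ = B ψ (χ ∘ inc) = B ψ F ≠ 0`, so `χ = I ψ` (`B_irr_ne`).
-/

set_option autoImplicit false
set_option linter.unusedSectionVars false

namespace Pool.Agent.Helper24.LOC

open Pool.Agent.Helper42.INC Pool.Agent.Helper7.MK Pool.Agent.Helper81.AN

variable {X A : Type} [Group X] [CommGroup A] [Finite X] [Finite A] {D : ANS X A} {lam : A →* ℂˣ} {G : Type} [Group G]
  [Finite G] (S : D.Stab lam G)

private theorem rel_j (D : ANS X A) (lam : A →* ℂˣ) (a : A) : D.Rel (D.j a) lam lam := by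
  intro b b' h
  have h1 : D.j b' = D.j b := by rw [h, ← map_inv, ← map_mul, ← map_mul, mul_inv_cancel_comm]
  rw [D.inj h1]

private theorem exists_conj (D : ANS X A) (x : X) : ∃ c : A ≃* A, ∀ a, D.j (c a) = x * D.j a * x⁻¹ := by
  choose f hf using D.norm x
  choose f' hf' using D.norm x⁻¹
  refine ⟨{ toFun := f
            invFun := f'
            left_inv := fun a => D.inj ?_
            right_inv := fun a => D.inj ?_
            map_mul' := fun a b => D.inj ?_ }, hf⟩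
  · rw [hf', hf]
    group
  · rw [hf, hf']
    group
  · rw [hf, map_mul, map_mul, hf, hf]
    group

private theorem exists_hA : ∃ hA : A →* G, ∀ a, S.inc (hA a) = D.j a := by
  have h1 : ∀ a, ∃ g, S.inc g = D.j a := fun a => (S.range (D.j a)).2 (rel_j D lam a)
  choose f hf using h1
  exact ⟨{ toFun := f
           map_one' := S.inj (by rw [hf, map_one, map_one])
           map_mul' := fun a b => S.inj (by rw [hf, map_mul, map_mul, hf, hf]) }, hf⟩

private theorem stab_conj {hA : A →* G} (hA' : ∀ a, S.inc (hA a) = D.j a) (g : G) :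
    ∃ c : A ≃* A, (∀ a, lam (c a) = lam a) ∧ ∀ a, hA (c a) = g * hA a * g⁻¹ := by
  obtain ⟨c, hc⟩ := exists_conj D (S.inc g)
  refine ⟨c, fun a => (S.range (S.inc g)).1 ⟨g, rfl⟩ a (c a) (hc a), fun a => S.inj ?_⟩
  rw [hA', hc, map_mul, map_mul, map_inv, hA']

private theorem inv_mul_coe (u : ℂˣ) : ((u⁻¹ : ℂˣ) : ℂ) * (u : ℂ) = 1 := by
  rw [← Units.val_mul, inv_mul_cancel, Units.val_one]

private theorem schur_dich [Fintype A] {hA : A →* G} (hA' : ∀ a, S.inc (hA a) = D.j a) {ψ : G → ℂ}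
    (hψ : ψ ∈ Irr G) : (∀ a g, ψ (hA a * g) = ((lam a : ℂˣ) : ℂ) * ψ g) ∨
      (∀ g, ∑ a, (((lam a)⁻¹ : ℂˣ) : ℂ) * ψ (hA a * g) = 0) := by
  obtain ⟨V, _, _, _, ρ, hρ, rfl⟩ := hψ
  set P : V →ₗ[ℂ] V := ∑ a : A, (((lam a)⁻¹ : ℂˣ) : ℂ) • ρ (hA a) with hP
  have hcomm : ∀ g : G, P * ρ g = ρ g * P := by
    intro g
    obtain ⟨c, hcl, hcg⟩ := stab_conj S hA' g
    rw [hP, Finset.sum_mul, Finset.mul_sum, ← Equiv.sum_comp c.toEquiv]
    refine Finset.sum_congr rfl fun a _ => ?_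
    change ((((lam (c a))⁻¹ : ℂˣ) : ℂ) • ρ (hA (c a))) * ρ g = _
    rw [hcl, hcg, smul_mul_assoc, mul_smul_comm, ← map_mul, ← map_mul]
    congr 2
    group
  have hlam : ∀ a0 : A, ρ (hA a0) * P = ((lam a0 : ℂˣ) : ℂ) • P := by
    intro a0
    rw [hP, Finset.mul_sum, Finset.smul_sum, ← Equiv.sum_comp (Equiv.mulRight a0)
      (fun a => ((lam a0 : ℂˣ) : ℂ) • (((lam a)⁻¹ : ℂˣ) : ℂ) • ρ (hA a))]
    refine Finset.sum_congr rfl fun a _ => ?_
    change ρ (hA a0) * ((((lam a)⁻¹ : ℂˣ) : ℂ) • ρ (hA a)) =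
      ((lam a0 : ℂˣ) : ℂ) • (((lam (a * a0))⁻¹ : ℂˣ) : ℂ) • ρ (hA (a * a0))
    rw [mul_comm a a0, map_mul lam, map_mul hA, mul_smul_comm, ← map_mul ρ, smul_smul, mul_inv_rev,
      mul_comm (lam a)⁻¹, ← Units.val_mul, mul_inv_cancel_left]
  let F : Representation.IntertwiningMap ρ ρ := ⟨P, fun g => hcomm g⟩
  obtain ⟨s, hs⟩ :=
    (Representation.IsIrreducible.algebraMap_intertwiningMap_bijective_of_isAlgClosed
      (ρ := ρ)).2 F
  have hPs : P = s • LinearMap.id := by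
    have : F.toLinearMap = s • LinearMap.id := by
      rw [← hs]; rfl
    exact this
  by_cases h0 : s = 0
  · right
    intro g
    have htr : LinearMap.trace ℂ V (P * ρ g) = ∑ a, (((lam a)⁻¹ : ℂˣ) : ℂ) * ρ.character (hA a * g) := by
      rw [hP, Finset.sum_mul, map_sum]
      refine Finset.sum_congr rfl fun a _ => ?_
      rw [smul_mul_assoc, map_smul, smul_eq_mul, ← map_mul]
      rfl
    rw [← htr, hPs, h0, zero_smul, zero_mul, map_zero]
  · left
    intro a0 g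
    have h1 := hlam a0
    rw [hPs, mul_smul_comm, smul_comm] at h1
    have h2 : ρ (hA a0) * LinearMap.id = ((lam a0 : ℂˣ) : ℂ) • LinearMap.id := by
      have h3 := congrArg (fun t : V →ₗ[ℂ] V => s⁻¹ • t) h1
      simp only [smul_smul, inv_mul_cancel₀ h0, one_smul, inv_mul_cancel_left₀ h0] at h3
      exact h3
    have h3 : ρ (hA a0) = ((lam a0 : ℂˣ) : ℂ) • (LinearMap.id : V →ₗ[ℂ] V) := h2
    change LinearMap.trace ℂ V (ρ (hA a0 * g)) = _ * LinearMap.trace ℂ V (ρ g)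
    rw [map_mul, h3, smul_mul_assoc, map_smul, smul_eq_mul]
    rfl

private theorem over_mul [Fintype A] {hA : A →* G} (hA' : ∀ a, S.inc (hA a) = D.j a) {ψ : G → ℂ}
    (hψ : ψ ∈ Irr G) (ho : S.Over ψ) (a : A) (g : G) :
    ψ (hA a * g) = ((lam a : ℂˣ) : ℂ) * ψ g := by
  rcases schur_dich S hA' hψ with h | h
  · exact h a g
  · exfalso
    have h1 := h 1
    have h2 : ∀ a : A, (((lam a)⁻¹ : ℂˣ) : ℂ) * ψ (hA a * 1) = ψ 1 := by
      intro a
      rw [mul_one, ho (hA a) a (hA' a), ← mul_assoc, inv_mul_coe, one_mul]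
    rw [Finset.sum_congr rfl fun a _ => h2 a, Finset.sum_const, nsmul_eq_mul, Finset.card_univ] at h1
    obtain ⟨n, hn0, hn⟩ := irr_one hψ
    rw [hn] at h1
    have h3 : Fintype.card A * n = 0 := by exact_mod_cast h1
    have h4 : 0 < Fintype.card A := Fintype.card_pos
    rcases Nat.mul_eq_zero.1 h3 with h5 | h5 <;> omega

private theorem orth_hom [Fintype A] (u v : A →* ℂˣ) [Decidable (u = v)] :
    ∑ a, (((v a)⁻¹ : ℂˣ) : ℂ) * ((u a : ℂˣ) : ℂ) = if u = v then (Nat.card A : ℂ) else 0 := by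
  classical
  have h1 : ∀ a, (((v a)⁻¹ : ℂˣ) : ℂ) * ((u a : ℂˣ) : ℂ) = ((Units.coeHom ℂ).comp (v⁻¹ * u)) a := by
    intro a
    simp
  rw [Finset.sum_congr rfl (fun a _ => h1 a), sum_hom_units]
  by_cases h : u = v
  · subst h
    rw [if_pos, if_pos rfl, Nat.card_eq_fintype_card]
    ext a; simp
  · rw [if_neg, if_neg h]
    · simp
    · intro he
      apply h
      refine MonoidHom.ext fun a => ?_
      have h3 : (((v a)⁻¹ : ℂˣ) : ℂ) * ((u a : ℂˣ) : ℂ) = 1 := by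
        rw [h1, he]; rfl
      have h4 : (v a)⁻¹ * u a = 1 := by
        apply Units.ext
        rw [Units.val_mul, h3, Units.val_one]
      exact (inv_mul_eq_one.1 h4).symm

open Classical in
private theorem key [Fintype A] [Fintype G] [Fintype X] {hA : A →* G} (hA' : ∀ a, S.inc (hA a) = D.j a)
    {ψ : G → ℂ} (h1 : ∀ a g, ψ (hA a * g) = ((lam a : ℂˣ) : ℂ) * ψ g) (mu : A →* ℂˣ) (y : X) :
    ∑ a, (((mu a)⁻¹ : ℂˣ) : ℂ) * indHom S.inc ψ (D.j a * y) = (Nat.card G : ℂ)⁻¹ * ((Nat.card A : ℂ) *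
      ∑ x : X, if D.Rel x lam mu then (∑ γ : G, if S.inc γ = x⁻¹ * y * x then ψ γ else 0) else 0) := by
  have hc : ∀ x : X, ∃ c : A ≃* A, ∀ a, D.j (c a) = x⁻¹ * D.j a * x := by
    intro x
    obtain ⟨c, hc⟩ := exists_conj D x⁻¹
    exact ⟨c, fun a => by rw [hc, inv_inv]⟩
  choose c hc using hc
  have h2 : ∀ a, indHom S.inc ψ (D.j a * y) = (Nat.card G : ℂ)⁻¹ * ∑ x : X,
      ((lam (c x a) : ℂˣ) : ℂ) * ∑ γ : G, if S.inc γ = x⁻¹ * y * x then ψ γ else 0 := by
    intro a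
    rw [indHom_eq]
    congr 1
    refine Finset.sum_congr rfl fun x _ => ?_
    rw [Finset.mul_sum, ← Equiv.sum_comp (Equiv.mulLeft (hA (c x a)))
      (fun γ => if S.inc γ = x⁻¹ * (D.j a * y) * x then ψ γ else 0)]
    refine Finset.sum_congr rfl fun γ _ => ?_
    rw [Equiv.coe_mulLeft, map_mul, hA', hc, h1]
    have e : (x⁻¹ * D.j a * x * S.inc γ = x⁻¹ * (D.j a * y) * x) ↔ (S.inc γ = x⁻¹ * y * x) := by
      have e1 : x⁻¹ * (D.j a * y) * x = x⁻¹ * D.j a * x * (x⁻¹ * y * x) := by group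
      rw [e1]
      exact mul_right_inj _
    by_cases hh : S.inc γ = x⁻¹ * y * x
    · rw [if_pos (e.2 hh), if_pos hh]
    · rw [if_neg (fun h => hh (e.1 h)), if_neg hh, mul_zero]
  have h3 : ∀ x : X, ∑ a, (((mu a)⁻¹ : ℂˣ) : ℂ) * ((lam (c x a) : ℂˣ) : ℂ) =
      if D.Rel x lam mu then (Nat.card A : ℂ) else 0 := by
    intro x
    have h4 := orth_hom (lam.comp (c x).toMonoidHom) mu
    have h5 : (lam.comp (c x).toMonoidHom = mu) ↔ D.Rel x lam mu := by
      constructor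
      · intro he a a' ha
        have h6 : c x a' = a := D.inj (by rw [hc, ha]; group)
        rw [← he]
        change lam (c x a') = lam a
        rw [h6]
      · intro hr
        refine MonoidHom.ext fun a => ?_
        change lam (c x a) = mu a
        exact (hr (c x a) a (by rw [hc]; group)).symm
    have h7 : ∑ a, (((mu a)⁻¹ : ℂˣ) : ℂ) * ((lam (c x a) : ℂˣ) : ℂ) =
      ∑ a, (((mu a)⁻¹ : ℂˣ) : ℂ) * (((lam.comp (c x).toMonoidHom) a : ℂˣ) : ℂ) := rfl
    rw [h7, h4]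
    by_cases hh : D.Rel x lam mu
    · rw [if_pos (h5.2 hh), if_pos hh]
    · rw [if_neg (fun h => hh (h5.1 h)), if_neg hh]
  have h8 : ∑ a, (((mu a)⁻¹ : ℂˣ) : ℂ) * indHom S.inc ψ (D.j a * y) =
      (Nat.card G : ℂ)⁻¹ * ∑ x : X, (∑ a, (((mu a)⁻¹ : ℂˣ) : ℂ) * ((lam (c x a) : ℂˣ) : ℂ)) *
        ∑ γ : G, if S.inc γ = x⁻¹ * y * x then ψ γ else 0 := by
    rw [Finset.sum_congr rfl fun a _ => by rw [h2 a]]
    rw [Finset.sum_congr rfl fun x (_ : x ∈ Finset.univ) => Finset.sum_mul _ _ _, Finset.sum_comm,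
      Finset.mul_sum]
    refine Finset.sum_congr rfl fun a _ => ?_
    rw [Finset.mul_sum, Finset.mul_sum, Finset.mul_sum]
    refine Finset.sum_congr rfl fun x _ => ?_
    ring
  rw [h8]
  congr 1
  rw [Finset.mul_sum]
  refine Finset.sum_congr rfl fun x _ => ?_
  rw [h3]
  by_cases hh : D.Rel x lam mu
  · rw [if_pos hh, if_pos hh]
  · rw [if_neg hh, if_neg hh, zero_mul, mul_zero]

private theorem key_lam [Fintype A] {hA : A →* G} (hA' : ∀ a, S.inc (hA a) = D.j a)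
    {ψ : G → ℂ} (hc : IsClass ψ) (h1 : ∀ a g, ψ (hA a * g) = ((lam a : ℂˣ) : ℂ) * ψ g) (g : G) :
    ∑ a, (((lam a)⁻¹ : ℂˣ) : ℂ) * indHom S.inc ψ (D.j a * S.inc g) = (Nat.card A : ℂ) * ψ g := by
  classical
  have := Fintype.ofFinite G
  have := Fintype.ofFinite X
  rw [key S hA' h1]
  have h2 : ∑ x : X, (if D.Rel x lam lam then
      (∑ γ : G, if S.inc γ = x⁻¹ * S.inc g * x then ψ γ else 0) else 0) =
      ∑ x : X, (if x ∈ S.inc.range then
        (∑ γ : G, if S.inc γ = x⁻¹ * S.inc g * x then ψ γ else 0) else 0) := by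
    refine Finset.sum_congr rfl fun x _ => ?_
    by_cases hh : D.Rel x lam lam
    · rw [if_pos hh, if_pos ((S.range x).2 hh)]
    · rw [if_neg hh, if_neg (fun h => hh ((S.range x).1 h))]
  have h3 := sum_hom S.inc (fun x => ∑ γ : G, if S.inc γ = x⁻¹ * S.inc g * x then ψ γ else 0)
  have hk : Nat.card S.inc.ker = 1 := by
    rw [(MonoidHom.ker_eq_bot_iff S.inc).2 S.inj]
    exact Subgroup.card_bot
  rw [hk, Nat.cast_one, one_mul] at h3
  rw [h2, ← h3]
  have h4 : ∀ y : G, (∑ γ : G, if S.inc γ = (S.inc y)⁻¹ * S.inc g * S.inc y then ψ γ else 0) = ψ g := by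
    intro y
    rw [Finset.sum_eq_single (y⁻¹ * g * y)]
    · rw [if_pos (by rw [map_mul, map_mul, map_inv])]
      have := hc y⁻¹ g
      rw [inv_inv] at this
      exact this
    · intro γ _ hγ
      rw [if_neg]
      intro he
      apply hγ
      apply S.inj
      rw [he, map_mul, map_mul, map_inv]
    · intro h
      exact absurd (Finset.mem_univ _) h
  rw [Finset.sum_congr rfl fun y _ => h4 y, Finset.sum_const, nsmul_eq_mul, Finset.card_univ,
    ← Nat.card_eq_fintype_card]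
  have hG : (Nat.card G : ℂ) ≠ 0 := by exact_mod_cast Nat.card_pos.ne'
  field_simp

private theorem B_avg [Fintype A] {hA : A →* G} (hA' : ∀ a, S.inc (hA a) = D.j a)
    {ψ : G → ℂ} (hc : IsClass ψ) (h1 : ∀ a g, ψ (hA a * g) = ((lam a : ℂˣ) : ℂ) * ψ g) (χ : X → ℂ) :
    (Nat.card A : ℂ) * B ψ (fun g => χ (S.inc g)) =
      B ψ (fun g => ∑ a, (((lam a)⁻¹ : ℂˣ) : ℂ) * χ (D.j a * S.inc g)) := by
  classical
  have := Fintype.ofFinite G
  have h2 : ∀ a : A, B ψ (fun g => χ (S.inc g)) =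
      (Nat.card G : ℂ)⁻¹ * ∑ g, ψ g * ((((lam a)⁻¹ : ℂˣ) : ℂ) * χ (D.j a * S.inc g⁻¹)) := by
    intro a
    rw [B_eq]
    congr 1
    rw [← Equiv.sum_comp (Equiv.mulRight (hA a)⁻¹)]
    refine Finset.sum_congr rfl fun g _ => ?_
    rw [Equiv.coe_mulRight]
    have e1 : ψ (g * (hA a)⁻¹) = (((lam a)⁻¹ : ℂˣ) : ℂ) * ψ g := by
      have e2 := hc (hA a)⁻¹ (g * (hA a)⁻¹)
      rw [← e2]
      have e3 : (hA a)⁻¹ * (g * (hA a)⁻¹) * (hA a)⁻¹⁻¹ = hA a⁻¹ * g := by
        rw [map_inv]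
        group
      rw [e3, h1, map_inv]
    have e4 : S.inc (g * (hA a)⁻¹)⁻¹ = D.j a * S.inc g⁻¹ := by
      rw [mul_inv_rev, inv_inv, map_mul, hA']
    rw [e1, e4]
    ring
  have h3 : (Nat.card A : ℂ) * B ψ (fun g => χ (S.inc g)) =
      ∑ a : A, B ψ (fun g => χ (S.inc g)) := by
    rw [Finset.sum_const, nsmul_eq_mul, Finset.card_univ, ← Nat.card_eq_fintype_card]
  rw [h3, Finset.sum_congr rfl fun a _ => h2 a, ← Finset.mul_sum, Finset.sum_comm, B_eq]
  congr 1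
  refine Finset.sum_congr rfl fun g _ => ?_
  rw [Finset.mul_sum]

theorem ind_irr {ψ : G → ℂ} (hψ : ψ ∈ Irr G) (ho : S.Over ψ) : indHom S.inc ψ ∈ Irr X := by
  classical
  have := Fintype.ofFinite A
  obtain ⟨hA, hA'⟩ := exists_hA S
  have h1 := over_mul S hA' hψ ho
  have hc := Irr.isClass hψ
  apply irr_of_norm_one _ (indHom_isClass _ _)
  · intro χ hχ
    rw [B_indHom _ _ (Irr.isClass hχ)]
    exact (IsChar.of_irr hψ).nat ((IsChar.of_irr hχ).comp S.inc)
  · rw [B_indHom _ _ (indHom_isClass _ _)]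
    have h2 := B_avg S hA' hc h1 (indHom S.inc ψ)
    rw [show (fun g => ∑ a, (((lam a)⁻¹ : ℂˣ) : ℂ) * indHom S.inc ψ (D.j a * S.inc g)) =
      (Nat.card A : ℂ) • ψ from funext fun g => key_lam S hA' hc h1 g, B_symm, B_symm ψ,
      B_smul_left, B_irr_self hψ, B_symm] at h2
    have hA0 : (Nat.card A : ℂ) ≠ 0 := by exact_mod_cast Nat.card_pos.ne'
    exact mul_left_cancel₀ hA0 h2

theorem ind_inj {ψ ψ' : G → ℂ} (hψ : ψ ∈ Irr G) (ho : S.Over ψ) (hψ' : ψ' ∈ Irr G) (ho' : S.Over ψ')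
    (h : indHom S.inc ψ = indHom S.inc ψ') : ψ = ψ' := by
  have := Fintype.ofFinite A
  obtain ⟨hA, hA'⟩ := exists_hA S
  funext g
  have h1 := key_lam S hA' (Irr.isClass hψ) (over_mul S hA' hψ ho) g
  have h2 := key_lam S hA' (Irr.isClass hψ') (over_mul S hA' hψ' ho') g
  rw [h, h2] at h1
  have hA0 : (Nat.card A : ℂ) ≠ 0 := by exact_mod_cast Nat.card_pos.ne'
  exact (mul_left_cancel₀ hA0 h1).symm

theorem occ_ind {ψ : G → ℂ} (hψ : ψ ∈ Irr G) (ho : S.Over ψ) (mu : A →* ℂˣ) :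
    D.occ mu (indHom S.inc ψ) ≠ 0 ↔ ∃ x, D.Rel x lam mu := by
  classical
  have := Fintype.ofFinite A
  have := Fintype.ofFinite G
  have := Fintype.ofFinite X
  obtain ⟨hA, hA'⟩ := exists_hA S
  have h1 := key S hA' (over_mul S hA' hψ ho) mu 1
  have h2 : D.occ mu (indHom S.inc ψ) =
      ∑ a, (((mu a)⁻¹ : ℂˣ) : ℂ) * indHom S.inc ψ (D.j a * 1) := by
    unfold ANS.occ
    rw [finsum_eq_sum_of_fintype]
    exact Finset.sum_congr rfl fun a _ => by rw [mul_one]
  have h3 : ∀ x : X, (∑ γ : G, if S.inc γ = x⁻¹ * 1 * x then ψ γ else 0) = ψ 1 := by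
    intro x
    rw [Finset.sum_eq_single 1]
    · rw [if_pos (by rw [map_one]; group)]
    · intro γ _ hγ
      rw [if_neg]
      intro he
      apply hγ
      apply S.inj
      rw [he, map_one]
      group
    · intro h
      exact absurd (Finset.mem_univ _) h
  obtain ⟨n, hn0, hn⟩ := irr_one hψ
  have hψ1 : ψ 1 ≠ 0 := by
    rw [hn]
    exact_mod_cast hn0.ne'
  have hA0 : (Nat.card A : ℂ) ≠ 0 := by exact_mod_cast Nat.card_pos.ne'
  have hG0 : (Nat.card G : ℂ) ≠ 0 := by exact_mod_cast Nat.card_pos.ne'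
  have h4 : ∑ x : X, (if D.Rel x lam mu then
      (∑ γ : G, if S.inc γ = x⁻¹ * 1 * x then ψ γ else 0) else 0) =
      ((Finset.univ.filter fun x : X => D.Rel x lam mu).card : ℂ) * ψ 1 := by
    rw [← Finset.sum_filter, Finset.sum_congr rfl fun x _ => h3 x, Finset.sum_const, nsmul_eq_mul]
  rw [h2, h1, h4]
  constructor
  · intro h
    by_contra hcon
    apply h
    have h5 : (Finset.univ.filter fun x : X => D.Rel x lam mu) = ∅ := by
      rw [Finset.filter_eq_empty_iff]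
      intro x _ hx
      exact hcon ⟨x, hx⟩
    rw [h5, Finset.card_empty, Nat.cast_zero, zero_mul, mul_zero, mul_zero]
  · rintro ⟨x, hx⟩
    have h5 : 0 < (Finset.univ.filter fun x : X => D.Rel x lam mu).card :=
      Finset.card_pos.2 ⟨x, Finset.mem_filter.2 ⟨Finset.mem_univ _, hx⟩⟩
    have h6 : ((Finset.univ.filter fun x : X => D.Rel x lam mu).card : ℂ) ≠ 0 := by
      exact_mod_cast h5.ne'
    exact mul_ne_zero (inv_ne_zero hG0) (mul_ne_zero hA0 (mul_ne_zero h6 hψ1))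

theorem exists_ind {χ : X → ℂ} (hχ : χ ∈ Irr X) (h : D.occ lam χ ≠ 0) :
    ∃ ψ ∈ Irr G, S.Over ψ ∧ χ = indHom S.inc ψ := by
  classical
  have := Fintype.ofFinite A
  have := Fintype.ofFinite G
  obtain ⟨hA, hA'⟩ := exists_hA S
  have hχc := Irr.isClass hχ
  set f : G → ℂ := fun g => ∑ a, (((lam a)⁻¹ : ℂˣ) : ℂ) * χ (D.j a * S.inc g) with hf
  have hf1 : f 1 ≠ 0 := by
    have e : f 1 = D.occ lam χ := by
      simp only [hf]
      unfold ANS.occ
      rw [finsum_eq_sum_of_fintype]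
      exact Finset.sum_congr rfl fun a _ => by rw [map_one, mul_one]
    rw [e]
    exact h
  have hfc : IsClass f := by
    intro g x
    simp only [hf]
    obtain ⟨c, hcl, hcg⟩ := stab_conj S hA' g
    rw [← Equiv.sum_comp c.toEquiv]
    refine Finset.sum_congr rfl fun a _ => ?_
    change (((lam (c a))⁻¹ : ℂˣ) : ℂ) * χ (D.j (c a) * S.inc (g * x * g⁻¹)) = _
    rw [hcl]
    congr 1
    rw [← hA' (c a), hcg, ← hA' a]
    have e : S.inc (g * hA a * g⁻¹) * S.inc (g * x * g⁻¹) =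
        S.inc g * (S.inc (hA a) * S.inc x) * (S.inc g)⁻¹ := by
      simp only [map_mul, map_inv]
      group
    rw [e, hχc]
  have hfm : ∀ a g, f (hA a * g) = ((lam a : ℂˣ) : ℂ) * f g := by
    intro a g
    simp only [hf]
    rw [Finset.mul_sum, ← Equiv.sum_comp (Equiv.mulRight a)
      (fun b => ((lam a : ℂˣ) : ℂ) * ((((lam b)⁻¹ : ℂˣ) : ℂ) * χ (D.j b * S.inc g)))]
    refine Finset.sum_congr rfl fun b _ => ?_
    rw [Equiv.coe_mulRight, map_mul, map_mul, map_mul, hA', mul_inv_rev, ← mul_assoc, ← mul_assoc,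
      ← Units.val_mul, mul_inv_cancel_left]
  obtain ⟨ψ, hψ, hB⟩ : ∃ ψ ∈ Irr G, B f ψ ≠ 0 := by
    by_contra hcon
    push Not at hcon
    have h0 := complete f hfc hcon
    rw [h0] at hf1
    exact hf1 rfl
  have hψc := Irr.isClass hψ
  have h1 : ∀ a g, ψ (hA a * g) = ((lam a : ℂˣ) : ℂ) * ψ g := by
    rcases schur_dich S hA' hψ with h1 | h1
    · exact h1
    · exfalso
      apply hB
      have h2 : ∀ a : A, B f ψ =
          (Nat.card G : ℂ)⁻¹ * ∑ g, f g * ((((lam a)⁻¹ : ℂˣ) : ℂ) * ψ (hA a * g⁻¹)) := by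
        intro a
        rw [B_eq]
        congr 1
        rw [← Equiv.sum_comp (Equiv.mulRight (hA a)⁻¹)]
        refine Finset.sum_congr rfl fun g _ => ?_
        rw [Equiv.coe_mulRight]
        have e1 : f (g * (hA a)⁻¹) = (((lam a)⁻¹ : ℂˣ) : ℂ) * f g := by
          have e2 := hfc (hA a)⁻¹ (g * (hA a)⁻¹)
          rw [← e2]
          have e3 : (hA a)⁻¹ * (g * (hA a)⁻¹) * (hA a)⁻¹⁻¹ = hA a⁻¹ * g := by
            rw [map_inv]
            group
          rw [e3, hfm, map_inv]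
        have e4 : (g * (hA a)⁻¹)⁻¹ = hA a * g⁻¹ := by
          rw [mul_inv_rev, inv_inv]
        rw [e1, e4]
        ring
      have h3 : (Nat.card A : ℂ) * B f ψ = ∑ a : A, B f ψ := by
        rw [Finset.sum_const, nsmul_eq_mul, Finset.card_univ, ← Nat.card_eq_fintype_card]
      have h4 : ∑ a : A, B f ψ = 0 := by
        rw [Finset.sum_congr rfl fun a _ => h2 a, ← Finset.mul_sum, Finset.sum_comm]
        have h5 : ∀ g : G, ∑ a : A, f g * ((((lam a)⁻¹ : ℂˣ) : ℂ) * ψ (hA a * g⁻¹)) = 0 := by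
          intro g
          rw [← Finset.mul_sum, h1, mul_zero]
        rw [Finset.sum_congr rfl fun g _ => h5 g, Finset.sum_const_zero, mul_zero]
      rw [h4] at h3
      have hA0 : (Nat.card A : ℂ) ≠ 0 := by exact_mod_cast Nat.card_pos.ne'
      exact (mul_eq_zero.1 h3).resolve_left hA0
  have ho : S.Over ψ := by
    intro g a hg
    have e : g = hA a := S.inj (by rw [hg, hA'])
    have := h1 a 1
    rw [mul_one] at this
    rw [e, this]
  refine ⟨ψ, hψ, ho, ?_⟩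
  by_contra hne
  have hF := ind_irr S hψ ho
  have h5 := B_irr_ne hF hχ (fun e => hne e.symm)
  rw [B_indHom _ _ hχc] at h5
  have h6 := B_avg S hA' hψc h1 χ
  rw [h5, mul_zero, B_symm] at h6
  exact hB h6.symm

end Pool.Agent.Helper24.LOC
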