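import Pool.Agent.Helper24.LOC.CDefs

/-!
C01 Rel: elementary facts about `Rel`, `occ` and induction along an injective homomorphism.

PROOFS. `Rel`: for every `x, a` there is `a'` with `j a' = x (j a) x⁻¹` (`D.norm`), unique by injectivity. `rel_one`, `rel_mul`,
`rel_inv` are direct (for `rel_inv`: if `j a' = x⁻¹ (j a) x` then `j a = x (j a') x⁻¹`). `exists_occ`: for an irreducible `χ`
(`χ 1 ≠ 0`, `irr_one`) `∑_(mu) ∑_a mu(a)⁻¹ χ(j a) = |A^| χ(1) ≠ 0` by the dual orthogonality relation; see `exists_resl_ne` and `dual_orth` in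
`Helper42/INC/Little` (with `φ = 1`, or copy the proof: `CommGroup.exists_apply_ne_one_of_hasEnoughRootsOfUnity`).
`occ_z`: `χ (z y) = ν χ y` for all `y` (`exists_central` in `Helper42/INC/Inflate`, compare with `irrZ_neg` in `Helper81/AN/TenDefs`:
the central character at `z` is `χ z / χ 1 = ν`); translate the sum defining `occ` by `a0`:
`occ = mu(a0)⁻¹ ν occ`, so `mu a0 = ν`.
`ind_one`, `ind_z`: `indHom_eq`; for central `z` the condition `inc γ = x⁻¹ z x` is `inc γ = z`, i.e. `γ = gz`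
(for `1`: `z = 1`, `gz = 1`). `ind_sign`: `ε (x⁻¹ g x) = ε g`. `ind_conj`: reindex the sum over `X` by `y ↦ x y` (or `y x`) and the
sum over `G` by the bijection `g ↔ g'`.
-/

set_option autoImplicit false

namespace Pool.Agent.Helper24.LOC

open Pool.Agent.Helper42.INC Pool.Agent.Helper7.MK Pool.Agent.Helper81.AN

variable {X A : Type} [Group X] [CommGroup A] (D : ANS X A)

theorem rel_one (lam : A →* ℂˣ) : D.Rel 1 lam lam := by
  intro a a' h
  rw [one_mul, inv_one, mul_one] at h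
  rw [D.inj h]

theorem rel_mul {x y : X} {lam mu nu : A →* ℂˣ} (h : D.Rel x lam mu) (h' : D.Rel y mu nu) :
    D.Rel (y * x) lam nu := by
  intro a a' ha
  obtain ⟨b, hb⟩ := D.norm x a
  rw [← h a b hb]
  apply h' b a'
  rw [ha, hb]
  group

theorem rel_inv {x : X} {lam mu : A →* ℂˣ} (h : D.Rel x lam mu) : D.Rel x⁻¹ mu lam := by
  intro a a' ha
  symm
  apply h a' a
  rw [ha]
  group

private theorem dual_sum_zero [Finite A] [Fintype (A →* ℂˣ)] {a : A} (ha : a ≠ 1) :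
    ∑ l : A →* ℂˣ, (((l a)⁻¹ : ℂˣ) : ℂ) = 0 := by
  classical
  have hexp : HasEnoughRootsOfUnity ℂ (Monoid.exponent A) := by
    have : NeZero (Monoid.exponent A) := ⟨Monoid.exponent_ne_zero_of_finite⟩
    infer_instance
  obtain ⟨l₀, hl₀⟩ := CommGroup.exists_apply_ne_one_of_hasEnoughRootsOfUnity A ℂ ha
  have hne : (((l₀ a)⁻¹ : ℂˣ) : ℂ) ≠ 1 := by
    intro he
    apply hl₀
    have : (l₀ a)⁻¹ = 1 := Units.ext he
    exact inv_eq_one.1 this
  have h1 : ∑ l : A →* ℂˣ, (((l a)⁻¹ : ℂˣ) : ℂ) =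
      (((l₀ a)⁻¹ : ℂˣ) : ℂ) * ∑ l : A →* ℂˣ, (((l a)⁻¹ : ℂˣ) : ℂ) := by
    rw [Finset.mul_sum, ← Equiv.sum_comp (Equiv.mulLeft l₀)]
    apply Finset.sum_congr rfl
    intro l _
    have : (Equiv.mulLeft l₀ l) a = l₀ a * l a := rfl
    rw [this, mul_inv, Units.val_mul]
  have h2 : (1 - (((l₀ a)⁻¹ : ℂˣ) : ℂ)) * ∑ l : A →* ℂˣ, (((l a)⁻¹ : ℂˣ) : ℂ) = 0 := by
    rw [sub_mul, one_mul, ← h1, sub_self]
  rcases mul_eq_zero.1 h2 with h3 | h3
  · exact absurd (sub_eq_zero.1 h3).symm hne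
  · exact h3

theorem exists_occ [Finite X] [Finite A] {χ : X → ℂ} (hχ : χ ∈ Irr X) : ∃ mu : A →* ℂˣ, D.occ mu χ ≠ 0 := by
  classical
  by_contra hcon
  push Not at hcon
  have := Fintype.ofFinite A
  have hexp : HasEnoughRootsOfUnity ℂ (Monoid.exponent A) := by
    have : NeZero (Monoid.exponent A) := ⟨Monoid.exponent_ne_zero_of_finite⟩
    infer_instance
  have := Fintype.ofFinite (A →* ℂˣ)
  have h1 : ∑ l : A →* ℂˣ, D.occ l χ = 0 := Finset.sum_eq_zero (fun l _ => hcon l)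
  have h2 : ∑ l : A →* ℂˣ, D.occ l χ = Fintype.card (A →* ℂˣ) * χ 1 := by
    have h3 : ∀ l : A →* ℂˣ, D.occ l χ = ∑ a : A, (((l a)⁻¹ : ℂˣ) : ℂ) * χ (D.j a) := fun l => by
      rw [ANS.occ, finsum_eq_sum_of_fintype]
    rw [Finset.sum_congr rfl (fun l _ => h3 l), Finset.sum_comm]
    rw [Finset.sum_eq_single 1]
    · simp only [map_one, inv_one, Units.val_one, one_mul]
      rw [Finset.sum_const, nsmul_eq_mul, Finset.card_univ]
    · intro a _ ha
      rw [← Finset.sum_mul, dual_sum_zero ha, zero_mul]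
    · intro h; exact absurd (Finset.mem_univ _) h
  rw [h1] at h2
  obtain ⟨n, hn0, hn⟩ := irr_one hχ
  rw [hn] at h2
  have hX : (Fintype.card (A →* ℂˣ) : ℂ) ≠ 0 := by
    have : Nonempty (A →* ℂˣ) := ⟨1⟩
    exact_mod_cast Fintype.card_pos.ne'
  have hn' : (n : ℂ) ≠ 0 := by exact_mod_cast hn0.ne'
  exact (mul_ne_zero hX hn') h2.symm

open scoped IsMulCommutative in
theorem irrZ_apply [Finite X] {z : X} (hz : ∀ x, z * x = x * z) {ν : ℂ} {χ : X → ℂ}
    (hχ : χ ∈ IrrZ z ν) (y : X) : χ (z * y) = ν * χ y := by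
  have h0 : z ∈ Subgroup.center X := Subgroup.mem_center_iff.2 fun g => (hz g).symm
  obtain ⟨ν', hν'⟩ := exists_central (C := Subgroup.center X) (Subgroup.center X).subtype
    (fun c => c.2) hχ.1
  have h1 := hν' ⟨z, h0⟩ 1
  have h2 := hν' ⟨z, h0⟩ y
  change χ (z * 1) = _ at h1
  change χ (z * y) = _ at h2
  rw [mul_one, hχ.2] at h1
  obtain ⟨n, hn0, hn⟩ := irr_one hχ.1
  have hn' : (n : ℂ) ≠ 0 := by exact_mod_cast hn0.ne'
  rw [hn] at h1
  rw [h2, mul_right_cancel₀ hn' h1]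

theorem occ_z [Finite X] [Finite A] {z : X} (hz : ∀ x, z * x = x * z) {ν : ℂ} {χ : X → ℂ} (hχ : χ ∈ IrrZ z ν)
    {mu : A →* ℂˣ} (h : D.occ mu χ ≠ 0) (a0 : A) (h0 : D.j a0 = z) : ((mu a0 : ℂˣ) : ℂ) = ν := by
  have := Fintype.ofFinite A
  have h3 : D.occ mu χ = ∑ a : A, (((mu a)⁻¹ : ℂˣ) : ℂ) * χ (D.j a) := by
    rw [ANS.occ, finsum_eq_sum_of_fintype]
  have h1 : D.occ mu χ = ((((mu a0)⁻¹ : ℂˣ) : ℂ) * ν) * D.occ mu χ := by
    conv_lhs => rw [h3, ← Equiv.sum_comp (Equiv.mulLeft a0)]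
    rw [h3, Finset.mul_sum]
    apply Finset.sum_congr rfl
    intro a _
    rw [Equiv.coe_mulLeft, map_mul, map_mul, h0, irrZ_apply hz hχ, mul_inv, Units.val_mul]
    ring
  have h4 : (((mu a0)⁻¹ : ℂˣ) : ℂ) * ν = 1 := by
    have h5 : (1 - (((mu a0)⁻¹ : ℂˣ) : ℂ) * ν) * D.occ mu χ = 0 := by
      rw [sub_mul, one_mul, ← h1, sub_self]
    rcases mul_eq_zero.1 h5 with h6 | h6
    · exact (sub_eq_zero.1 h6).symm
    · exact absurd h6 h
  have h7 : ((mu a0 : ℂˣ) : ℂ) * (((mu a0)⁻¹ : ℂˣ) : ℂ) = 1 := by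
    rw [← Units.val_mul, mul_inv_cancel, Units.val_one]
  calc ((mu a0 : ℂˣ) : ℂ) = ((mu a0 : ℂˣ) : ℂ) * ((((mu a0)⁻¹ : ℂˣ) : ℂ) * ν) := by rw [h4, mul_one]
    _ = (((mu a0 : ℂˣ) : ℂ) * (((mu a0)⁻¹ : ℂˣ) : ℂ)) * ν := by ring
    _ = ν := by rw [h7, one_mul]

theorem ind_z {G : Type} [Group G] [Finite G] [Finite X] (inc : G →* X) (hinj : Function.Injective inc) (z : X)
    (hz : ∀ x, z * x = x * z) (gz : G) (hgz : inc gz = z) (ψ : G → ℂ) :
    (Nat.card G : ℂ) * indHom inc ψ z = Nat.card X * ψ gz := by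
  classical
  have := Fintype.ofFinite G
  have := Fintype.ofFinite X
  have hG : (Nat.card G : ℂ) ≠ 0 := by exact_mod_cast Nat.card_pos.ne'
  rw [indHom_eq, ← mul_assoc, mul_inv_cancel₀ hG, one_mul]
  have h1 : ∀ x : X, (∑ γ : G, if inc γ = x⁻¹ * z * x then ψ γ else 0) = ψ gz := by
    intro x
    have h2 : x⁻¹ * z * x = z := by rw [mul_assoc, hz, ← mul_assoc, inv_mul_cancel, one_mul]
    rw [h2, Finset.sum_eq_single gz]
    · rw [if_pos hgz]
    · intro γ _ hγ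
      rw [if_neg]
      intro h
      exact hγ (hinj (h.trans hgz.symm))
    · intro h; exact absurd (Finset.mem_univ _) h
  rw [Finset.sum_congr rfl (fun x _ => h1 x), Finset.sum_const, nsmul_eq_mul, Finset.card_univ,
    ← Nat.card_eq_fintype_card]

theorem ind_one {G : Type} [Group G] [Finite G] [Finite X] (inc : G →* X) (hinj : Function.Injective inc)
    (ψ : G → ℂ) : (Nat.card G : ℂ) * indHom inc ψ 1 = Nat.card X * ψ 1 :=
  ind_z inc hinj 1 (fun x => by rw [one_mul, mul_one]) 1 (map_one inc) ψ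

theorem ind_sign {G : Type} [Group G] [Finite G] [Finite X] (inc : G →* X) (ε : X →* ℤˣ) (ψ : G → ℂ) (x : X) :
    indHom inc (fun g => (((ε (inc g) : ℤˣ) : ℤ) : ℂ) * ψ g) x = (((ε x : ℤˣ) : ℤ) : ℂ) * indHom inc ψ x := by
  classical
  have := Fintype.ofFinite G
  have := Fintype.ofFinite X
  rw [indHom_eq, indHom_eq, mul_left_comm]
  congr 1
  rw [Finset.mul_sum]
  refine Finset.sum_congr rfl fun y _ => ?_
  rw [Finset.mul_sum]
  refine Finset.sum_congr rfl fun γ _ => ?_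
  split_ifs with h
  · have h1 : ε (inc γ) = ε x := by
      rw [h, map_mul, map_mul, map_inv, mul_comm (ε y)⁻¹, mul_assoc, inv_mul_cancel, mul_one]
    rw [h1]
  · rw [mul_zero]

theorem ind_conj {G G' : Type} [Group G] [Finite G] [Group G'] [Finite G'] [Finite X] (inc : G →* X) (inc' : G' →* X)
    (e : G ≃ G') (y : X) (he : ∀ g, inc' (e g) = y⁻¹ * inc g * y) (ψ : G → ℂ) (ψ' : G' → ℂ)
    (hψ : ∀ g, ψ' (e g) = ψ g) : indHom inc' ψ' = indHom inc ψ := by
  classical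
  have := Fintype.ofFinite G
  have := Fintype.ofFinite G'
  have := Fintype.ofFinite X
  funext x
  rw [indHom_eq, indHom_eq, Nat.card_congr e]
  congr 1
  rw [← Equiv.sum_comp (Equiv.mulRight y)]
  refine Finset.sum_congr rfl fun b _ => ?_
  rw [← Equiv.sum_comp e]
  refine Finset.sum_congr rfl fun γ _ => ?_
  rw [he, hψ]
  have h1 : (y⁻¹ * inc γ * y = (Equiv.mulRight y b)⁻¹ * x * Equiv.mulRight y b) ↔
      (inc γ = b⁻¹ * x * b) := by
    have e1 : (Equiv.mulRight y b)⁻¹ * x * Equiv.mulRight y b = y⁻¹ * (b⁻¹ * x * b) * y := by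
      rw [Equiv.coe_mulRight]
      group
    rw [e1]
    constructor
    · intro h
      exact mul_left_cancel (mul_right_cancel h)
    · intro h
      rw [h]
  simp only [h1]

end Pool.Agent.Helper24.LOC
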