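import Pool.Agent.Helper81.AN.Defs

/-!
E01 Char: the linear characters of `EE p w = (ZMod p)^w`.

PROOF. Let `ψ0 : ZMod p → ℂˣ` be an injective additive character (`ZMod.stdAddChar`/`ZMod.toCircle` as a unit, or
`x ↦ ζ ^ x.val` for a primitive `p`-th root of unity `ζ`), `F t e = ψ0 (∑ i, t i * e i)`. `F` is injective: if `F t = F t'` evaluate at
`e = Pi.single i a` for all `a`: `ψ0 (t i a) = ψ0 (t' i a)`, `a = 1`. Surjective: a character `mu` restricted to the `i`-th coordinate is
`a ↦ mu(Pi.single i 1)^a`, and `mu (Pi.single i 1)` is a `p`-th root of unity, so it is `ψ0 (t i)` for some `t i` (`ψ0` is onto the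
`p`-th roots of unity: it is injective and there are at most `p` of them); `e = ∑ Pi.single i (e i)`. (Or count:
`Nat.card (EE p w →* ℂˣ) = p^w`, e.g. `CommGroup.card_monoidHom_of_hasEnoughRootsOfUnity`.) Formula:
`∑ i, t i * (u i * e (σ⁻¹ i)) = ∑ i, t (σ i) * u (σ i) * e i` (`Equiv.sum_comp`).
-/

set_option autoImplicit false

open Equiv

namespace Pool.Agent.Helper24.LOC

open Pool.Agent.Helper81.AN

/-- the character with exponent vector `t` -/
noncomputable def preE (p w : ℕ) [Fact p.Prime] (t : Fin w → ZMod p) : EE p w →* ℂˣ :=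
  MonoidHom.toHomUnits
    { toFun := fun e => ZMod.stdAddChar (∑ i, t i * Multiplicative.toAdd e i)
      map_one' := by
        have h : ∑ i, t i * Multiplicative.toAdd (1 : EE p w) i = 0 :=
          Finset.sum_eq_zero fun i _ => mul_zero _
        rw [h, AddChar.map_zero_eq_one]
      map_mul' := fun e e' => by
        rw [← AddChar.map_add_eq_mul, ← Finset.sum_add_distrib]
        congr 1
        refine Finset.sum_congr rfl fun i _ => ?_
        change t i * (Multiplicative.toAdd e i + Multiplicative.toAdd e' i) = _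
        rw [mul_add] }

theorem preE_apply (p w : ℕ) [Fact p.Prime] (t : Fin w → ZMod p) (e : EE p w) :
    (preE p w t e : ℂ) = ZMod.stdAddChar (∑ i, t i * Multiplicative.toAdd e i) := rfl

theorem std_sum (p : ℕ) [Fact p.Prime] {ι : Type} (s : Finset ι) (f : ι → ZMod p) :
    (ZMod.stdAddChar (∑ i ∈ s, f i) : ℂ) = ∏ i ∈ s, ZMod.stdAddChar (f i) := by
  classical
  induction s using Finset.induction_on with
  | empty => rw [Finset.sum_empty, Finset.prod_empty, AddChar.map_zero_eq_one]
  | insert a s ha ih => rw [Finset.sum_insert ha, Finset.prod_insert ha,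
      AddChar.map_add_eq_mul, ih]

theorem std_prim (p : ℕ) [Fact p.Prime] :
    IsPrimitiveRoot (ZMod.stdAddChar (1 : ZMod p) : ℂ) p := by
  have h : ∀ n : ℕ, (ZMod.stdAddChar (1 : ZMod p) : ℂ) ^ n =
      ZMod.stdAddChar ((n : ℕ) : ZMod p) := by
    intro n
    rw [← AddChar.map_nsmul_eq_pow, nsmul_one]
  refine ⟨?_, fun l hl => ?_⟩
  · rw [h, ZMod.natCast_self, AddChar.map_zero_eq_one]
  · rw [h, ← AddChar.map_zero_eq_one (ZMod.stdAddChar (N := p))] at hl
    exact (ZMod.natCast_eq_zero_iff l p).1 (ZMod.injective_stdAddChar hl)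

theorem exists_lamE (p w : ℕ) [Fact p.Prime] :
    ∃ F : (Fin w → ZMod p) → (EE p w →* ℂˣ), Function.Bijective F ∧
      ∀ (t : Fin w → ZMod p) (x : WW p w) (e : EE p w),
        F t (actE p w x e) = F (fun i => t (x.right i) * (x.left (x.right i) : ZMod p)) e := by
  classical
  refine ⟨preE p w, ⟨?_, ?_⟩, ?_⟩
  · intro t t' h
    funext i
    have h1 := DFunLike.congr_fun h (Multiplicative.ofAdd (Pi.single i 1) : EE p w)
    have h2 := congrArg Units.val h1
    rw [preE_apply, preE_apply] at h2
    have h3 := ZMod.injective_stdAddChar h2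
    have h4 : ∀ t : Fin w → ZMod p,
        ∑ j, t j * Multiplicative.toAdd (Multiplicative.ofAdd (Pi.single i 1) : EE p w) j = t i := by
      intro t
      rw [Finset.sum_eq_single i]
      · rw [toAdd_ofAdd, Pi.single_eq_same, mul_one]
      · intro j _ hj
        rw [toAdd_ofAdd, Pi.single_eq_of_ne hj, mul_zero]
      · intro hi
        exact absurd (Finset.mem_univ i) hi
    rwa [h4, h4] at h3
  · intro mu
    have h1 : ∀ i, ∃ a : ZMod p, ZMod.stdAddChar a =
        (mu (Multiplicative.ofAdd (Pi.single i 1) : EE p w) : ℂ) := by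
      intro i
      have h2 : (mu (Multiplicative.ofAdd (Pi.single i 1) : EE p w) : ℂ) ^ p = 1 := by
        rw [← Units.val_pow_eq_pow_val, ← map_pow, ← ofAdd_nsmul]
        have h3 : p • (Pi.single i 1 : Fin w → ZMod p) = 0 := by
          funext j
          rw [Pi.smul_apply, nsmul_eq_mul, ZMod.natCast_self, zero_mul]
          rfl
        rw [h3, ofAdd_zero, map_one, Units.val_one]
      obtain ⟨n, _, hn⟩ := (std_prim p).eq_pow_of_pow_eq_one h2
      refine ⟨(n : ZMod p), ?_⟩
      rw [← hn, ← AddChar.map_nsmul_eq_pow, nsmul_one]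
    choose t ht using h1
    refine ⟨t, ?_⟩
    refine MonoidHom.ext fun e => Units.ext ?_
    have h2 : e = ∏ i, (Multiplicative.ofAdd (Pi.single i 1) : EE p w) ^
        (Multiplicative.toAdd e i).val := by
      apply Multiplicative.toAdd.injective
      rw [toAdd_prod]
      funext j
      rw [Finset.sum_apply, Finset.sum_eq_single j]
      · rw [toAdd_pow, toAdd_ofAdd, Pi.smul_apply, Pi.single_eq_same, nsmul_one,
          ZMod.natCast_zmod_val]
      · intro i _ hi
        rw [toAdd_pow, toAdd_ofAdd, Pi.smul_apply, Pi.single_eq_of_ne hi.symm, smul_zero]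
      · intro hj
        exact absurd (Finset.mem_univ j) hj
    rw [preE_apply]
    conv_rhs => rw [h2, map_prod, Units.coe_prod]
    rw [std_sum]
    refine Finset.prod_congr rfl fun i _ => ?_
    rw [map_pow, Units.val_pow_eq_pow_val, ← ht, ← AddChar.map_nsmul_eq_pow, nsmul_eq_mul,
      ZMod.natCast_zmod_val, mul_comm]
  · intro t x e
    apply Units.ext
    rw [preE_apply, preE_apply]
    congr 1
    rw [← Equiv.sum_comp x.right]
    refine Finset.sum_congr rfl fun i _ => ?_
    change t (x.right i) * ((x.left (x.right i) : ZMod p) *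
      Multiplicative.toAdd e (x.right⁻¹ (x.right i))) = _
    have h : x.right⁻¹ (x.right i) = i := x.right.symm_apply_apply i
    rw [h, mul_assoc]

/-- the linear characters of `EE` -/
noncomputable def lamE (p w : ℕ) [Fact p.Prime] : (Fin w → ZMod p) → (EE p w →* ℂˣ) := (exists_lamE p w).choose

theorem lamE_bij (p w : ℕ) [Fact p.Prime] : Function.Bijective (lamE p w) := (exists_lamE p w).choose_spec.1

theorem lamE_act (p w : ℕ) [Fact p.Prime] (t : Fin w → ZMod p) (x : WW p w) (e : EE p w) :
    lamE p w t (actE p w x e) = lamE p w (fun i => t (x.right i) * (x.left (x.right i) : ZMod p)) e :=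
  (exists_lamE p w).choose_spec.2 t x e

end Pool.Agent.Helper24.LOC
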