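import Pool.Agent.Helper24.LOC.TDefs
import Pool.Agent.Helper41.SST.Defs

/-!
# Project AN (MP_5ecade_al), local half: definitions for the E-step

* `StabV v x`: `x = (u, σ)` in `WW p w`, `σ` preserves `{i < v}` and `u i = 1` for `i < v`: the stabilizer of the linear
  character `(1, .., 1, 0, .., 0)` (`v` ones) of `EE p w`.
* `incV`: the isomorphism of `Perm {i // pr i} × WWt K {i // ¬ pr i}` with such a stabilizer.
-/

set_option autoImplicit false

open Equiv

namespace Pool.Agent.Helper24.LOC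

open Pool.Agent.Helper81.AN Pool.Agent.Helper41.SST

/-- the stabilizer of `(1, .., 1, 0, .., 0)` -/
def StabV {p w : ℕ} (v : ℕ) (x : WW p w) : Prop :=
  (∀ i : Fin w, (i : ℕ) < v ↔ ((x.right i : Fin w) : ℕ) < v) ∧ ∀ i : Fin w, (i : ℕ) < v → x.left i = 1

section

variable (K : Type) [Group K] {I : Type} (pr : I → Prop) [DecidablePred pr]

theorem subtypeCongr_inv (a : Perm {i // pr i}) (b : Perm {i // ¬ pr i}) :
    (Perm.subtypeCongr a b)⁻¹ = Perm.subtypeCongr a⁻¹ b⁻¹ := Perm.subtypeCongr.symm a b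

theorem subtypeCongr_inv_not (a : Perm {i // pr i}) (b : Perm {i // ¬ pr i}) {i : I} (h : ¬ pr i) :
    (Perm.subtypeCongr a b)⁻¹ i = (b⁻¹ ⟨i, h⟩).1 := by
  rw [subtypeCongr_inv]
  exact Perm.subtypeCongr.right_apply _ _ h

theorem subtypeCongr_inv_pos (a : Perm {i // pr i}) (b : Perm {i // ¬ pr i}) {i : I} (h : pr i) :
    pr ((Perm.subtypeCongr a b)⁻¹ i) := by
  rw [subtypeCongr_inv, Perm.subtypeCongr.left_apply _ _ h]
  exact (a⁻¹ ⟨i, h⟩).2

/-- permutations on one part, wreath product on the other part -/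
def incV : Perm {i // pr i} × WWt K {i // ¬ pr i} →* WWt K I where
  toFun x := ⟨fun i => if h : pr i then 1 else x.2.left ⟨i, h⟩, Perm.subtypeCongr x.1 x.2.right⟩
  map_one' := by
    apply SemidirectProduct.ext
    · funext i
      by_cases h : pr i
      · exact dif_pos h
      · exact dif_neg h
    · exact Perm.subtypeCongr.refl
  map_mul' x y := by
    apply SemidirectProduct.ext
    · funext i
      rw [SemidirectProduct.mul_left, Pi.mul_apply]
      change (if h : pr i then (1 : K) else (x.2 * y.2).left ⟨i, h⟩) =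
        (if h : pr i then (1 : K) else x.2.left ⟨i, h⟩) *
          (fun i => if h : pr i then (1 : K) else y.2.left ⟨i, h⟩) ((Perm.subtypeCongr x.1 x.2.right)⁻¹ i)
      by_cases h : pr i
      · rw [dif_pos h, dif_pos h, one_mul]
        change (1 : K) = if h' : pr ((Perm.subtypeCongr x.1 x.2.right)⁻¹ i) then (1 : K) else
          y.2.left ⟨(Perm.subtypeCongr x.1 x.2.right)⁻¹ i, h'⟩
        rw [dif_pos (subtypeCongr_inv_pos pr x.1 x.2.right h)]
      · rw [dif_neg h, dif_neg h, subtypeCongr_inv_not pr x.1 x.2.right h]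
        change _ = _ * (if h' : pr (x.2.right⁻¹ ⟨i, h⟩).1 then (1 : K) else
          y.2.left ⟨(x.2.right⁻¹ ⟨i, h⟩).1, h'⟩)
        rw [dif_neg (x.2.right⁻¹ ⟨i, h⟩).2]
        rfl
    · exact (Perm.subtypeCongrHom pr).map_mul (x.1, x.2.right) (y.1, y.2.right)

theorem incV_right (x : Perm {i // pr i} × WWt K {i // ¬ pr i}) :
    (incV K pr x).right = Perm.subtypeCongr x.1 x.2.right := rfl

theorem incV_left_pos (x : Perm {i // pr i} × WWt K {i // ¬ pr i}) {i : I} (h : pr i) :
    (incV K pr x).left i = 1 := dif_pos h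

theorem incV_left_neg (x : Perm {i // pr i} × WWt K {i // ¬ pr i}) {i : I} (h : ¬ pr i) :
    (incV K pr x).left i = x.2.left ⟨i, h⟩ := dif_neg h

end

/-- the first `v` indices -/
abbrev ltv {w : ℕ} (v : ℕ) (i : Fin w) : Prop := (i : ℕ) < v

end Pool.Agent.Helper24.LOC
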