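import Pool.Agent.Helper24.LOC.EDefs

/-!
E06 Inv: names for the linear characters of `K` which are compatible with the multiplication by the sign character `η`.

PROOFS. `exists_theta`: multiplication by `η` (as a `ℂˣ`-valued character) is an involution without fixed points on the finite set
`K →* ℂˣ` of `2 m` elements (`CommGroup.card_monoidHom_of_hasEnoughRootsOfUnity`; `HasEnoughRootsOfUnity ℂ _` as in `dual_orth` in
`Helper42/INC/Little`; no fixed point: `η k = -1` for some `k`). General fact: an involution `σ` without fixed points on a set with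
`2 m` elements is isomorphic to `(j, b) ↦ (j, !b)` on `Fin m × Bool` (induction on `m`, or: choose a set of representatives of the
orbits `{x, σ x}`, e.g. with the quotient by the setoid `y = x ∨ y = σ x`, `Quotient.out`; the number of orbits is `m` because every
fibre has two elements). `revC_iso`: `i < mid ↦ (i, false)`, `i > mid ↦ (rev i, true)` (`rev i < mid`). `exists_theta1`: combine.
`chi2_neg`: `(ZMod p)ˣ` is cyclic; a generator `c` permutes the `p - 1` nonzero elements of `ZMod p` in one cycle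
(`Equiv.Perm.IsCycle`, support of cardinality `p - 1`, `Equiv.Perm.IsCycle.sign`), of even length, so the sign is `-1`
(see also `chi2_gen` in `Helper41/SST/Zol.lean` if it is there: it can be cited).
-/

set_option autoImplicit false

open Equiv

namespace Pool.Agent.Helper24.LOC

open Pool.Agent.Helper81.AN Pool.Agent.Helper41.SST

/-- an involution without fixed points -/
private theorem invol {X : Type} [Finite X] (σ : X → X) (hσ : ∀ x, σ (σ x) = x) (hne : ∀ x, σ x ≠ x)
    (m : ℕ) (hm : Nat.card X = 2 * m) :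
    ∃ E : Fin m × Bool ≃ X, ∀ j, E (j, true) = σ (E (j, false)) := by
  classical
  have := Fintype.ofFinite X
  obtain ⟨o, ho⟩ : ∃ o : X → ℕ, Function.Injective o :=
    ⟨fun x => (Fintype.equivFin X x : ℕ), fun x y h => (Fintype.equivFin X).injective (Fin.ext h)⟩
  have hbij : Function.Bijective (fun q : {x : X // o x < o (σ x)} × Bool =>
      if q.2 = true then σ q.1.1 else q.1.1) := by
    constructor
    · rintro ⟨⟨x, hx⟩, a⟩ ⟨⟨y, hy⟩, b⟩ h
      rcases a with _ | _ <;> rcases b with _ | _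
      · have h1 : x = y := by simpa using h
        subst h1
        rfl
      · have h1 : x = σ y := by simpa using h
        rw [h1, hσ] at hx
        omega
      · have h1 : σ x = y := by simpa using h
        rw [← h1, hσ] at hy
        omega
      · have h1 : σ x = σ y := by simpa using h
        have h2 : x = y := by rw [← hσ x, h1, hσ]
        subst h2
        rfl
    · intro x
      by_cases hx : o x < o (σ x)
      · exact ⟨(⟨x, hx⟩, false), by simp⟩
      · have h1 : o (σ x) < o (σ (σ x)) := by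
          rw [hσ]
          have h2 : o (σ x) ≠ o x := fun h => hne x (ho h)
          omega
        exact ⟨(⟨σ x, h1⟩, true), by simp [hσ]⟩
  have hcard : Fintype.card {x : X // o x < o (σ x)} = m := by
    have h1 := Fintype.card_of_bijective hbij
    rw [Fintype.card_prod, Fintype.card_bool, ← Nat.card_eq_fintype_card (α := X), hm] at h1
    omega
  refine ⟨(Equiv.prodCongr ((Fintype.equivFinOfCardEq hcard).symm) (Equiv.refl Bool)).trans
    (Equiv.ofBijective _ hbij), fun j => ?_⟩
  simp

theorem exists_theta {K : Type} [CommGroup K] [Finite K] (η : K →* ℤˣ) (hη : ∃ k, η k = -1) (m : ℕ)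
    (hm : Nat.card K = 2 * m) :
    ∃ θ : Fin m × Bool ≃ (K →* ℂˣ), ∀ j k,
      ((θ (j, true) k : ℂˣ) : ℂ) = (((η k : ℤˣ) : ℤ) : ℂ) * ((θ (j, false) k : ℂˣ) : ℂ) := by
  have hexp : HasEnoughRootsOfUnity ℂ (Monoid.exponent K) := by
    have : NeZero (Monoid.exponent K) := ⟨Monoid.exponent_ne_zero_of_finite⟩
    infer_instance
  have hcard : Nat.card (K →* ℂˣ) = 2 * m := by
    rw [← hm]
    exact CommGroup.card_monoidHom_of_hasEnoughRootsOfUnity K ℂ
  obtain ⟨k0, hk0⟩ := hη
  have hK : 0 < Nat.card K := Nat.card_pos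
  have hfin : Finite (K →* ℂˣ) := Nat.finite_of_card_ne_zero (by omega)
  obtain ⟨c, hc⟩ : ∃ c : K →* ℂˣ, ∀ k, ((c k : ℂˣ) : ℂ) = (((η k : ℤˣ) : ℤ) : ℂ) :=
    ⟨(Units.map (Int.castRingHom ℂ : ℤ →* ℂ)).comp η, fun k => rfl⟩
  have hcc : ∀ k, c k * c k = 1 := by
    intro k
    apply Units.ext
    rw [Units.val_mul, hc, Units.val_one]
    rcases Int.units_eq_one_or (η k) with h | h <;> rw [h] <;> simp
  obtain ⟨E, hE⟩ := invol (fun χ : K →* ℂˣ => c * χ) (fun χ => by
      refine MonoidHom.ext fun k => ?_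
      rw [MonoidHom.mul_apply, MonoidHom.mul_apply, ← mul_assoc, hcc, one_mul]) (fun χ h => by
      have h0 : (c * χ) k0 = χ k0 := by rw [h]
      rw [MonoidHom.mul_apply] at h0
      have h1 : c k0 = 1 := mul_eq_right.1 h0
      have h2 := hc k0
      rw [h1, hk0, Units.val_one, Units.val_neg, Units.val_one] at h2
      push_cast at h2
      norm_num at h2) m hcard
  refine ⟨E, fun j k => ?_⟩
  rw [hE, MonoidHom.mul_apply, Units.val_mul, hc]

/-- the reflection on the colours -/
def revC {p : ℕ} (mid : Fin p) (hmid : 2 * (mid : ℕ) + 1 = p) : Perm {i : Fin p // i ≠ mid} where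
  toFun i := ⟨i.1.rev, fun h => i.2 (by
    apply Fin.ext
    have := congrArg Fin.val h
    rw [Fin.val_rev] at this
    have := i.1.2
    omega)⟩
  invFun i := ⟨i.1.rev, fun h => i.2 (by
    apply Fin.ext
    have := congrArg Fin.val h
    rw [Fin.val_rev] at this
    have := i.1.2
    omega)⟩
  left_inv i := Subtype.ext (Fin.rev_rev _)
  right_inv i := Subtype.ext (Fin.rev_rev _)

theorem revC_iso {p : ℕ} (m : ℕ) (hm : 2 * m + 1 = p) (mid : Fin p) (hmid : 2 * (mid : ℕ) + 1 = p) :
    ∃ E : {i : Fin p // i ≠ mid} ≃ Fin m × Bool, ∀ c, E (revC mid hmid c) = ((E c).1, !(E c).2) := by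
  have hrr : ∀ c, revC mid hmid (revC mid hmid c) = c := fun c => (revC mid hmid).left_inv c
  have hcard : Nat.card {i : Fin p // i ≠ mid} = 2 * m := by
    rw [Nat.card_eq_fintype_card]
    have h1 := Fintype.card_subtype_compl (fun i : Fin p => i = mid)
    rw [Fintype.card_subtype_eq, Fintype.card_fin] at h1
    have h2 : Fintype.card {i : Fin p // i ≠ mid} = Fintype.card {i : Fin p // ¬ i = mid} := rfl
    omega
  obtain ⟨E, hE⟩ := invol (fun c => revC mid hmid c) hrr (fun c h => by
      have h1 : c.1.rev = c.1 := congrArg Subtype.val h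
      have h2 := congrArg Fin.val h1
      rw [Fin.val_rev] at h2
      apply c.2
      apply Fin.ext
      have h3 := c.1.2
      omega) m hcard
  refine ⟨E.symm, fun c => ?_⟩
  obtain ⟨⟨j, b⟩, rfl⟩ := E.surjective c
  rw [Equiv.symm_apply_apply, Equiv.symm_apply_eq]
  rcases b with _ | _
  · exact (hE j).symm
  · change revC mid hmid (E (j, true)) = E (j, false)
    rw [hE, hrr]

theorem exists_theta1 {K : Type} [CommGroup K] [Finite K] (η : K →* ℤˣ) (hη : ∃ k, η k = -1) {p : ℕ}
    (hK : Nat.card K = p - 1) (mid : Fin p) (hmid : 2 * (mid : ℕ) + 1 = p) :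
    ∃ θ : {i : Fin p // i ≠ mid} ≃ (K →* ℂˣ), ∀ c k,
      ((θ (revC mid hmid c) k : ℂˣ) : ℂ) = (((η k : ℤˣ) : ℤ) : ℂ) * ((θ c k : ℂˣ) : ℂ) := by
  obtain ⟨θ, hθ⟩ := exists_theta η hη (mid : ℕ) (by omega)
  obtain ⟨E, hE⟩ := revC_iso (mid : ℕ) hmid mid hmid
  refine ⟨E.trans θ, fun c k => ?_⟩
  rw [Equiv.trans_apply, Equiv.trans_apply, hE]
  obtain ⟨⟨j, b⟩, hjb⟩ : ∃ q, q = E c := ⟨_, rfl⟩
  rw [← hjb]
  rcases b with _ | _
  · exact hθ j k
  · change ((θ (j, false) k : ℂˣ) : ℂ) = (((η k : ℤˣ) : ℤ) : ℂ) * ((θ (j, true) k : ℂˣ) : ℂ)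
    rw [hθ, ← mul_assoc]
    rcases Int.units_eq_one_or (η k) with h | h <;> rw [h] <;> simp

theorem chi2_neg (p : ℕ) [Fact p.Prime] (h2 : p ≠ 2) : ∃ k, chi2 p k = -1 := by
  have hp : p.Prime := Fact.out
  obtain ⟨g, hg⟩ := IsCyclic.exists_generator (α := (ZMod p)ˣ)
  refine ⟨g, ?_⟩
  have hpow : ∀ k : ℤ, (MulAction.toPermHom (ZMod p)ˣ (ZMod p) g) ^ k =
      MulAction.toPermHom (ZMod p)ˣ (ZMod p) (g ^ k) := fun k => (map_zpow _ g k).symm
  have happ : ∀ (u : (ZMod p)ˣ) (x : ZMod p), MulAction.toPermHom (ZMod p)ˣ (ZMod p) u x = u * x :=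
    fun u x => rfl
  have hg1 : g ≠ 1 := by
    intro h
    have h1 : Nat.card (ZMod p)ˣ = 1 := by
      rw [Nat.card_eq_one_iff_exists]
      refine ⟨1, fun u => ?_⟩
      obtain ⟨k, hk⟩ := Subgroup.mem_zpowers_iff.1 (hg u)
      rw [← hk, h, one_zpow]
    rw [Nat.card_eq_fintype_card, ZMod.card_units_eq_totient, Nat.totient_prime hp] at h1
    omega
  have hsupp : ∀ x : ZMod p, MulAction.toPermHom (ZMod p)ˣ (ZMod p) g x ≠ x ↔ x ≠ 0 := by
    intro x
    rw [happ]
    constructor
    · rintro h rfl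
      exact h (mul_zero _)
    · intro hx h
      apply hg1
      apply Units.ext
      exact mul_right_cancel₀ hx (by rw [h, Units.val_one, one_mul])
  have hcyc : (MulAction.toPermHom (ZMod p)ˣ (ZMod p) g).IsCycle := by
    refine ⟨1, (hsupp 1).2 one_ne_zero, fun y hy => ?_⟩
    rw [hsupp] at hy
    obtain ⟨k, hk⟩ := Subgroup.mem_zpowers_iff.1 (hg (Units.mk0 y hy))
    refine ⟨k, ?_⟩
    rw [hpow, happ, hk, mul_one, Units.val_mk0]
  have hs : (MulAction.toPermHom (ZMod p)ˣ (ZMod p) g).support = Finset.univ.erase 0 := by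
    ext x
    rw [Perm.mem_support, hsupp]
    simp
  change Perm.sign (MulAction.toPermHom (ZMod p)ˣ (ZMod p) g) = -1
  rw [hcyc.sign, hs, Finset.card_erase_of_mem (Finset.mem_univ _), Finset.card_univ, ZMod.card]
  have hev : Even (p - 1) := hp.even_sub_one h2
  rw [hev.neg_one_pow]

end Pool.Agent.Helper24.LOC
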