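import Pool.Agent.Helper24.LOC.EDefs

/-!
E02 Stab: orbits and stabilizers of `WW p w` on the vectors.

PROOFS. `stab_delta`: from right to left clear. From left to right: if `i < v` then `delta (σ i) * u (σ i) = 1`, so `σ i < v` and `u (σ i) = 1`; if
`i ≥ v` then `delta (σ i) * u (σ i) = 0`, so `σ i ≥ v` (`u` is a unit); for `j < v` write `j = σ i`, then `i < v`, so `u j = 1`.
`exists_delta`: `v` = number of `i` with `t i ≠ 0`, `σ` a permutation with `i < v ↔ t (σ i) ≠ 0` (two sets with the same number of elements: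
`Fintype.card_congr`-type, `Equiv.extendSubtype`, `Equiv.subtypeCongr`, or `exists_perm_of_content` in `TFib` with colours in `Bool`),
`u j = (t j)⁻¹` if `t j ≠ 0` and `1` otherwise. `delta_inj`: count the `i` with value `≠ 0` on both sides: `v' = v` (`v, v' ≤ w`).
-/

set_option autoImplicit false

open Equiv

namespace Pool.Agent.Helper24.LOC

open Pool.Agent.Helper81.AN

/-- the vector `(1, .., 1, 0, .., 0)` -/
def delta (p w : ℕ) (v : ℕ) (i : Fin w) : ZMod p := if (i : ℕ) < v then 1 else 0

private theorem delta_ne {p w : ℕ} [Fact p.Prime] (v : ℕ) (i : Fin w) : delta p w v i ≠ 0 ↔ (i : ℕ) < v := by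
  unfold delta
  by_cases h : (i : ℕ) < v
  · rw [if_pos h]
    exact ⟨fun _ => h, fun _ => one_ne_zero⟩
  · rw [if_neg h]
    exact ⟨fun h1 => absurd rfl h1, fun h1 => absurd h1 h⟩

theorem stab_delta (p w : ℕ) [Fact p.Prime] (v : ℕ) (x : WW p w) :
    (∀ i, delta p w v (x.right i) * (x.left (x.right i) : ZMod p) = delta p w v i) ↔ StabV v x := by
  constructor
  · intro h
    have h1 : ∀ i : Fin w, (i : ℕ) < v ↔ ((x.right i : Fin w) : ℕ) < v := by
      intro i
      rw [← delta_ne (p := p), ← delta_ne (p := p) v (x.right i), ← h i]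
      constructor
      · intro h2 h3
        rw [h3, zero_mul] at h2
        exact h2 rfl
      · intro h2
        exact mul_ne_zero h2 (Units.ne_zero _)
    refine ⟨h1, fun j hj => ?_⟩
    obtain ⟨i, rfl⟩ := x.right.surjective j
    have h2 := h i
    unfold delta at h2
    rw [if_pos hj, if_pos ((h1 i).2 hj), one_mul] at h2
    exact Units.ext h2
  · rintro ⟨h1, h2⟩ i
    unfold delta
    by_cases h : (i : ℕ) < v
    · rw [if_pos h, if_pos ((h1 i).1 h), h2 _ ((h1 i).1 h), Units.val_one, one_mul]
    · rw [if_neg h, if_neg (fun h3 => h ((h1 i).2 h3)), zero_mul]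

private theorem card_lt {w v : ℕ} (hv : v ≤ w) :
    (Finset.univ.filter fun i : Fin w => (i : ℕ) < v).card = v := by
  have h1 : (Finset.univ.filter fun i : Fin w => (i : ℕ) < v).image Fin.val = Finset.range v := by
    ext n
    simp only [Finset.mem_image, Finset.mem_filter, Finset.mem_univ, true_and, Finset.mem_range]
    constructor
    · rintro ⟨i, hi, rfl⟩
      exact hi
    · intro hn
      exact ⟨⟨n, lt_of_lt_of_le hn hv⟩, hn, rfl⟩
  rw [← Finset.card_image_of_injective _ Fin.val_injective, h1, Finset.card_range]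

theorem exists_delta (p w : ℕ) [Fact p.Prime] (t : Fin w → ZMod p) :
    ∃ (v : Fin (w + 1)) (x : WW p w), ∀ i, t (x.right i) * (x.left (x.right i) : ZMod p) = delta p w v i := by
  classical
  set v := (Finset.univ.filter fun i => t i ≠ 0).card with hv
  have hvw : v ≤ w := by
    have h := Finset.card_le_univ (Finset.univ.filter fun i => t i ≠ 0)
    rwa [Fintype.card_fin] at h
  have hcard : Fintype.card {i : Fin w // (i : ℕ) < v} = Fintype.card {i : Fin w // t i ≠ 0} := by
    rw [Fintype.card_subtype, Fintype.card_subtype, card_lt hvw]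
  let e := Fintype.equivOfCardEq hcard
  let σ := e.extendSubtype
  have hσ : ∀ i : Fin w, (i : ℕ) < v ↔ t (σ i) ≠ 0 := by
    intro i
    constructor
    · intro h
      exact e.extendSubtype_mem i h
    · intro h
      by_contra h1
      exact e.extendSubtype_not_mem i h1 h
  let u : Fin w → (ZMod p)ˣ := fun j => if h : t j = 0 then 1 else (Units.mk0 (t j) h)⁻¹
  refine ⟨⟨v, Nat.lt_succ_of_le hvw⟩, ⟨u, σ⟩, fun i => ?_⟩
  change t (σ i) * (u (σ i) : ZMod p) = if (i : ℕ) < v then 1 else 0
  by_cases h : t (σ i) = 0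
  · rw [h, zero_mul, if_neg (fun h1 => (hσ i).1 h1 h)]
  · rw [if_pos ((hσ i).2 h)]
    change t (σ i) * ((if h : t (σ i) = 0 then 1 else (Units.mk0 (t (σ i)) h)⁻¹ : (ZMod p)ˣ) : ZMod p) = 1
    rw [dif_neg h, Units.val_inv_eq_inv_val, Units.val_mk0, mul_inv_cancel₀ h]

theorem delta_inj (p w : ℕ) [Fact p.Prime] (v v' : Fin (w + 1)) (x : WW p w)
    (h : ∀ i, delta p w v (x.right i) * (x.left (x.right i) : ZMod p) = delta p w v' i) : v = v' := by
  have h1 : ∀ i : Fin w, (i : ℕ) < v' ↔ ((x.right i : Fin w) : ℕ) < v := by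
    intro i
    rw [← delta_ne (p := p), ← delta_ne (p := p) v (x.right i), ← h i]
    constructor
    · intro h2 h3
      rw [h3, zero_mul] at h2
      exact h2 rfl
    · intro h2
      exact mul_ne_zero h2 (Units.ne_zero _)
  have h2 : (Finset.univ.filter fun i : Fin w => (i : ℕ) < v').card =
      (Finset.univ.filter fun i : Fin w => (i : ℕ) < v).card := by
    refine Finset.card_bij (fun i _ => x.right i) ?_ ?_ ?_
    · intro i hi
      rw [Finset.mem_filter] at hi ⊢
      exact ⟨Finset.mem_univ _, (h1 i).1 hi.2⟩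
    · intro i _ j _ hij
      exact x.right.injective hij
    · intro j hj
      obtain ⟨i, rfl⟩ := x.right.surjective j
      rw [Finset.mem_filter] at hj
      exact ⟨i, Finset.mem_filter.2 ⟨Finset.mem_univ _, (h1 i).2 hj.2⟩, rfl⟩
  rw [card_lt (Nat.le_of_lt_succ v'.2), card_lt (Nat.le_of_lt_succ v.2)] at h2
  exact Fin.ext h2.symm

end Pool.Agent.Helper24.LOC
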