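import Pool.Agent.Helper24.LOC.EChar
import Pool.Agent.Helper24.LOC.EStab
import Pool.Agent.Helper24.LOC.CMain

/-!
E03 Main (EST): the E-step: characters of `EE p w : H`, `H` acting through `f : H → WW p w`.

PROOF. `ccl_simple` with `D = (inl)` (`EE` is normal: `x (inl a) x⁻¹ = inl (actE (f x.right) a)`, `EE` is commutative), `z = inr zH`,
`R = Fin (w + 1)`, `lam v = lamE (delta v)`, `G v = EE p w ⋊[(actE p w).comp (f.comp (inc v))] Q v`, its inclusion
`SemidirectProduct.map id (inc v)`, `q = rightHom`, `lh = SemidirectProduct.lift (lam v) 1` (the compatibility: `lamE_act` and `stab_delta` for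
`f (inc v k)`), `gz = inr (zQ v)`. `Rel x (lamE t) (lamE t')` holds iff `t' (σ i) * u (σ i) = t i` for all `i`, `(u, σ) = f x.right`
(`lamE_act`, injectivity of `lamE`). So `range` is `stab_delta` and `hrange` (the element `(e, h)` is in the range iff `h` is);
`hA`: the inclusion of `g` is `inl a` iff `g = inl a` (`inc v` is injective), first alternative; `hker`: `g.right = 1`.
`h1`: `delta_inj`; `h2`: `lamE` is surjective, `exists_delta`, and `f` is surjective (`x = inr h`). Cardinalities:
`Nat.card (EE : H) = p^w * |H|` (`SemidirectProduct.card`), `hcard`. `ε (inl a) = 1`; `εQ v = ε.comp (inc v)`.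
-/

set_option autoImplicit false

open Equiv

namespace Pool.Agent.Helper24.LOC

open Pool.Agent.Helper42.INC Pool.Agent.Helper81.AN

/-- conjugation of the normal subgroup -/
private theorem conj_inl {N G : Type} [CommGroup N] [Group G] (φ : G →* MulAut N) (x : N ⋊[φ] G) (a : N) :
    x * SemidirectProduct.inl a * x⁻¹ = SemidirectProduct.inl (φ x.right a) := by
  obtain ⟨l, r, rfl⟩ : ∃ l r, x = SemidirectProduct.inl l * SemidirectProduct.inr r :=
    ⟨x.left, x.right, (SemidirectProduct.inl_left_mul_inr_right x).symm⟩
  have h1 : (SemidirectProduct.inl l * SemidirectProduct.inr r : N ⋊[φ] G).right = r := by simp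
  rw [h1]
  calc SemidirectProduct.inl l * SemidirectProduct.inr r * SemidirectProduct.inl a *
        (SemidirectProduct.inl l * SemidirectProduct.inr r)⁻¹
      = SemidirectProduct.inl l * (SemidirectProduct.inr r * SemidirectProduct.inl a *
          SemidirectProduct.inr r⁻¹) * SemidirectProduct.inl l⁻¹ := by
        rw [mul_inv_rev, map_inv, map_inv]
        group
    _ = SemidirectProduct.inl (l * φ r a * l⁻¹) := by
        rw [← SemidirectProduct.inl_aut, map_mul, map_mul]
    _ = SemidirectProduct.inl (φ r a) := by rw [mul_comm l, mul_inv_cancel_right]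

private theorem fin_sd {N G : Type} [Group N] [Group G] [Finite N] [Finite G] (φ : G →* MulAut N) :
    Finite (N ⋊[φ] G) :=
  Finite.of_equiv _ SemidirectProduct.equivProd.symm

theorem est (p w : ℕ) [Fact p.Prime] {H : Type} [Group H] [Finite H] (f : H →* WW p w) (hf : Function.Surjective f)
    (zH : H) (hz : ∀ x, zH * x = x * zH) (hfz : f zH = 1) (ν : ℂ) (ε : H →* ℤˣ) (hεz : ε zH = 1)
    (Q : Fin (w + 1) → Type) [∀ v, Group (Q v)] [∀ v, Finite (Q v)] (inc : ∀ v, Q v →* H)
    (hinj : ∀ v, Function.Injective (inc v)) (hrange : ∀ v x, x ∈ (inc v).range ↔ StabV (v : ℕ) (f x))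
    (zQ : ∀ v, Q v) (hzQ : ∀ v, inc v (zQ v) = zH)
    (hcard : ∀ v : Fin (w + 1), Nat.card H = (p - 1) ^ (v : ℕ) * w.choose v * Nat.card (Q v))
    (L : Fin (w + 1) → Type) (tw : ∀ v, L v → L v) (dg : ∀ v, L v → ℕ)
    (hlab : ∀ v, Nonempty (Lab (Q v) (ε.comp (inc v)) (zQ v) ν (L v) (tw v) (dg v))) :
    Nonempty (Lab (EE p w ⋊[(actE p w).comp f] H) (ε.comp SemidirectProduct.rightHom) (SemidirectProduct.inr zH) ν
      (Σ v, L v) (Sigma.map id tw) fun s => (p - 1) ^ (s.1 : ℕ) * w.choose s.1 * dg s.1 s.2) := by
  classical
  have hfinX : Finite (EE p w ⋊[(actE p w).comp f] H) := fin_sd _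
  have hfinG : ∀ v, Finite (EE p w ⋊[(actE p w).comp (f.comp (inc v))] Q v) := fun v => fin_sd _
  -- the normal subgroup
  let D : ANS (EE p w ⋊[(actE p w).comp f] H) (EE p w) :=
    { j := SemidirectProduct.inl
      inj := SemidirectProduct.inl_injective
      norm := fun x a => ⟨((actE p w).comp f) x.right a, (conj_inl _ x a).symm⟩ }
  have hrel : ∀ (x : EE p w ⋊[(actE p w).comp f] H) (t t' : Fin w → ZMod p),
      D.Rel x (lamE p w t) (lamE p w t') ↔
        ∀ i, t' ((f x.right).right i) * ((f x.right).left ((f x.right).right i) : ZMod p) = t i := by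
    intro x t t'
    constructor
    · intro h
      have h1 : lamE p w (fun i => t' ((f x.right).right i) *
          ((f x.right).left ((f x.right).right i) : ZMod p)) = lamE p w t := by
        refine MonoidHom.ext fun e => ?_
        rw [← lamE_act]
        exact h e _ (conj_inl _ x e).symm
      exact fun i => congrFun ((lamE_bij p w).1 h1) i
    · intro h a a' haa
      have h1 : a' = actE p w (f x.right) a := by
        apply SemidirectProduct.inl_injective (φ := (actE p w).comp f)
        exact haa.trans (conj_inl _ x a)
      rw [h1, lamE_act]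
      congr 1
      congr 1
      exact funext h
  have hstab : ∀ v (k : Q v), StabV (v : ℕ) (f (inc v k)) := fun v k => (hrange v _).1 ⟨k, rfl⟩
  -- the extension
  have hcompat : ∀ (v : Fin (w + 1)) (k : Q v),
      (lamE p w (delta p w v)).comp (((actE p w).comp (f.comp (inc v))) k).toMonoidHom =
        (MulAut.conj ((1 : Q v →* ℂˣ) k)).toMonoidHom.comp (lamE p w (delta p w v)) := by
    intro v k
    refine MonoidHom.ext fun e => ?_
    change lamE p w (delta p w v) (actE p w (f (inc v k)) e) =
      1 * lamE p w (delta p w v) e * (1 : ℂˣ)⁻¹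
    rw [lamE_act, one_mul, inv_one, mul_one]
    congr 1
    congr 1
    exact funext fun i => (stab_delta p w v (f (inc v k))).2 (hstab v k) i
  let incG : ∀ v : Fin (w + 1), EE p w ⋊[(actE p w).comp (f.comp (inc v))] Q v →*
      EE p w ⋊[(actE p w).comp f] H := fun v =>
    SemidirectProduct.map (MonoidHom.id _) (inc v) (by
      intro g
      rfl)
  have hincl : ∀ v g, (incG v g).left = g.left := fun v g => rfl
  have hincr : ∀ v g, (incG v g).right = inc v g.right := fun v g => rfl
  let P : ∀ v : Fin (w + 1), Piece D (SemidirectProduct.inr zH) ν (lamE p w (delta p w v))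
      (EE p w ⋊[(actE p w).comp (f.comp (inc v))] Q v) (Q v) := fun v =>
    { inc := incG v
      inj := by
        intro g g' h
        apply SemidirectProduct.ext
        · exact congrArg (fun y => y.left) h
        · exact hinj v (congrArg (fun y => y.right) h)
      range := by
        intro x
        rw [hrel, stab_delta, ← hrange]
        constructor
        · rintro ⟨g, rfl⟩
          exact ⟨g.right, rfl⟩
        · rintro ⟨k, hk⟩
          refine ⟨⟨x.left, k⟩, ?_⟩
          apply SemidirectProduct.ext
          · rfl
          · exact hk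
      q := SemidirectProduct.rightHom
      surj := SemidirectProduct.rightHom_surjective
      lh := SemidirectProduct.lift (lamE p w (delta p w v)) 1 (hcompat v)
      gz := SemidirectProduct.inr (zQ v)
      inc_gz := by
        apply SemidirectProduct.ext
        · rfl
        · exact hzQ v
      lh_gz := by
        rw [SemidirectProduct.lift_inr]
        rfl
      hA := by
        intro g a h
        left
        have h1 : g.left = a := congrArg (fun y => y.left) h
        have h2 : inc v g.right = 1 := congrArg (fun y => y.right) h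
        have h3 : g.right = 1 := hinj v (by rw [h2, map_one])
        refine ⟨h3, ?_⟩
        change lamE p w (delta p w v) g.left * 1 = _
        rw [h1, mul_one]
      hker := by
        intro g h
        refine ⟨g.left, ?_, ?_⟩
        · apply SemidirectProduct.ext
          · rfl
          · have h1 : g.right = 1 := h
            change inc v g.right = 1
            rw [h1, map_one]
        · change lamE p w (delta p w v) g.left * 1 = _
          rw [mul_one] }
  refine ccl_simple D (SemidirectProduct.inr zH) ?_ ν (ε.comp SemidirectProduct.rightHom) ?_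
    (Fin (w + 1)) (fun v => lamE p w (delta p w v)) _ Q P L dg tw (fun v => ε.comp (inc v))
    (fun v g => rfl) ?_ hlab (fun v => (p - 1) ^ (v : ℕ) * w.choose v) ?_ ?_ ?_
  · intro x
    apply SemidirectProduct.ext
    · rw [SemidirectProduct.mul_left, SemidirectProduct.mul_left]
      change 1 * (actE p w (f zH)) x.left = x.left * ((actE p w (f x.right)) 1)
      rw [hfz, map_one, map_one, one_mul, mul_one]
      rfl
    · exact hz x.right
  · exact hεz
  · intro a
    change ε 1 = 1
    exact map_one ε
  · intro v
    rw [SemidirectProduct.card, SemidirectProduct.card, hcard v]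
    ring
  · intro v v' x h
    rw [hrel] at h
    exact (delta_inj p w v' v (f x.right) h).symm
  · intro mu _
    obtain ⟨t, rfl⟩ := (lamE_bij p w).2 mu
    obtain ⟨v, y, hy⟩ := exists_delta p w t
    obtain ⟨h, rfl⟩ := hf y
    refine ⟨v, SemidirectProduct.inr h, ?_⟩
    rw [hrel]
    exact hy

end Pool.Agent.Helper24.LOC
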