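import Pool.Agent.Helper24.LOC.TFib
import Pool.Agent.Helper24.LOC.CDefs

/-!
T02 Char: the linear characters of `I → K` and the piece of a colouring.

PROOFS. `chiOf_inj`: evaluate at `Pi.mulSingle i k`: `∏ j, g j (Pi.mulSingle i k j) = g i k` (`Fintype.prod_eq_single`).
`chiOf_surj`: `g i = mu.comp (MonoidHom.mulSingle ..)`; `u = ∏ i, Pi.mulSingle i (u i)` (`Finset.univ_prod_mulSingle`), `map_prod`.
`chiOf_arrow`: `Equiv.prod_comp σ` (`σ⁻¹ (σ i) = i`).
`ansT`: `inl` is injective and normal: `x * inl a * x⁻¹ = inl (x.left * (x.right acting on a) * x.left⁻¹)`.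
`relT`: `x (inl a) x⁻¹ = inl (arrow x.right a)` (`K` is commutative), so `Rel x (chiOf g) (chiOf h)` says
`chiOf h (arrow x.right a) = chiOf g a` for all `a`, i.e. `h (σ i) = g i` (`chiOf_arrow`, `chiOf_inj`).
`pieceT`: injectivity from `fib_inj`; range: `relT`, `fib_range`, `θ` injective; `hA`: if `incF g = inl a` then `fib f g.right = 1`, so
`g.right = 1` and `g.left = a`, `lhF g = chiOf .. a` (first alternative); `hker`: the same computation.
-/

set_option autoImplicit false

open Equiv

namespace Pool.Agent.Helper24.LOC

open Pool.Agent.Helper81.AN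

variable {K I : Type} [CommGroup K] [Fintype I] [DecidableEq I]

private theorem tc_single (g : I → (K →* ℂˣ)) (i : I) (k : K) :
    chiOf g (Pi.mulSingle i k) = g i k := by
  change ∏ j, g j ((Pi.mulSingle i k : I → K) j) = g i k
  rw [Fintype.prod_eq_single i fun j hj => by rw [Pi.mulSingle_eq_of_ne hj, map_one],
    Pi.mulSingle_eq_same]

theorem chiOf_inj {g h : I → (K →* ℂˣ)} (hgh : chiOf g = chiOf h) : g = h := by
  funext i
  refine MonoidHom.ext fun k => ?_
  rw [← tc_single g i k, ← tc_single h i k, hgh]

theorem chiOf_surj (mu : (I → K) →* ℂˣ) : ∃ g : I → (K →* ℂˣ), chiOf g = mu := by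
  refine ⟨fun i => mu.comp (MonoidHom.mulSingle (fun _ => K) i), ?_⟩
  refine MonoidHom.ext fun u => ?_
  change ∏ i, mu (Pi.mulSingle i (u i)) = mu u
  rw [← map_prod, Finset.univ_prod_mulSingle]

theorem chiOf_arrow (g : I → (K →* ℂˣ)) (σ : Perm I) (u : I → K) :
    chiOf g (mulAutArrow (G := Perm I) (M := K) σ u) = chiOf (fun i => g (σ i)) u := by
  change ∏ i, g i (u (σ⁻¹ i)) = ∏ i, g (σ i) (u i)
  rw [← Equiv.prod_comp σ]
  refine Finset.prod_congr rfl fun i _ => ?_
  have h1 : σ⁻¹ (σ i) = i := by simp
  rw [h1]

omit [Fintype I] [DecidableEq I] in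
private theorem tc_conj (x : WWt K I) (a : I → K) :
    x * SemidirectProduct.inl a * x⁻¹ =
      SemidirectProduct.inl (mulAutArrow (G := Perm I) (M := K) x.right a) := by
  have h1 : x = SemidirectProduct.inl x.left * SemidirectProduct.inr x.right :=
    (SemidirectProduct.inl_left_mul_inr_right x).symm
  conv_lhs => rw [h1]
  rw [SemidirectProduct.inl_aut, mul_inv_rev]
  calc SemidirectProduct.inl x.left * SemidirectProduct.inr x.right * SemidirectProduct.inl a *
        ((SemidirectProduct.inr x.right)⁻¹ * (SemidirectProduct.inl x.left)⁻¹)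
      = SemidirectProduct.inl x.left * (SemidirectProduct.inr x.right * SemidirectProduct.inl a *
          SemidirectProduct.inr x.right⁻¹) * (SemidirectProduct.inl x.left)⁻¹ := by
        rw [map_inv]
        simp only [mul_assoc]
    _ = SemidirectProduct.inl x.left *
          SemidirectProduct.inl (mulAutArrow (G := Perm I) (M := K) x.right a) *
          (SemidirectProduct.inl x.left)⁻¹ := by
        rw [← SemidirectProduct.inl_aut]
    _ = SemidirectProduct.inl (mulAutArrow (G := Perm I) (M := K) x.right a) := by
        rw [← map_inv, ← map_mul, ← map_mul, mul_comm x.left, mul_inv_cancel_right]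
    _ = SemidirectProduct.inr x.right * SemidirectProduct.inl a *
          SemidirectProduct.inr x.right⁻¹ := by
        rw [SemidirectProduct.inl_aut]

/-- the base group -/
def ansT (K I : Type) [CommGroup K] : ANS (WWt K I) (I → K) where
  j := SemidirectProduct.inl
  inj := SemidirectProduct.inl_injective
  norm := by
    intro x a
    exact ⟨_, (tc_conj x a).symm⟩

theorem relT (x : WWt K I) (g h : I → (K →* ℂˣ)) :
    (ansT K I).Rel x (chiOf g) (chiOf h) ↔ ∀ i, h (x.right i) = g i := by
  constructor
  · intro hR
    have h1 : chiOf (fun i => h (x.right i)) = chiOf g := by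
      refine MonoidHom.ext fun a => ?_
      rw [← chiOf_arrow]
      exact hR a _ (tc_conj x a).symm
    exact fun i => congrFun (chiOf_inj h1) i
  · intro hR a a' haa
    have h1 : a' = mulAutArrow (G := Perm I) (M := K) x.right a := by
      apply SemidirectProduct.inl_injective (φ := mulAutArrow (G := Perm I) (M := K))
      rw [← tc_conj x a]
      exact haa
    rw [h1, chiOf_arrow]
    congr 1
    congr 1
    funext i
    exact hR i

/-- the piece of a colouring -/
def pieceT {C : Type} [Fintype C] [DecidableEq C] (θ : C → (K →* ℂˣ)) (hθ : Function.Injective θ) (f : I → C) :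
    Piece (ansT K I) (1 : WWt K I) 1 (chiOf fun i => θ (f i)) (WWf f K) (∀ c, Perm {i // f i = c}) where
  inc := incF f K
  inj := by
    intro a b hab
    have h1 := congrArg SemidirectProduct.left hab
    have h2 := congrArg SemidirectProduct.right hab
    exact SemidirectProduct.ext h1 (fib_inj f h2)
  range := by
    intro x
    rw [relT]
    constructor
    · rintro ⟨g, rfl⟩ i
      exact congrArg θ ((fib_range f _).1 ⟨g.right, rfl⟩ i)
    · intro h
      obtain ⟨g, hg⟩ := (fib_range f x.right).2 fun i => hθ (h i)
      exact ⟨⟨x.left, g⟩, SemidirectProduct.ext rfl hg⟩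
  q := SemidirectProduct.rightHom
  surj := SemidirectProduct.rightHom_surjective
  lh := lhF f θ
  gz := 1
  inc_gz := map_one _
  lh_gz := map_one _
  hA := by
    intro g a hga
    left
    have h1 : fib f g.right = 1 := congrArg SemidirectProduct.right hga
    have h2 : g.left = a := congrArg SemidirectProduct.left hga
    refine ⟨?_, ?_⟩
    · change g.right = 1
      apply fib_inj f
      rw [h1, map_one]
    · rw [lhF_apply, h2]
      rfl
  hker := by
    intro g hg
    have h1 : g.right = 1 := hg
    refine ⟨g.left, ?_, ?_⟩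
    · refine SemidirectProduct.ext rfl ?_
      change fib f g.right = 1
      rw [h1, map_one]
    · rw [lhF_apply]
      rfl

end Pool.Agent.Helper24.LOC
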