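import Pool.Agent.Helper81.AN.Defs

/-!
# Project AN (MP_5ecade_al), local half: wreath products, definitions

* `WWt K I = (I → K) : Perm I` (so `WW p w = WWt (ZMod p)ˣ (Fin w)`).
* `fib f : (∀ c, Perm {i // f i = c}) → Perm I`: permutations which preserve the colouring `f`.
* `WWf K f`: the part of `WWt K I` over it.
* `chiOf g u = ∏ g i (u i)`: the linear characters of `I → K`.
* `epsT η (u, σ) = ∏ η (u i) * sign σ`.
* `LabW C n`: families of partitions indexed by `C` of total size `n`.
-/

set_option autoImplicit false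

open Equiv

namespace Pool.Agent.Helper24.LOC

open Pool.Agent.Helper81.AN

/-- the wreath product -/
abbrev WWt (K I : Type) [Group K] : Type := (I → K) ⋊[mulAutArrow (G := Perm I) (M := K)] Perm I

section Fib

variable {I C : Type} (f : I → C)

theorem fib_aux (g : ∀ c, Perm {i // f i = c}) {i : I} {c : C} (h : f i = c) :
    (g (f i) ⟨i, rfl⟩).1 = (g c ⟨i, h⟩).1 := by
  subst h
  rfl

/-- permutations of the fibres -/
def fib : (∀ c, Perm {i // f i = c}) →* Perm I where
  toFun g :=
    { toFun := fun i => (g (f i) ⟨i, rfl⟩).1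
      invFun := fun i => (g⁻¹ (f i) ⟨i, rfl⟩).1
      left_inv := fun i => by
        have h1 : f (g (f i) ⟨i, rfl⟩).1 = f i := (g (f i) ⟨i, rfl⟩).2
        refine (fib_aux f g⁻¹ h1).trans ?_
        simp
      right_inv := fun i => by
        have h1 : f (g⁻¹ (f i) ⟨i, rfl⟩).1 = f i := (g⁻¹ (f i) ⟨i, rfl⟩).2
        refine (fib_aux f g h1).trans ?_
        simp }
  map_one' := by
    ext i
    rfl
  map_mul' g h := by
    ext i
    change (g (f i) (h (f i) ⟨i, rfl⟩)).1 = (g (f (h (f i) ⟨i, rfl⟩).1) ⟨(h (f i) ⟨i, rfl⟩).1, rfl⟩).1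
    have h1 : f (h (f i) ⟨i, rfl⟩).1 = f i := (h (f i) ⟨i, rfl⟩).2
    rw [fib_aux f g h1]

theorem fib_apply (g : ∀ c, Perm {i // f i = c}) (i : I) : fib f g i = (g (f i) ⟨i, rfl⟩).1 := rfl

theorem fib_apply' (g : ∀ c, Perm {i // f i = c}) {i : I} {c : C} (h : f i = c) :
    fib f g i = (g c ⟨i, h⟩).1 := fib_aux f g h

/-- the part of the wreath product which preserves the colouring -/
abbrev WWf (K : Type) [Group K] : Type :=
  (I → K) ⋊[(mulAutArrow (G := Perm I) (M := K)).comp (fib f)] (∀ c, Perm {i // f i = c})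

/-- the inclusion -/
def incF (K : Type) [Group K] : WWf f K →* WWt K I :=
  SemidirectProduct.map (MonoidHom.id _) (fib f) (by
    intro g
    rfl)

theorem incF_left (K : Type) [Group K] (x : WWf f K) : (incF f K x).left = x.left := rfl

theorem incF_right (K : Type) [Group K] (x : WWf f K) : (incF f K x).right = fib f x.right := rfl

end Fib

section Char

variable {K I : Type} [CommGroup K] [Fintype I]

omit [Fintype I] in
theorem arrow_apply (σ : Perm I) (u : I → K) (i : I) :
    (mulAutArrow (G := Perm I) (M := K) σ u) i = u (σ⁻¹ i) := rfl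

/-- the linear characters of `I → K` -/
def chiOf (g : I → (K →* ℂˣ)) : (I → K) →* ℂˣ where
  toFun u := ∏ i, g i (u i)
  map_one' := by simp
  map_mul' u v := by
    simp only [Pi.mul_apply, map_mul]
    exact Finset.prod_mul_distrib

/-- the product of signs -/
def etaP (η : K →* ℤˣ) : (I → K) →* ℤˣ where
  toFun u := ∏ i, η (u i)
  map_one' := by simp
  map_mul' u v := by
    simp only [Pi.mul_apply, map_mul]
    exact Finset.prod_mul_distrib

theorem etaP_arrow (η : K →* ℤˣ) (σ : Perm I) (u : I → K) :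
    etaP η (mulAutArrow (G := Perm I) (M := K) σ u) = etaP η u := by
  change ∏ i, η (u (σ⁻¹ i)) = ∏ i, η (u i)
  exact Equiv.prod_comp σ⁻¹ fun i => η (u i)

/-- the sign of the wreath product -/
def epsT [DecidableEq I] (η : K →* ℤˣ) : WWt K I →* ℤˣ :=
  SemidirectProduct.lift (etaP η) Perm.sign (by
    intro σ
    refine MonoidHom.ext fun u => ?_
    change etaP η (mulAutArrow (G := Perm I) (M := K) σ u) = Perm.sign σ * etaP η u * (Perm.sign σ)⁻¹
    rw [etaP_arrow, mul_comm, inv_mul_cancel_left])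

theorem epsT_apply [DecidableEq I] (η : K →* ℤˣ) (x : WWt K I) :
    epsT η x = (∏ i, η (x.left i)) * Perm.sign x.right := rfl

theorem chiOf_fib {C : Type} (f : I → C) (θ : C → (K →* ℂˣ)) (g : ∀ c, Perm {i // f i = c}) (u : I → K) :
    chiOf (fun i => θ (f i)) (mulAutArrow (G := Perm I) (M := K) (fib f g) u) = chiOf (fun i => θ (f i)) u := by
  change ∏ i, θ (f i) (u ((fib f g)⁻¹ i)) = ∏ i, θ (f i) (u i)
  rw [← Equiv.prod_comp (fib f g)]
  refine Finset.prod_congr rfl fun i _ => ?_
  have h1 : (fib f g)⁻¹ (fib f g i) = i := by simp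
  have h2 : f (fib f g i) = f i := (g (f i) ⟨i, rfl⟩).2
  rw [h1, h2]

/-- the extension of a linear character of `I → K` to its stabilizer -/
def lhF {C : Type} (f : I → C) (θ : C → (K →* ℂˣ)) : WWf f K →* ℂˣ :=
  SemidirectProduct.lift (chiOf fun i => θ (f i)) 1 (by
    intro g
    refine MonoidHom.ext fun u => ?_
    change chiOf (fun i => θ (f i)) (mulAutArrow (G := Perm I) (M := K) (fib f g) u) =
      1 * chiOf (fun i => θ (f i)) u * (1 : ℂˣ)⁻¹
    rw [chiOf_fib, one_mul, inv_one, mul_one])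

theorem lhF_apply {C : Type} (f : I → C) (θ : C → (K →* ℂˣ)) (x : WWf f K) :
    lhF f θ x = ∏ i, θ (f i) (x.left i) := by
  change (∏ i, θ (f i) (x.left i)) * 1 = _
  rw [mul_one]

end Char

/-! ### labels -/

/-- families of partitions of total size `n` -/
def LabW (C : Type) [Fintype C] (n : ℕ) : Type := {κ : C → P0 // ∑ c, (κ c).size = n}

/-- the twist -/
def LabW.tw {C : Type} [Fintype C] {n : ℕ} (s : Perm C) (κ : LabW C n) : LabW C n :=
  ⟨fun c => (κ.1 (s c)).conj, by
    simp only [P0.size_conj]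
    rw [Equiv.sum_comp s fun c => (κ.1 c).size]
    exact κ.2⟩

/-- the degree -/
noncomputable def LabW.dg {C : Type} [Fintype C] {n : ℕ} (κ : LabW C n) : ℕ :=
  Nat.multinomial Finset.univ (fun c => (κ.1 c).size) * ∏ c, (κ.1 c).f

end Pool.Agent.Helper24.LOC
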