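import Pool.Agent.Helper24.LOC.TDefs

/-!
T01 Fib: permutations which preserve a colouring, contents.

PROOFS. `fib_inj`: `fib_apply'`. `fib_range`: for `σ` with `f (σ i) = f i` take `g c = σ.subtypePerm ..` (`f (σ i) = c ↔ f i = c`).
`card_fib`: `Nat.card_pi`, `Nat.card_perm`/`Fintype.card_perm`. `exists_colouring`: `∑ c, n c = card I` gives an equivalence
`I ≃ Σ c, Fin (n c)` (`Fintype.equivOfCardEq`), `f` = its first component; `Equiv.sigmaFiberEquiv`-type facts or a direct bijection
`{i // f i = c} ≃ Fin (n c)`. `exists_perm_of_content`: equivalences of the fibres and `Equiv.ofFiberEquiv` (`Equiv.ofFiberEquiv_map`).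
`sum_card_fib`: `Fintype.card_sigma`, `Equiv.sigmaFiberEquiv`. `sign_fib`: `fib f g` is conjugate by `Equiv.sigmaFiberEquiv f` to
`Equiv.Perm.sigmaCongrRight g` (`Equiv.Perm.sign_permCongr`), and `sign (sigmaCongrRight g) = ∏ sign (g c)`; this last fact: see the sign
lemma in `Helper24/AN/QRear` if it is there (copy), or: `g ↦ sign (fib f g)` is a homomorphism, `g` is the product of the
`Pi.mulSingle c (g c)` (`Finset.noncommProd` or induction over a finset of colours with `Function.update`), and for one colour the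
permutation is `Equiv.Perm.ofSubtype (g c)` (`Equiv.Perm.sign_ofSubtype`).
-/

set_option autoImplicit false

open Equiv

namespace Pool.Agent.Helper24.LOC

open Pool.Agent.Helper81.AN

variable {I C : Type}

theorem fib_inj (f : I → C) : Function.Injective (fib f) := by
  intro g h hgh
  funext c
  refine Equiv.ext fun x => Subtype.ext ?_
  obtain ⟨i, hi⟩ := x
  rw [← fib_apply' f g hi, ← fib_apply' f h hi, hgh]

theorem fib_range (f : I → C) (σ : Perm I) : σ ∈ (fib f).range ↔ ∀ i, f (σ i) = f i := by
  constructor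
  · rintro ⟨g, rfl⟩ i
    exact (g (f i) ⟨i, rfl⟩).2
  · intro h
    refine ⟨fun c => σ.subtypePerm (p := fun i => f i = c) (fun i => by rw [h i]), ?_⟩
    refine Equiv.ext fun i => ?_
    rw [fib_apply]
    rfl

variable [Fintype I] [DecidableEq I] [Fintype C] [DecidableEq C]

theorem card_fib (f : I → C) :
    Nat.card (∀ c, Perm {i // f i = c}) = ∏ c, (Fintype.card {i // f i = c}).factorial := by
  rw [Nat.card_pi]
  refine Finset.prod_congr rfl fun c _ => ?_
  rw [Nat.card_eq_fintype_card, Fintype.card_perm]

theorem exists_colouring (n : C → ℕ) (h : ∑ c, n c = Fintype.card I) :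
    ∃ f : I → C, ∀ c, Fintype.card {i // f i = c} = n c := by
  have hcard : Fintype.card I = Fintype.card (Σ c, Fin (n c)) := by
    rw [Fintype.card_sigma, ← h]
    exact Finset.sum_congr rfl fun c _ => (Fintype.card_fin _).symm
  let e : I ≃ Σ c, Fin (n c) := Fintype.equivOfCardEq hcard
  refine ⟨fun i => (e i).1, fun c => ?_⟩
  have e2 : {i // (e i).1 = c} ≃ Fin (n c) :=
    (e.subtypeEquiv (q := fun x : (Σ c, Fin (n c)) => x.1 = c) fun i => Iff.rfl).trans
      (Equiv.sigmaSubtype (β := fun c => Fin (n c)) c)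
  rw [Fintype.card_congr e2, Fintype.card_fin]

theorem exists_perm_of_content (f g : I → C)
    (h : ∀ c, Fintype.card {i // f i = c} = Fintype.card {i // g i = c}) : ∃ τ : Perm I, ∀ i, f (τ i) = g i := by
  refine ⟨Equiv.ofFiberEquiv (f := g) (g := f) fun c => Fintype.equivOfCardEq (h c).symm, fun i => ?_⟩
  exact Equiv.ofFiberEquiv_map _ i

theorem content_perm (f : I → C) (τ : Perm I) (c : C) :
    Fintype.card {i // f (τ i) = c} = Fintype.card {i // f i = c} :=
  Fintype.card_congr (τ.subtypeEquiv (p := fun i => f (τ i) = c) (q := fun i => f i = c) fun _ => Iff.rfl)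

theorem sum_card_fib (f : I → C) : ∑ c, Fintype.card {i // f i = c} = Fintype.card I := by
  rw [← Fintype.card_sigma]
  exact Fintype.card_congr (Equiv.sigmaFiberEquiv f)

private theorem fib_single (f : I → C) (c : C) (x : Perm {i // f i = c}) :
    fib f (Pi.mulSingle c x) = Perm.ofSubtype x := by
  refine Equiv.ext fun i => ?_
  by_cases h : f i = c
  · rw [fib_apply' f _ h, Perm.ofSubtype_apply_of_mem x h, Pi.mulSingle_eq_same]
  · rw [fib_apply, Perm.ofSubtype_apply_of_not_mem x h, Pi.mulSingle_eq_of_ne h]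
    rfl

theorem sign_fib (f : I → C) (g : ∀ c, Perm {i // f i = c}) : Perm.sign (fib f g) = ∏ c, Perm.sign (g c) := by
  let φ : (∀ c, Perm {i // f i = c}) →* ℤˣ :=
    { toFun := fun g => ∏ c, Perm.sign (g c)
      map_one' := by simp
      map_mul' := fun g h => by
        simp only [Pi.mul_apply, Perm.sign_mul]
        exact Finset.prod_mul_distrib }
  have key : Perm.sign.comp (fib f) = φ := by
    refine MonoidHom.pi_ext fun c x => ?_
    rw [MonoidHom.comp_apply, fib_single, Perm.sign_ofSubtype]
    change Perm.sign x = ∏ c', Perm.sign ((Pi.mulSingle c x : ∀ c, Perm {i // f i = c}) c')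
    rw [Finset.prod_eq_single c]
    · rw [Pi.mulSingle_eq_same]
    · intro c' _ hc'
      rw [Pi.mulSingle_eq_of_ne hc', Perm.sign_one]
    · intro hc
      exact absurd (Finset.mem_univ c) hc
  exact DFunLike.congr_fun key g

end Pool.Agent.Helper24.LOC
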