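import Pool.Agent.Helper24.LOC.UDefs

/-!
U01 Cl: facts about `clMap` and the support.

Notation: `sp c i = Multiplicative.toAdd (Cl.supp c) i : ZMod 2` (see `Helper81/AN/ClCard`: `Cl.supp`, `Cl.ind`, `Cl.nf`, `Cl.ker_supp`,
`Cl.eq_of_supp'`, `Cl.supp_surjective`, `Cl.toAdd_supp_mul`, `Cl.supp_act`, `Cl.z_ne_one`).

PROOFS. `sp_clMap`: both sides are homomorphisms in `c` (to `ZMod 2`); check on `z` (`0`) and on `a j` (`f j = f i` iff `j = i`), or
`Cl.ind`. `sp_clMap_not`: in the same way for a point which is not in the image. `clMap_inj`: if `clMap c = 1` then `supp c = 1` by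
`sp_clMap`, so `c = 1` or `c = z` (`Cl.ker_supp`), and `clMap z = z ≠ 1` (`Cl.z_ne_one`). `clMap_range`: if the support of `c` is in `B`, choose
`c' : Cl B` with `sp c' b = sp c (inl b)` (`Cl.supp_surjective`); `clMap c'` and `c` have the same support, so they differ by `1` or `z`
(`Cl.eq_of_supp'`), and `z = clMap z`. `exists_sp`: `Cl.supp_surjective`. `act_omg`: both sides: `c ↦ (Cl.act x c) * c⁻¹` for
`x = hU (1, inl k)`; `x.right = 1` (`h0 1 = 1`, `sumCongr 1 1 = 1`), `x.left (inl b) = 1`, `x.left (inr i) = η (k i)`, so `a (inl b) ↦ a (inl b)`,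
`a (inr i) ↦ Cl.u (η (k i)) * a (inr i)`. Use the induction principle `Cl.ind` (or `Cl.hom_ext` for the two homomorphisms
`Cl.act x` and `c ↦ Cl.u (omg c k) * c`; `omg` is multiplicative in `c` because of `Cl.toAdd_supp_mul` and `(η (k i))^2 = 1`).
-/

set_option autoImplicit false

open Equiv

namespace Pool.Agent.Helper24.LOC

open Pool.Agent.Helper81.AN Pool.Agent.Helper41.SST

/-- the support -/
def sp {ι : Type} [DecidableEq ι] (c : Cl ι) (i : ι) : ZMod 2 := Multiplicative.toAdd (Cl.supp c) i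

private theorem sp_one' {ι : Type} [DecidableEq ι] (i : ι) : sp (1 : Cl ι) i = 0 := Cl.toAdd_supp_one i

private theorem sp_z' {ι : Type} [DecidableEq ι] (i : ι) : sp (Cl.z : Cl ι) i = 0 := Cl.toAdd_supp_z i

private theorem sp_a' {ι : Type} [DecidableEq ι] (i j : ι) : sp (Cl.a i : Cl ι) j = if j = i then 1 else 0 :=
  Cl.toAdd_supp_a i j

private theorem sp_mul' {ι : Type} [DecidableEq ι] (c d : Cl ι) (i : ι) : sp (c * d) i = sp c i + sp d i :=
  Cl.toAdd_supp_mul c d i

private theorem supp_ext' {ι : Type} [DecidableEq ι] {c d : Cl ι} (h : ∀ i, sp c i = sp d i) :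
    Cl.supp c = Cl.supp d := by
  apply Multiplicative.toAdd.injective
  funext i
  exact h i

theorem sp_clMap {ι ι' : Type} [DecidableEq ι] [DecidableEq ι'] (f : ι → ι') (hf : Function.Injective f) (c : Cl ι)
    (i : ι) : sp (clMap f hf c) (f i) = sp c i := by
  induction c using Cl.ind with
  | h1 => rw [map_one, sp_one', sp_one']
  | hz g hg => rw [map_mul, clMap_z, sp_mul', sp_mul', sp_z', sp_z', hg]
  | ha j g hg =>
    rw [map_mul, clMap_a, sp_mul', sp_mul', sp_a', sp_a', hg]
    simp only [hf.eq_iff]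

theorem sp_clMap_not {ι ι' : Type} [DecidableEq ι] [DecidableEq ι'] (f : ι → ι') (hf : Function.Injective f)
    (c : Cl ι) (i' : ι') (h : ∀ i, f i ≠ i') : sp (clMap f hf c) i' = 0 := by
  induction c using Cl.ind with
  | h1 => rw [map_one, sp_one']
  | hz g hg => rw [map_mul, clMap_z, sp_mul', sp_z', hg, add_zero]
  | ha j g hg =>
    rw [map_mul, clMap_a, sp_mul', sp_a', hg, if_neg (h j).symm, add_zero]

theorem clMap_inj {ι ι' : Type} (f : ι → ι') (hf : Function.Injective f) : Function.Injective (clMap f hf) := by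
  classical
  rw [injective_iff_map_eq_one]
  intro c hc
  have h1 : Cl.supp c = 1 := by
    rw [← map_one (Cl.supp : Cl ι →* Multiplicative (ι → ZMod 2))]
    apply supp_ext'
    intro i
    rw [← sp_clMap f hf c i, hc, sp_one', sp_one']
  rcases Cl.ker_supp c h1 with h2 | h2
  · exact h2
  · rw [h2, clMap_z] at hc
    exact absurd hc Cl.z_ne_one

theorem clMap_range {B U : Type} [Fintype B] [Fintype U] [DecidableEq B] [DecidableEq U] (c : Cl (B ⊕ U)) :
    c ∈ (clMap (Sum.inl : B → B ⊕ U) Sum.inl_injective).range ↔ ∀ i : U, sp c (Sum.inr i) = 0 := by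
  constructor
  · rintro ⟨c', rfl⟩ i
    exact sp_clMap_not _ _ _ _ fun b => Sum.inl_ne_inr
  · intro h
    obtain ⟨c', hc'⟩ := Cl.supp_surjective (ι := B) (Multiplicative.ofAdd fun b => sp c (Sum.inl b))
    have h1 : ∀ b, sp c' b = sp c (Sum.inl b) := by
      intro b
      unfold sp
      rw [hc']
      rfl
    have h2 : Cl.supp c = Cl.supp (clMap (Sum.inl : B → B ⊕ U) Sum.inl_injective c') := by
      apply supp_ext'
      intro q
      rcases q with b | i
      · rw [sp_clMap, h1]
      · rw [h, sp_clMap_not _ _ _ _ fun b => Sum.inl_ne_inr]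
    obtain ⟨e, he⟩ := Cl.eq_of_supp' h2
    rcases Cl.z2cases e with rfl | rfl
    · rw [Cl.zp_zero, one_mul] at he
      exact ⟨c', he.symm⟩
    · rw [Cl.zp_one] at he
      refine ⟨Cl.z * c', ?_⟩
      rw [map_mul, clMap_z, he]

theorem exists_sp {B U : Type} [Fintype B] [Fintype U] [DecidableEq B] [DecidableEq U] (b : U → ZMod 2) :
    ∃ c : Cl (B ⊕ U), ∀ i : U, sp c (Sum.inr i) = b i := by
  obtain ⟨c, hc⟩ := Cl.supp_surjective (ι := B ⊕ U)
    (Multiplicative.ofAdd fun q : B ⊕ U => q.elim (fun _ => 0) b)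
  refine ⟨c, fun i => ?_⟩
  unfold sp
  rw [hc]
  rfl

/-- the sign in the commutation of `c` with `k` -/
def omg {B U K : Type} [Group K] [Fintype U] [DecidableEq B] [DecidableEq U] (η : K →* ℤˣ) (c : Cl (B ⊕ U))
    (k : U → K) : ℤˣ := ∏ i : U, if sp c (Sum.inr i) = 0 then 1 else η (k i)

private theorem omg_one' {B U K : Type} [Group K] [Fintype U] [DecidableEq B] [DecidableEq U] (η : K →* ℤˣ)
    (k : U → K) : omg η (1 : Cl (B ⊕ U)) k = 1 := by
  unfold omg
  exact Finset.prod_eq_one fun i _ => if_pos (sp_one' _)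

private theorem omg_z' {B U K : Type} [Group K] [Fintype U] [DecidableEq B] [DecidableEq U] (η : K →* ℤˣ)
    (k : U → K) : omg η (Cl.z : Cl (B ⊕ U)) k = 1 := by
  unfold omg
  exact Finset.prod_eq_one fun i _ => if_pos (sp_z' _)

private theorem omg_mul' {B U K : Type} [Group K] [Fintype U] [DecidableEq B] [DecidableEq U] (η : K →* ℤˣ)
    (k : U → K) (c d : Cl (B ⊕ U)) : omg η (c * d) k = omg η c k * omg η d k := by
  unfold omg
  rw [← Finset.prod_mul_distrib]
  refine Finset.prod_congr rfl fun i _ => ?_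
  rw [sp_mul']
  have h2 : (1 + 1 : ZMod 2) = 0 := by decide
  rcases Cl.z2cases (sp c (Sum.inr i)) with h | h <;> rcases Cl.z2cases (sp d (Sum.inr i)) with h' | h' <;>
    rw [h, h']
  · simp
  · simp
  · simp
  · rw [h2, if_pos rfl, if_neg one_ne_zero, ← pow_two]
    exact (Int.units_sq _).symm

private theorem omg_al' {B U K : Type} [Group K] [Fintype U] [DecidableEq B] [DecidableEq U] (η : K →* ℤˣ)
    (k : U → K) (b : B) : omg η (Cl.a (Sum.inl b) : Cl (B ⊕ U)) k = 1 := by
  unfold omg
  refine Finset.prod_eq_one fun i _ => if_pos ?_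
  rw [sp_a', if_neg Sum.inr_ne_inl]

private theorem omg_ar' {B U K : Type} [Group K] [Fintype U] [DecidableEq B] [DecidableEq U] (η : K →* ℤˣ)
    (k : U → K) (j : U) : omg η (Cl.a (Sum.inr j) : Cl (B ⊕ U)) k = η (k j) := by
  unfold omg
  rw [Finset.prod_eq_single j]
  · rw [sp_a', if_pos rfl, if_neg one_ne_zero]
  · intro i _ hi
    rw [sp_a', if_neg (fun h => hi (Sum.inr_injective h)), if_pos rfl]
  · intro h
    exact absurd (Finset.mem_univ _) h

theorem act_omg {B U L0 K : Type} [Group L0] [Group K] [Fintype U] [DecidableEq B] [DecidableEq U]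
    (h0 : L0 →* SPerm B) (η : K →* ℤˣ) (k : U → K) (c : Cl (B ⊕ U)) :
    Cl.act (hU h0 η (1, SemidirectProduct.inl k)) c = Cl.u (omg η c k) * c := by
  change Cl.actHom (hU h0 η (1, SemidirectProduct.inl k)) c = _
  induction c using Cl.ind with
  | h1 => rw [map_one, omg_one', map_one, one_mul]
  | hz g hg => rw [map_mul, hg, Cl.actHom_z, omg_mul', omg_z', one_mul, ← mul_assoc, Cl.z_comm, mul_assoc]
  | ha q g hg =>
    have key : Cl.actHom (hU h0 η (1, SemidirectProduct.inl k)) (Cl.a q) =
        Cl.u (omg η (Cl.a q : Cl (B ⊕ U)) k) * Cl.a q := by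
      rw [Cl.actHom_a]
      rcases q with b | i
      · rw [hU_right_inl, hU_left_inl, omg_al']
        have e1 : (h0 ((1, SemidirectProduct.inl k) : L0 × WWt K U).1).left = 1 := by
          change (h0 1).left = 1
          rw [map_one]
          rfl
        have e2 : (h0 ((1, SemidirectProduct.inl k) : L0 × WWt K U).1).right = 1 := by
          change (h0 1).right = 1
          rw [map_one]
          rfl
        rw [e1, e2]
        rfl
      · rw [hU_right_inr, hU_left_inr, omg_ar']
        rfl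
    rw [map_mul, hg, key, omg_mul', map_mul, mul_assoc, ← mul_assoc (Cl.a q), ← Cl.u_comm (omg η g k) (Cl.a q)]
    simp only [mul_assoc]

end Pool.Agent.Helper24.LOC
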