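import Pool.Agent.Helper24.LOC.EDefs
import Pool.Agent.Helper24.LOC.CDefs
import Pool.Agent.Helper81.AN.ClCard

/-!
# Project AN (MP_5ecade_al), local half: definitions for the U-step

* `clMap f hf : Cl ι → Cl ι'`, `a i ↦ a (f i)`.
* `hU h0 η : L0 × WWt K U → SPerm (B ⊕ U)`: `L0` acts on `B` through `h0`, `(u, ρ)` acts on `U` by the permutation `ρ` with the
  signs `η (u i)`.
* `jU : ℤˣ × (U → K) → BG (hU h0 η)`: the abelian normal subgroup `<z> × (U → K)`.
* `chiA g (s, k) = s * ∏ g i (k i)`.
* `incU f : BG h0 × WWf f K → BG (hU h0 η)`.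
-/

set_option autoImplicit false

open Equiv

namespace Pool.Agent.Helper24.LOC

open Pool.Agent.Helper81.AN Pool.Agent.Helper41.SST

/-! ### maps between Clifford groups -/

section ClMap

variable {ι ι' : Type}

/-- `a i ↦ a (f i)` -/
def clMap (f : ι → ι') (hf : Function.Injective f) : Cl ι →* Cl ι' :=
  Cl.lift Cl.z (fun i => Cl.a (f i)) Cl.z_sq (fun _ => Cl.a_sq _) (fun _ => Cl.z_a _)
    (fun _ _ hij => Cl.a_a fun h => hij (hf h))

@[simp] theorem clMap_z (f : ι → ι') (hf : Function.Injective f) : clMap f hf Cl.z = Cl.z := Cl.lift_z _ _ _ _ _ _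

@[simp] theorem clMap_a (f : ι → ι') (hf : Function.Injective f) (i : ι) : clMap f hf (Cl.a i) = Cl.a (f i) :=
  Cl.lift_a _ _ _ _ _ _ _

@[simp] theorem clMap_u (f : ι → ι') (hf : Function.Injective f) (s : ℤˣ) : clMap f hf (Cl.u s) = Cl.u s := by
  rcases Int.units_eq_one_or s with rfl | rfl
  · simp
  · have h1 : ∀ κ : Type, (Cl.u (-1) : Cl κ) = Cl.z := by
      intro κ
      change (if (-1 : ℤˣ) = 1 then 1 else Cl.z) = Cl.z
      rw [if_neg (by decide)]
    rw [h1, h1, clMap_z]

/-- `clMap` is equivariant -/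
theorem clMap_act (f : ι → ι') (hf : Function.Injective f) (x : SPerm ι) (x' : SPerm ι')
    (h1 : ∀ i, x'.right (f i) = f (x.right i)) (h2 : ∀ i, x'.left (f i) = x.left i) (c : Cl ι) :
    Cl.act x' (clMap f hf c) = clMap f hf (Cl.act x c) := by
  have h : (Cl.actHom x').comp (clMap f hf) = (clMap f hf).comp (Cl.actHom x) := by
    apply Cl.hom_ext
    · simp
    · intro i
      rw [MonoidHom.comp_apply, MonoidHom.comp_apply, clMap_a, Cl.actHom_a, Cl.actHom_a, map_mul, clMap_u, clMap_a,
        h1, h2]
  exact DFunLike.congr_fun h c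

end ClMap

/-! ### the group acting in the U-step -/

section HU

variable {B U L0 K : Type} [Group L0] [Group K]

/-- the signed permutations of `B ⊕ U` -/
def hU (h0 : L0 →* SPerm B) (η : K →* ℤˣ) : L0 × WWt K U →* SPerm (B ⊕ U) where
  toFun g := ⟨fun q => q.elim (fun b => (h0 g.1).left b) (fun i => η (g.2.left i)),
    Equiv.Perm.sumCongr (h0 g.1).right g.2.right⟩
  map_one' := by
    apply SemidirectProduct.ext
    · funext q
      rcases q with b | i
      · change (h0 1).left b = 1
        rw [map_one]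
        rfl
      · change η 1 = 1
        rw [map_one]
    · change Equiv.Perm.sumCongr (h0 1).right (1 : Perm U) = 1
      rw [map_one]
      exact Equiv.Perm.sumCongr_one
  map_mul' g g' := by
    apply SemidirectProduct.ext
    · funext q
      rcases q with b | i
      · change (h0 (g.1 * g'.1)).left b = (h0 g.1).left b * (h0 g'.1).left ((h0 g.1).right⁻¹ b)
        rw [map_mul, SemidirectProduct.mul_left]
        rfl
      · change η (g.2.left i * g'.2.left (g.2.right⁻¹ i)) = η (g.2.left i) * η (g'.2.left (g.2.right⁻¹ i))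
        rw [map_mul]
    · change Equiv.Perm.sumCongr (h0 (g.1 * g'.1)).right (g.2.right * g'.2.right) =
        Equiv.Perm.sumCongr (h0 g.1).right g.2.right * Equiv.Perm.sumCongr (h0 g'.1).right g'.2.right
      rw [map_mul, SemidirectProduct.mul_right]
      exact (Equiv.Perm.sumCongr_mul _ _ _ _).symm

variable (h0 : L0 →* SPerm B) (η : K →* ℤˣ)

theorem hU_left_inl (g : L0 × WWt K U) (b : B) : (hU h0 η g).left (Sum.inl b) = (h0 g.1).left b := rfl

theorem hU_left_inr (g : L0 × WWt K U) (i : U) : (hU h0 η g).left (Sum.inr i) = η (g.2.left i) := rfl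

theorem hU_right_inl (g : L0 × WWt K U) (b : B) : (hU h0 η g).right (Sum.inl b) = Sum.inl ((h0 g.1).right b) := rfl

theorem hU_right_inr (g : L0 × WWt K U) (i : U) : (hU h0 η g).right (Sum.inr i) = Sum.inr (g.2.right i) := rfl

end HU

section AU

variable {B U L0 K : Type} [Group L0] [CommGroup K] (h0 : L0 →* SPerm B) (η : K →* ℤˣ)

/-- the abelian normal subgroup `<z> × (U → K)` -/
def jU : ℤˣ × (U → K) →* BG (hU (U := U) h0 η) where
  toFun a := ⟨Cl.u a.1, (1, SemidirectProduct.inl a.2)⟩
  map_one' := by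
    apply SemidirectProduct.ext
    · exact map_one _
    · rfl
  map_mul' a b := by
    apply SemidirectProduct.ext
    · rw [SemidirectProduct.mul_left]
      change Cl.u (a.1 * b.1) = Cl.u a.1 * Cl.actHom (hU h0 η (1, SemidirectProduct.inl a.2)) (Cl.u b.1)
      rw [Cl.actHom_u, map_mul]
    · rw [SemidirectProduct.mul_right]
      change ((1, SemidirectProduct.inl (a.2 * b.2)) : L0 × WWt K U) =
        (1, SemidirectProduct.inl a.2) * (1, SemidirectProduct.inl b.2)
      rw [map_mul, Prod.mk_mul_mk, one_mul]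

theorem jU_left (a : ℤˣ × (U → K)) : (jU h0 η a).left = Cl.u a.1 := rfl

theorem jU_right (a : ℤˣ × (U → K)) : (jU h0 η a).right = (1, SemidirectProduct.inl a.2) := rfl

/-- signs as complex units -/
noncomputable def sgC : ℤˣ →* ℂˣ := Units.map (Int.castRingHom ℂ).toMonoidHom

theorem sgC_val (s : ℤˣ) : ((sgC s : ℂˣ) : ℂ) = ((s : ℤ) : ℂ) := rfl

/-- the linear characters with value `-1` at `z` -/
noncomputable def chiA [Fintype U] (g : U → (K →* ℂˣ)) : ℤˣ × (U → K) →* ℂˣ := sgC.coprod (chiOf g)

theorem chiA_apply [Fintype U] (g : U → (K →* ℂˣ)) (a : ℤˣ × (U → K)) : chiA g a = sgC a.1 * chiOf g a.2 := rfl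

variable {C : Type} (f : U → C)

/-- the stabilizer of a colouring -/
def incU : BG h0 × WWf f K →* BG (hU (U := U) h0 η) where
  toFun x := ⟨clMap Sum.inl Sum.inl_injective x.1.left, (x.1.right, incF f K x.2)⟩
  map_one' := by
    apply SemidirectProduct.ext
    · exact map_one _
    · exact congrArg (fun t => ((1, t) : L0 × WWt K U)) (map_one (incF f K))
  map_mul' x y := by
    apply SemidirectProduct.ext
    · rw [SemidirectProduct.mul_left]
      change clMap Sum.inl Sum.inl_injective (x.1 * y.1).left =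
        clMap Sum.inl Sum.inl_injective x.1.left *
          Cl.act (hU h0 η (x.1.right, incF f K x.2)) (clMap Sum.inl Sum.inl_injective y.1.left)
      rw [clMap_act Sum.inl Sum.inl_injective (h0 x.1.right) (hU h0 η (x.1.right, incF f K x.2))
        (fun b => rfl) (fun b => rfl), ← map_mul, SemidirectProduct.mul_left]
      rfl
    · rw [SemidirectProduct.mul_right]
      change (((x.1 * y.1).right, incF f K (x.2 * y.2)) : L0 × WWt K U) =
        (x.1.right, incF f K x.2) * (y.1.right, incF f K y.2)
      rw [map_mul, SemidirectProduct.mul_right, Prod.mk_mul_mk]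

theorem incU_left (x : BG h0 × WWf f K) : (incU h0 η f x).left = clMap Sum.inl Sum.inl_injective x.1.left := rfl

theorem incU_right (x : BG h0 × WWf f K) : (incU h0 η f x).right = (x.1.right, incF f K x.2) := rfl

/-- the quotient map -/
def qU : BG h0 × WWf f K →* BG h0 × (∀ c, Perm {i // f i = c}) :=
  (MonoidHom.id _).prodMap SemidirectProduct.rightHom

end AU

end Pool.Agent.Helper24.LOC
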