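import Pool.Agent.Helper24.LOC.UPiece
import Pool.Agent.Helper24.LOC.TLab
import Pool.Agent.Helper24.LOC.CMain
import Pool.Agent.Helper24.LOC.BLab

/-!
U04 Main: the U-step.

PROOF. `ccl_simple` with `D = ansU h0 η`, `z = BG.z _` (central: `BG.cinv` in `Helper81/AN/ClCard`), `ν = -1`, `ε = BG.par _`,
`R = {n : Fin m → ℕ // ∑ n = u}`, colourings `f n` of content `n` (`exists_colouring`), `lam n = chiA (fun i => θ (f n i, false))`,
`P n = pieceU ..`, `L n = L × LabF n`, `tw n = Prod.map tw id`, `dg n q = dg q.1 * ∏ (q.2.1 c).f`, `εQ n = (BG.par h0).coprod 1`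
(`BG.par (incU g) = Cl.par (clMap g.1.left) = Cl.par g.1.left`: a lemma `Cl.par (clMap c) = Cl.par c` by `Cl.hom_ext`), `ε (jU a) = Cl.par (Cl.u s) = 1`,
`hlab`: `lab_prod` with the given labels of `BG h0` and the labels `LabF n` of `∏_c Perm {i // f i = c}` with trivial sign and twist
`id` (`labF_equiv`, `labF_deg`; `(pieceU ..).q (pieceU ..).gz = (BG.z h0, 1)`). `ix n = 2^u * multinomial univ n`:
`|BG (hU h0 η)| = 2^(|B|+u+1) |L0| |K|^u u!`, `|BG h0 × WWf f K| = 2^(|B|+1) |L0| |K|^u ∏ n_c!` (`BG.card`, `SemidirectProduct.card`, `card_fib`,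
`Nat.multinomial_spec`; `L0` finite).
`h1`: `relU`: `θ (f n' (ρ i), false) * (1 or η) = θ (f n i, false)` forces `f n' (ρ i) = f n i` (`η` is impossible), so the contents agree
(`content_perm`). `h2`: `mu (-1, 1) = -1` (the hypothesis with `a = (-1, 1)`, `jU a = z`), `mu = chiA g` (`chiA_surj`), `g i = θ (j i, b i)`
(`θ` onto); `n` = content of `j`; `ρ` with `j (ρ i) = f n i` (`exists_perm_of_content`), `c` with `sp c (inr i) = if b i then 1 else 0`
(`exists_sp`); `x = ⟨c, (1, (1, ρ))⟩`; by `relU` we need `θ (j (ρ i), b (ρ i)) * (1 or η according to b (ρ i)) = θ (f n i, false)`: true,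
since `η^2 = 1`. Finally `lab_congr` with `E : (Σ n, L × LabF n) ≃ L × LabW (Fin m) u`.
-/

set_option autoImplicit false

open Equiv

namespace Pool.Agent.Helper24.LOC

open Pool.Agent.Helper42.INC Pool.Agent.Helper7.MK Pool.Agent.Helper81.AN Pool.Agent.Helper41.SST

private theorem um_card {I C : Type} [Fintype I] [DecidableEq C] {f g : I → C} (h : ∀ i, f i = g i) (c : C) :
    Fintype.card {i // f i = c} = Fintype.card {i // g i = c} :=
  Fintype.card_congr (Equiv.subtypeEquivRight fun i => by rw [h i])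

/-- the two descriptions of the labels -/
private noncomputable def umE (L : Type) (m u : ℕ) :
    (Σ n : {n : Fin m → ℕ // ∑ c, n c = u}, L × LabF n.1) ≃ L × LabW (Fin m) u where
  toFun q := (q.2.1, ⟨q.2.2.1, by rw [Finset.sum_congr rfl fun c _ => q.2.2.2 c]; exact q.1.2⟩)
  invFun κ := ⟨⟨fun c => (κ.2.1 c).size, κ.2.2⟩, (κ.1, ⟨κ.2.1, fun c => rfl⟩)⟩
  left_inv := by
    rintro ⟨⟨m, hm⟩, ⟨l, ⟨κ, hκ⟩⟩⟩
    obtain rfl : m = fun c => (κ c).size := funext fun c => (hκ c).symm
    rfl
  right_inv κ := rfl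

private theorem par_z' {ι : Type} : Cl.par (Cl.z : Cl ι) = 1 := Cl.lift_z _ _ _ _ _ _

private theorem par_a' {ι : Type} (i : ι) : Cl.par (Cl.a i : Cl ι) = -1 := Cl.lift_a _ _ _ _ _ _ _

private theorem par_clMap {ι ι' : Type} (f : ι → ι') (hf : Function.Injective f) (c : Cl ι) :
    Cl.par (clMap f hf c) = Cl.par c := by
  have h : (Cl.par (ι := ι')).comp (clMap f hf) = Cl.par := by
    apply Cl.hom_ext
    · rw [MonoidHom.comp_apply, clMap_z, par_z', par_z']
    · intro i
      rw [MonoidHom.comp_apply, clMap_a, par_a', par_a']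
  exact DFunLike.congr_fun h c

private theorem par_left {ι L : Type} [Group L] (h : L →* SPerm ι) (x : BG h) :
    BG.par h x = Cl.par x.left := by
  change Cl.par x.left * 1 = _
  rw [mul_one]

private theorem par_u {ι : Type} (s : ℤˣ) : Cl.par (Cl.u s : Cl ι) = 1 := by
  rcases Int.units_eq_one_or s with rfl | rfl
  · rw [map_one, map_one]
  · rw [clu_neg]
    exact Cl.lift_z _ _ _ _ _ _

private theorem eta_sq {K : Type} [Group K] (η : K →* ℤˣ) (k : K) :
    (((η k : ℤˣ) : ℤ) : ℂ) * (((η k : ℤˣ) : ℤ) : ℂ) = 1 := by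
  rw [← Int.cast_mul, ← Units.val_mul, Int.units_mul_self, Units.val_one, Int.cast_one]

theorem lab_U {B U L0 K : Type} [Group L0] [Finite L0] [CommGroup K] [Finite K] [Fintype B] [Fintype U]
    [DecidableEq B] [DecidableEq U] (h0 : L0 →* SPerm B) (η : K →* ℤˣ) {m : ℕ} (θ : Fin m × Bool ≃ (K →* ℂˣ))
    (hθ : ∀ j k, ((θ (j, true) k : ℂˣ) : ℂ) = (((η k : ℤˣ) : ℤ) : ℂ) * ((θ (j, false) k : ℂˣ) : ℂ)) (u : ℕ)
    (hu : Fintype.card U = u) {L : Type} {tw : L → L} {dg : L → ℕ}
    (h : Nonempty (Lab (BG h0) (BG.par h0) (BG.z h0) (-1) L tw dg)) :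
    Nonempty (Lab (BG (hU (U := U) h0 η)) (BG.par _) (BG.z _) (-1) (L × LabW (Fin m) u) (Prod.map tw id)
      fun q => 2 ^ u * (dg q.1 * q.2.dg)) := by
  classical
  have hfinW : Finite (WWt K U) := Finite.of_equiv _ SemidirectProduct.equivProd.symm
  have hex : ∀ n : {n : Fin m → ℕ // ∑ c, n c = u}, ∃ f : U → Fin m, ∀ c, Fintype.card {i // f i = c} = n.1 c :=
    fun n => exists_colouring n.1 (n.2.trans hu.symm)
  choose f hf using hex
  have hfin : ∀ n, Finite (WWf (f n) K) := fun n =>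
    Finite.of_equiv _ SemidirectProduct.equivProd.symm
  have hee : ∀ n, ∃ e : IrrZ (1 : ∀ c, Perm {i // f n i = c}) 1 ≃ LabF n.1,
      ∀ χ : IrrZ (1 : ∀ c, Perm {i // f n i = c}) 1, (e χ).1 = labF (f n) ⟨χ.1, χ.2.1⟩ :=
    fun n => labF_equiv (f n) n.1 (hf n)
  choose e he using hee
  have hfib : ∀ n, Nonempty (Lab (∀ c, Perm {i // f n i = c}) 1 1 1 (LabF n.1) id
      fun κ => ∏ c, (κ.1 c).f) := by
    intro n
    refine ⟨⟨e n, ?_, ?_⟩⟩
    · intro χ χ' hχ
      have : χ' = χ := by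
        apply Subtype.ext
        funext x
        rw [hχ x]
        simp
      rw [this]
      rfl
    · intro χ
      have h1 := labF_deg (f n) ⟨χ.1, χ.2.1⟩
      have h2 := he n χ
      rw [h2]
      exact h1
  -- colours are determined
  have hcol : ∀ (a b : Fin m) (c : Prop) [Decidable c],
      (∀ k, θ (a, false) k * (if c then 1 else sgC (η k)) = θ (b, false) k) → a = b := by
    intro a b c _ h1
    by_cases hc : c
    · have h2 : θ (a, false) = θ (b, false) := by
        refine MonoidHom.ext fun k => ?_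
        have := h1 k
        rwa [if_pos hc, mul_one] at this
      exact congrArg Prod.fst (θ.injective h2)
    · exfalso
      have h2 : θ (a, true) = θ (b, false) := by
        refine MonoidHom.ext fun k => Units.ext ?_
        have := congrArg (Units.val) (h1 k)
        rw [if_neg hc, Units.val_mul, sgC_val] at this
        rw [hθ, mul_comm]
        exact this
      exact absurd (congrArg Prod.snd (θ.injective h2)) (by simp)
  have key := ccl_simple (X := BG (hU (U := U) h0 η)) (A := ℤˣ × (U → K)) (ansU h0 η) (BG.z _)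
    (BG.cinv (h := hU (U := U) h0 η)).comm (-1) (BG.par _) ?_ {n : Fin m → ℕ // ∑ c, n c = u}
    (fun n => chiA fun i => θ (f n i, false)) (fun n => BG h0 × WWf (f n) K)
    (fun n => BG h0 × (∀ c, Perm {i // f n i = c})) (fun n => pieceU h0 η θ hθ (f n))
    (fun n => L × LabF n.1) (fun n q => dg q.1 * ∏ c, (q.2.1 c).f) (fun n => Prod.map tw id)
    (fun n => (BG.par h0).coprod 1) ?_ ?_ ?_ (fun n => 2 ^ u * Nat.multinomial Finset.univ n.1) ?_ ?_ ?_
  · refine lab_congr (MulEquiv.refl _) (BG.par _) (BG.par _) (fun _ => rfl) (BG.z _) (BG.z _) rfl (-1)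
      (umE L m u) _ (Prod.map tw id) (fun q => rfl) _ _ (fun q => ?_) key
    change 2 ^ u * (dg q.2.1 * (Nat.multinomial Finset.univ (fun c => (q.2.2.1 c).size) * _)) = _
    have h1 : (fun c => (q.2.2.1 c).size) = q.1.1 := funext q.2.2.2
    rw [h1]
    change 2 ^ u * (dg q.2.1 * (Nat.multinomial Finset.univ q.1.1 * ∏ c, (q.2.2.1 c).f)) =
      2 ^ u * Nat.multinomial Finset.univ q.1.1 * (dg q.2.1 * ∏ c, (q.2.2.1 c).f)
    ring
  · rw [par_left]
    exact Cl.lift_z _ _ _ _ _ _
  · intro n g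
    change BG.par h0 g.1 * 1 = BG.par _ (incU h0 η (f n) g)
    rw [mul_one, par_left, par_left, incU_left, par_clMap]
  · intro a
    change BG.par _ (jU h0 η a) = 1
    rw [par_left, jU_left, par_u]
  · intro n
    exact lab_prod (BG.par h0) 1 (BG.z h0) (-1) tw id dg (fun κ : LabF n.1 => ∏ c, (κ.1 c).f) h (hfib n)
  · intro n
    rw [Nat.card_prod, BG.card, BG.card, Nat.card_prod, SemidirectProduct.card, SemidirectProduct.card, card_fib,
      Nat.card_perm, Fintype.card_sum, hu]
    have h1 := Nat.multinomial_spec Finset.univ n.1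
    rw [n.2] at h1
    have h2 : Nat.card U = u := by rw [Nat.card_eq_fintype_card, hu]
    have h3 : ∏ c, (Fintype.card {i // f n i = c}).factorial = ∏ c, (n.1 c).factorial :=
      Finset.prod_congr rfl fun c _ => congrArg Nat.factorial (hf n c)
    rw [h2, ← h1, h3, pow_succ, pow_succ, pow_add]
    ring
  · intro n n' x hx
    have h1 := (relU h0 η x _ _).1 hx
    have h2 : ∀ i, f n' (x.right.2.right i) = f n i := fun i => hcol _ _ _ (h1 i)
    apply Subtype.ext
    funext c
    rw [← hf n c, ← hf n' c, ← content_perm (f n') x.right.2.right c]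
    exact um_card (fun i => (h2 i).symm) c
  · intro mu hmu
    have hz : (ansU (U := U) h0 η).j ((-1, 1) : ℤˣ × (U → K)) = BG.z _ := by
      change jU h0 η (-1, 1) = _
      apply SemidirectProduct.ext
      · change Cl.u (-1) = Cl.z
        exact clu_neg _
      · rfl
    have hmu1 : mu (-1, 1) = -1 := by
      apply Units.ext
      rw [hmu _ hz]
      simp
    obtain ⟨g, rfl⟩ := chiA_surj mu hmu1
    let r : {n : Fin m → ℕ // ∑ c, n c = u} := ⟨fun c => Fintype.card {i // (θ.symm (g i)).1 = c},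
      (sum_card_fib fun i => (θ.symm (g i)).1).trans hu⟩
    obtain ⟨τ, hτ⟩ := exists_perm_of_content (fun i => (θ.symm (g i)).1) (f r) (fun c => (hf r c).symm)
    obtain ⟨c, hc⟩ := exists_sp (B := B) (fun i : U => if (θ.symm (g i)).2 then (1 : ZMod 2) else 0)
    refine ⟨r, ⟨c, (1, SemidirectProduct.inr τ)⟩, (relU h0 η _ _ _).2 fun i k => ?_⟩
    change g (τ i) k * (if sp c (Sum.inr (τ i)) = 0 then 1 else sgC (η k)) = θ (f r i, false) k
    have h4 : g (τ i) = θ (f r i, (θ.symm (g (τ i))).2) := by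
      rw [← hτ i]
      exact (θ.apply_symm_apply (g (τ i))).symm
    rw [hc (τ i), h4]
    rcases hb : (θ.symm (g (τ i))).2 with _ | _
    · simp
    · have h5 : (θ.symm (θ (f r i, true))).2 = true := by rw [θ.symm_apply_apply]
      have h6 : θ (f r i, true) k * sgC (η k) = θ (f r i, false) k := by
        apply Units.ext
        rw [Units.val_mul, sgC_val, hθ]
        calc (((η k : ℤˣ) : ℤ) : ℂ) * ((θ (f r i, false) k : ℂˣ) : ℂ) * (((η k : ℤˣ) : ℤ) : ℂ)
            = ((((η k : ℤˣ) : ℤ) : ℂ) * (((η k : ℤˣ) : ℤ) : ℂ)) * ((θ (f r i, false) k : ℂˣ) : ℂ) := by ring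
          _ = _ := by rw [eta_sq, one_mul]
      simpa [h5] using h6

end Pool.Agent.Helper24.LOC
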