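import Pool.Agent.Helper24.LOC.URel
import Pool.Agent.Helper24.LOC.TFib

/-!
U03 Piece: the piece of a colouring `f : U → Fin m` in the U-step.

`θ : Fin m × Bool ≃ (K →* ℂˣ)` with `θ (j, true) = η * θ (j, false)`; the linear character is `chiA (fun i => θ (f i, false))`.

PROOFS. `inj`: `clMap_inj`, `incF` is injective (`fib_inj`). `range`: `relU`: `x` fixes the character iff for all `i`
`θ (f (ρ i), false) * (1 or η) = θ (f i, false)`, where `1` is taken iff `sp x.left (inr (ρ i)) = 0`; the value `η` is impossible
(`θ (f (ρ i), true) = θ (f i, false)` contradicts the injectivity of `θ`), so it holds iff `f (ρ i) = f i` and `sp x.left (inr i) = 0` for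
all `i` (`ρ` is onto). By `clMap_range` and `fib_range` this means that `x` is in the range of `incU` (`x.left = clMap c`,
`x.right = (g, (k, fib f σ))`). `inc_gz`: `clMap z = z`. `hA`: `incU g = jU (s, k)` gives `clMap g.1.left = Cl.u s = clMap (Cl.u s)`, so
`g.1.left = Cl.u s`, `g.1.right = 1`, `g.2.left = k`, `fib f g.2.right = 1`, `g.2.right = 1`; cases `s = 1` (first alternative) and
`s = -1` (second: `g.1 = BG.z h0`, `sgC (-1) = -1`). `hker`: `g.1 = 1`, `g.2.right = 1`: `a = (1, g.2.left)`.
-/

set_option autoImplicit false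
set_option linter.unusedSectionVars false

open Equiv

namespace Pool.Agent.Helper24.LOC

open Pool.Agent.Helper81.AN Pool.Agent.Helper41.SST

theorem clu_neg (κ : Type) : (Cl.u (-1) : Cl κ) = Cl.z := by
  change (if (-1 : ℤˣ) = 1 then 1 else Cl.z) = Cl.z
  rw [if_neg (by decide)]

variable {B U L0 K : Type} [Group L0] [CommGroup K] [Fintype B] [Fintype U] [DecidableEq B] [DecidableEq U]
  (h0 : L0 →* SPerm B) (η : K →* ℤˣ)

theorem incU_inj {C : Type} (f : U → C) : Function.Injective (incU (U := U) h0 η f) := by
  intro x y hxy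
  have h1 : clMap (Sum.inl : B → B ⊕ U) Sum.inl_injective x.1.left =
      clMap (Sum.inl : B → B ⊕ U) Sum.inl_injective y.1.left := congrArg SemidirectProduct.left hxy
  have h2 : ((x.1.right, incF f K x.2) : L0 × WWt K U) = (y.1.right, incF f K y.2) :=
    congrArg SemidirectProduct.right hxy
  have h3 := clMap_inj _ Sum.inl_injective h1
  have h4 : x.1.right = y.1.right := congrArg Prod.fst h2
  have h5 : incF f K x.2 = incF f K y.2 := congrArg Prod.snd h2
  have h6' : (incF f K x.2).left = (incF f K y.2).left := by rw [h5]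
  have h7' : (incF f K x.2).right = (incF f K y.2).right := by rw [h5]
  have h6 : x.2.left = y.2.left := h6'
  have h7 : fib f x.2.right = fib f y.2.right := h7'
  exact Prod.ext (SemidirectProduct.ext h3 h4) (SemidirectProduct.ext h6 (fib_inj f h7))

/-- equality of an element of the stabilizer and an element of the normal subgroup -/
theorem incU_eq_jU {C : Type} (f : U → C) (x : BG h0 × WWf f K) (s : ℤˣ) (k : U → K)
    (h : incU (U := U) h0 η f x = jU h0 η (s, k)) :
    x.1.left = Cl.u s ∧ x.1.right = 1 ∧ x.2.left = k ∧ x.2.right = 1 := by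
  have h1 : clMap (Sum.inl : B → B ⊕ U) Sum.inl_injective x.1.left = Cl.u s :=
    congrArg SemidirectProduct.left h
  have h2 : ((x.1.right, incF f K x.2) : L0 × WWt K U) = (1, SemidirectProduct.inl k) :=
    congrArg SemidirectProduct.right h
  have h4 : x.1.right = 1 := congrArg Prod.fst h2
  have h5 : incF f K x.2 = SemidirectProduct.inl k := congrArg Prod.snd h2
  have h6 : x.2.left = k := congrArg SemidirectProduct.left h5
  have h7 : fib f x.2.right = 1 := congrArg SemidirectProduct.right h5
  refine ⟨?_, h4, h6, ?_⟩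
  · apply clMap_inj (Sum.inl : B → B ⊕ U) Sum.inl_injective
    rw [h1, clMap_u]
  · apply fib_inj f
    rw [h7, map_one]

theorem rangeU {m : ℕ} (θ : Fin m × Bool ≃ (K →* ℂˣ))
    (hθ : ∀ j k, ((θ (j, true) k : ℂˣ) : ℂ) = (((η k : ℤˣ) : ℤ) : ℂ) * ((θ (j, false) k : ℂˣ) : ℂ)) (f : U → Fin m)
    (x : BG (hU (U := U) h0 η)) : x ∈ (incU h0 η f).range ↔
      (ansU h0 η).Rel x (chiA fun i => θ (f i, false)) (chiA fun i => θ (f i, false)) := by
  rw [relU]
  constructor
  · rintro ⟨y, rfl⟩ i k
    have h1 : f (fib f y.2.right i) = f i := (y.2.right (f i) ⟨i, rfl⟩).2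
    have h2 : sp (clMap (Sum.inl : B → B ⊕ U) Sum.inl_injective y.1.left) (Sum.inr (fib f y.2.right i)) = 0 :=
      sp_clMap_not _ _ _ _ fun b => Sum.inl_ne_inr
    change θ (f (fib f y.2.right i), false) k *
      (if sp (clMap (Sum.inl : B → B ⊕ U) Sum.inl_injective y.1.left) (Sum.inr (fib f y.2.right i)) = 0
        then 1 else sgC (η k)) = θ (f i, false) k
    rw [h1, if_pos h2, mul_one]
  · intro h
    have key : ∀ i, sp x.left (Sum.inr (x.right.2.right i)) = 0 ∧ f (x.right.2.right i) = f i := by
      intro i
      by_cases h1 : sp x.left (Sum.inr (x.right.2.right i)) = 0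
      · refine ⟨h1, ?_⟩
        have h2 : θ (f (x.right.2.right i), false) = θ (f i, false) := by
          refine MonoidHom.ext fun k => ?_
          have := h i k
          rwa [if_pos h1, mul_one] at this
        exact congrArg Prod.fst (θ.injective h2)
      · exfalso
        have h2 : θ (f (x.right.2.right i), true) = θ (f i, false) := by
          refine MonoidHom.ext fun k => Units.ext ?_
          have := congrArg (Units.val) (h i k)
          rw [if_neg h1, Units.val_mul, sgC_val] at this
          rw [hθ, mul_comm]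
          exact this
        exact absurd (congrArg Prod.snd (θ.injective h2)) (by simp)
    have h3 : ∀ j : U, sp x.left (Sum.inr j) = 0 := by
      intro j
      have := (key (x.right.2.right⁻¹ j)).1
      rwa [← Perm.mul_apply, mul_inv_cancel, Perm.one_apply] at this
    obtain ⟨c, hc⟩ := (clMap_range x.left).2 h3
    obtain ⟨σ, hσ⟩ := (fib_range f x.right.2.right).2 fun i => (key i).2
    refine ⟨(⟨c, x.right.1⟩, ⟨x.right.2.left, σ⟩), ?_⟩
    apply SemidirectProduct.ext
    · exact hc
    · refine Prod.ext rfl ?_
      exact SemidirectProduct.ext rfl hσ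

/-- the piece of a colouring -/
def pieceU {m : ℕ} (θ : Fin m × Bool ≃ (K →* ℂˣ))
    (hθ : ∀ j k, ((θ (j, true) k : ℂˣ) : ℂ) = (((η k : ℤˣ) : ℤ) : ℂ) * ((θ (j, false) k : ℂˣ) : ℂ)) (f : U → Fin m) :
    Piece (ansU h0 η) (BG.z (hU h0 η)) (-1) (chiA fun i => θ (f i, false)) (BG h0 × WWf f K)
      (BG h0 × (∀ c, Perm {i // f i = c})) where
  inc := incU h0 η f
  inj := incU_inj h0 η f
  range := rangeU h0 η θ hθ f
  q := qU h0 f
  surj := fun y => ⟨(y.1, SemidirectProduct.inr y.2), rfl⟩
  lh := (lhF f fun j => θ (j, false)).comp (MonoidHom.snd _ _)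
  gz := (BG.z h0, 1)
  inc_gz := by
    apply SemidirectProduct.ext
    · exact clMap_z _ _
    · exact congrArg (fun t => ((1, t) : L0 × WWt K U)) (map_one (incF f K))
  lh_gz := map_one (lhF (K := K) f fun j => θ (j, false))
  hA := by
    rintro x ⟨s, k⟩ hx
    obtain ⟨h1, h2, h3, h4⟩ := incU_eq_jU h0 η f x s k hx
    have hl : lhF f (fun j => θ (j, false)) x.2 = chiOf (fun i => θ (f i, false)) k := by
      rw [lhF_apply, h3]
      rfl
    rcases Int.units_eq_one_or s with rfl | rfl
    · left
      constructor
      · change ((x.1, x.2.right) : BG h0 × (∀ c, Perm {i // f i = c})) = 1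
        refine Prod.ext (SemidirectProduct.ext ?_ h2) h4
        rw [h1, map_one]
        rfl
      · change lhF f (fun j => θ (j, false)) x.2 = chiA (fun i => θ (f i, false)) (1, k)
        rw [hl, chiA_apply]
        change _ = sgC 1 * _
        rw [map_one, one_mul]
    · right
      constructor
      · change ((x.1, x.2.right) : BG h0 × (∀ c, Perm {i // f i = c})) = (BG.z h0, 1)
        refine Prod.ext (SemidirectProduct.ext ?_ h2) h4
        rw [h1, clu_neg]
        rfl
      · change ((chiA (fun i => θ (f i, false)) (-1, k) : ℂˣ) : ℂ) =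
          -1 * ((lhF f (fun j => θ (j, false)) x.2 : ℂˣ) : ℂ)
        rw [hl, chiA_apply, Units.val_mul, sgC_val]
        congr 1
        simp
  hker := by
    intro x hx
    have h1 : x.1 = 1 := congrArg Prod.fst hx
    have h2 : x.2.right = 1 := congrArg Prod.snd hx
    refine ⟨(1, x.2.left), ?_, ?_⟩
    · apply SemidirectProduct.ext
      · change clMap _ _ x.1.left = Cl.u 1
        rw [h1, map_one]
        exact map_one _
      · change ((x.1.right, incF f K x.2) : L0 × WWt K U) = (1, SemidirectProduct.inl x.2.left)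
        refine Prod.ext ?_ ?_
        · change x.1.right = 1
          rw [h1]
          rfl
        · refine SemidirectProduct.ext rfl ?_
          change fib f x.2.right = 1
          rw [h2, map_one]
    · change lhF f (fun j => θ (j, false)) x.2 = chiA (fun i => θ (f i, false)) (1, x.2.left)
      rw [lhF_apply, chiA_apply]
      change _ = sgC 1 * _
      rw [map_one, one_mul]
      rfl

end Pool.Agent.Helper24.LOC
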