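import Pool.Agent.Helper24.LOC.UCl
import Pool.Agent.Helper24.LOC.TChar

/-!
U02 Rel: the abelian normal subgroup `<z> × (U → K)` of `BG (hU h0 η)` and the conjugation of its linear characters.

PROOFS. `conj_jU`: `x = inl c * inr (g, (k0, ρ))`. In the group `L0 × WWt K U`: `(g, (k0, ρ)) (1, (k, 1)) (g, (k0, ρ))⁻¹ = (1, (ρ k, 1))`, `ρ k =
k ∘ ρ⁻¹` (`K` commutative), and `z` is fixed by everything. So it remains `c * (1, (1, (k', 1))) * c⁻¹ = c * Cl.act(k')(c⁻¹) * (k')` and
`c * Cl.act(k')(c⁻¹) = Cl.u (omg c k')` (`act_omg`: `Cl.act(k') c = Cl.u (omg c k') * c`, `Cl.u_comm`, `(Cl.u s)^2 = 1`). Work componentwise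
(`SemidirectProduct.ext`, `SemidirectProduct.mul_left`, `inv_left`...), or with the two factors separately.
`ansU`: `inj`: `Cl.u` is injective (`z ≠ 1`, `Cl.z_ne_one`). `norm`: `conj_jU`.
`relU`: `Rel x (chiA g) (chiA h)` says for all `s, k`: `s * omg * ∏ h i (k (ρ⁻¹ i)) = s * ∏ g i (k i)`, i.e. (reindex by `ρ`)
`∏_i (h (ρ i) (k i) * [sp = 0 at inr (ρ i) or sgC (η (k i))]) = ∏ g i (k i)`; take `k = Pi.mulSingle i k0` for one direction
(compare `chiOf_inj`), multiply for the other. `chiA_surj`: `g i = mu (1, Pi.mulSingle i ·)`, `chiOf_surj` for `mu (1, ·)`, and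
`mu (s, 1) = sgC s` for `s = ±1`.
-/

set_option autoImplicit false

open Equiv

namespace Pool.Agent.Helper24.LOC

open Pool.Agent.Helper81.AN Pool.Agent.Helper41.SST

variable {B U L0 K : Type} [Group L0] [CommGroup K] [Fintype U] [DecidableEq B] [DecidableEq U] (h0 : L0 →* SPerm B)
  (η : K →* ℤˣ)

theorem conj_jU (x : BG (hU (U := U) h0 η)) (s : ℤˣ) (k : U → K) :
    x * jU h0 η (s, k) * x⁻¹ =
      jU h0 η (s * omg η x.left (mulAutArrow (G := Perm U) (M := K) x.right.2.right k),
        mulAutArrow (G := Perm U) (M := K) x.right.2.right k) := by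
  rw [mul_inv_eq_iff_eq_mul]
  apply SemidirectProduct.ext
  · rw [SemidirectProduct.mul_left, SemidirectProduct.mul_left]
    change x.left * Cl.actHom (hU h0 η x.right) (Cl.u s) =
      Cl.u (s * omg η x.left (mulAutArrow (G := Perm U) (M := K) x.right.2.right k)) *
        Cl.act (hU h0 η (1, SemidirectProduct.inl (mulAutArrow (G := Perm U) (M := K) x.right.2.right k))) x.left
    rw [Cl.actHom_u, act_omg, map_mul]
    generalize omg η x.left (mulAutArrow (G := Perm U) (M := K) x.right.2.right k) = t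
    have h1 : (Cl.u t : Cl (B ⊕ U)) * Cl.u t = 1 := by
      rw [← pow_two]
      exact Cl.u_sq t
    rw [mul_assoc (Cl.u s), ← mul_assoc (Cl.u t), h1, one_mul, Cl.u_comm]
  · rw [SemidirectProduct.mul_right, SemidirectProduct.mul_right]
    change x.right * (1, SemidirectProduct.inl k) =
      (1, SemidirectProduct.inl (mulAutArrow (G := Perm U) (M := K) x.right.2.right k)) * x.right
    refine Prod.ext ?_ ?_
    · change x.right.1 * 1 = 1 * x.right.1
      rw [mul_one, one_mul]
    · change x.right.2 * SemidirectProduct.inl k =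
        SemidirectProduct.inl (mulAutArrow (G := Perm U) (M := K) x.right.2.right k) * x.right.2
      apply SemidirectProduct.ext
      · rw [SemidirectProduct.mul_left, SemidirectProduct.mul_left, SemidirectProduct.left_inl,
          SemidirectProduct.left_inl, SemidirectProduct.right_inl, map_one, MulAut.one_apply, mul_comm]
      · rw [SemidirectProduct.mul_right, SemidirectProduct.mul_right, SemidirectProduct.right_inl,
          SemidirectProduct.right_inl, mul_one, one_mul]

/-- the abelian normal subgroup -/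
def ansU : ANS (BG (hU (U := U) h0 η)) (ℤˣ × (U → K)) where
  j := jU h0 η
  inj := by
    rintro ⟨s, k⟩ ⟨s', k'⟩ hab
    have h1 : (Cl.u s : Cl (B ⊕ U)) = Cl.u s' := congrArg SemidirectProduct.left hab
    have h2 : ((1, SemidirectProduct.inl k) : L0 × WWt K U) = (1, SemidirectProduct.inl k') :=
      congrArg SemidirectProduct.right hab
    have h3 : k = k' := SemidirectProduct.inl_injective (congrArg Prod.snd h2)
    have h4 : (Cl.u (-1) : Cl (B ⊕ U)) = Cl.z := by
      change (if (-1 : ℤˣ) = 1 then 1 else Cl.z) = Cl.z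
      rw [if_neg (by decide)]
    rw [h3]
    refine Prod.ext ?_ rfl
    rcases Int.units_eq_one_or s with rfl | rfl <;> rcases Int.units_eq_one_or s' with rfl | rfl
    · rfl
    · exfalso
      rw [map_one, h4] at h1
      exact Cl.z_ne_one h1.symm
    · exfalso
      rw [map_one, h4] at h1
      exact Cl.z_ne_one h1
    · rfl
  norm := fun x a => ⟨_, (conj_jU h0 η x a.1 a.2).symm⟩

theorem relU (x : BG (hU (U := U) h0 η)) (g h : U → (K →* ℂˣ)) :
    (ansU h0 η).Rel x (chiA g) (chiA h) ↔
      ∀ (i : U) (k : K), h (x.right.2.right i) k *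
        (if sp x.left (Sum.inr (x.right.2.right i)) = 0 then 1 else sgC (η k)) = g i k := by
  set ρ := x.right.2.right with hρ
  -- the product form
  have key : ∀ k : U → K, sgC (omg η x.left (mulAutArrow (G := Perm U) (M := K) ρ k)) *
      chiOf h (mulAutArrow (G := Perm U) (M := K) ρ k) =
      ∏ i : U, (h (ρ i) (k i) * (if sp x.left (Sum.inr (ρ i)) = 0 then 1 else sgC (η (k i)))) := by
    intro k
    have h1 : sgC (omg η x.left (mulAutArrow (G := Perm U) (M := K) ρ k)) =
        ∏ i : U, (if sp x.left (Sum.inr (ρ i)) = 0 then 1 else sgC (η (k i))) := by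
      unfold omg
      rw [map_prod, ← Equiv.prod_comp ρ]
      refine Finset.prod_congr rfl fun i _ => ?_
      have h2 : (mulAutArrow (G := Perm U) (M := K) ρ k) (ρ i) = k i := by
        rw [arrow_apply]
        congr 1
        simp
      rw [h2]
      split_ifs
      · exact map_one _
      · rfl
    rw [h1, chiOf_arrow, mul_comm, Finset.prod_mul_distrib]
    rfl
  constructor
  · intro hR i k
    have h1 := hR (1, Pi.mulSingle i k) _ (conj_jU h0 η x 1 (Pi.mulSingle i k)).symm
    rw [chiA_apply, chiA_apply, one_mul, map_one, one_mul] at h1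
    have h2 := (key (Pi.mulSingle i k)).symm.trans h1
    have h3 : chiOf g (Pi.mulSingle i k) = g i k := by
      change ∏ j, g j ((Pi.mulSingle i k : U → K) j) = g i k
      rw [Fintype.prod_eq_single i fun j hj => by rw [Pi.mulSingle_eq_of_ne hj, map_one],
        Pi.mulSingle_eq_same]
    rw [h3, Fintype.prod_eq_single i fun j hj => by
      rw [Pi.mulSingle_eq_of_ne hj, map_one, map_one, map_one, ite_self, mul_one], Pi.mulSingle_eq_same] at h2
    exact h2
  · intro hR a a' haa
    obtain ⟨s, k⟩ := a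
    have h1 : a' = (s * omg η x.left (mulAutArrow (G := Perm U) (M := K) ρ k),
        mulAutArrow (G := Perm U) (M := K) ρ k) := by
      apply (ansU h0 η).inj
      rw [haa]
      exact conj_jU h0 η x s k
    rw [h1, chiA_apply, chiA_apply]
    change sgC (s * omg η x.left (mulAutArrow (G := Perm U) (M := K) ρ k)) *
      chiOf h (mulAutArrow (G := Perm U) (M := K) ρ k) = sgC s * chiOf g k
    rw [map_mul, mul_assoc, key]
    congr 1
    exact Finset.prod_congr rfl fun i _ => hR i (k i)

omit [DecidableEq B] in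
theorem chiA_surj (mu : ℤˣ × (U → K) →* ℂˣ) (h : mu (-1, 1) = -1) : ∃ g : U → (K →* ℂˣ), chiA g = mu := by
  obtain ⟨g, hg⟩ := chiOf_surj (mu.comp (MonoidHom.inr ℤˣ (U → K)))
  refine ⟨g, MonoidHom.ext ?_⟩
  rintro ⟨s, k⟩
  have h1 : ((s, k) : ℤˣ × (U → K)) = (s, 1) * (1, k) := by
    rw [Prod.mk_mul_mk, mul_one, one_mul]
  have h2 : mu (s, 1) = sgC s := by
    rcases Int.units_eq_one_or s with rfl | rfl
    · rw [map_one]
      exact map_one mu
    · rw [h]
      refine Units.ext ?_
      rw [sgC_val]
      simp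
  rw [h1, map_mul, map_mul, h2]
  have h3 : chiA g ((s, 1) : ℤˣ × (U → K)) = sgC s := by
    rw [chiA_apply, map_one, mul_one]
  have h4 : chiA g ((1, k) : ℤˣ × (U → K)) = mu (1, k) := by
    rw [chiA_apply, map_one, one_mul, hg]
    rfl
  rw [h3, h4]

end Pool.Agent.Helper24.LOC
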