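import Pool.Agent.Helper24.LOC.UDefs
import Pool.Agent.Helper24.LOC.BLab

/-!
X01 Congr: isomorphisms of the groups `BG h`.

PROOFS. `bg_congr`: `e (c, g) = (clMap a c, b g)`; it is a homomorphism by `clMap_act` (`SemidirectProduct.map` or by hand), the inverse is
`clMap a.symm`, `b.symm` (`clMap a.symm ∘ clMap a = id` by `Cl.hom_ext`; for the homomorphism property of the inverse nothing is needed:
bijectivity is enough, `MulEquiv.ofBijective`). `e z = z`, and `Cl.par (clMap a c) = Cl.par c` by `Cl.hom_ext` (`BG.par (c, g) = Cl.par c`: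
unfold `BG.par`, `SemidirectProduct.lift`). `lab_bg`: `lab_congr` with `E = Equiv.refl`. `lab_young`: `lab_bg` with
`a = Equiv.sumCongr e1 e2`, `b = MulEquiv.prodCongr (permCongrHom e1) (permCongrHom e2)`; `(youngH g).left = 1`.
(`Finite (BG h)`: `Finite.of_equiv _ SemidirectProduct.equivProd.symm`; `Cl ι` is finite for finite `ι` by `Cl.card`,
`Nat.finite_of_card_ne_zero`.)
-/

set_option autoImplicit false

open Equiv

namespace Pool.Agent.Helper24.LOC

open Pool.Agent.Helper42.INC Pool.Agent.Helper81.AN Pool.Agent.Helper41.SST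

theorem par_clMap {ι ι' : Type} (f : ι → ι') (hf : Function.Injective f) (c : Cl ι) :
    Cl.par (clMap f hf c) = Cl.par c := by
  have h : (Cl.par (ι := ι')).comp (clMap f hf) = Cl.par := by
    apply Cl.hom_ext
    · simp [Cl.par]
    · intro i
      simp [Cl.par]
  exact DFunLike.congr_fun h c

private def clE {ι κ : Type} (e : ι ≃ κ) : Cl ι ≃* Cl κ :=
  MonoidHom.toMulEquiv (clMap e e.injective) (clMap e.symm e.symm.injective)
    (by
      apply Cl.hom_ext
      · simp
      · intro i
        simp)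
    (by
      apply Cl.hom_ext
      · simp
      · intro i
        simp)

private theorem clE_apply {ι κ : Type} (e : ι ≃ κ) (c : Cl ι) : clE e c = clMap e e.injective c := rfl

theorem bg_congr {ι ι' L L' : Type} [Group L] [Group L'] (a : ι ≃ ι') (b : L ≃* L') (h : L →* SPerm ι)
    (h' : L' →* SPerm ι') (h1 : ∀ g i, (h' (b g)).right (a i) = a ((h g).right i))
    (h2 : ∀ g i, (h' (b g)).left (a i) = (h g).left i) :
    ∃ e : BG h ≃* BG h', e (BG.z h) = BG.z h' ∧ ∀ x, BG.par h' (e x) = BG.par h x := by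
  have hact : ∀ g : L, (((Cl.act (ι := ι)).comp h) g).trans (clE a) =
      (clE a).trans (((Cl.act (ι := ι')).comp h') (b g)) := by
    intro g
    apply MulEquiv.ext
    intro x
    exact (clMap_act a a.injective (h g) (h' (b g)) (h1 g) (h2 g) x).symm
  refine ⟨SemidirectProduct.congr (clE a) b hact, ?_, ?_⟩
  · apply SemidirectProduct.ext
    · exact clMap_z a a.injective
    · change b 1 = 1
      exact map_one b
  · intro x
    change Cl.par (clMap a a.injective x.left) * 1 = Cl.par x.left * 1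
    rw [par_clMap]

private theorem finite_cl (ι : Type) [Fintype ι] : Finite (Cl ι) := by
  apply Nat.finite_of_card_ne_zero
  rw [Cl.card]
  positivity

private theorem finite_bg {ι L : Type} [Fintype ι] [Group L] [Finite L] (h : L →* SPerm ι) : Finite (BG h) := by
  have := finite_cl ι
  exact Finite.of_equiv _ SemidirectProduct.equivProd.symm

theorem lab_bg {ι ι' L L' : Type} [Fintype ι] [Fintype ι'] [Group L] [Group L'] [Finite L] [Finite L'] (a : ι ≃ ι')
    (b : L ≃* L') (h : L →* SPerm ι) (h' : L' →* SPerm ι') (h1 : ∀ g i, (h' (b g)).right (a i) = a ((h g).right i))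
    (h2 : ∀ g i, (h' (b g)).left (a i) = (h g).left i) (ν : ℂ) {Λ : Type} {tw : Λ → Λ} {dg : Λ → ℕ}
    (hl : Nonempty (Lab (BG h) (BG.par h) (BG.z h) ν Λ tw dg)) :
    Nonempty (Lab (BG h') (BG.par h') (BG.z h') ν Λ tw dg) := by
  have := finite_bg h
  have := finite_bg h'
  obtain ⟨e, he1, he2⟩ := bg_congr a b h h' h1 h2
  exact lab_congr e (BG.par h) (BG.par h') he2 (BG.z h) (BG.z h') he1 ν (Equiv.refl Λ) tw tw (fun _ => rfl) dg dg
    (fun _ => rfl) hl

theorem lab_young {α α' β β' : Type} [Fintype α] [Fintype α'] [Fintype β] [Fintype β'] (e1 : α ≃ α') (e2 : β ≃ β')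
    (ν : ℂ) {Λ : Type} {tw : Λ → Λ} {dg : Λ → ℕ}
    (hl : Nonempty (Lab (BG (youngH α β)) (BG.par _) (BG.z _) ν Λ tw dg)) :
    Nonempty (Lab (BG (youngH α' β')) (BG.par _) (BG.z _) ν Λ tw dg) := by
  classical
  refine lab_bg (Equiv.sumCongr e1 e2) (MulEquiv.prodCongr e1.permCongrHom e2.permCongrHom) (youngH α β)
    (youngH α' β') ?_ ?_ ν hl
  · intro g i
    rcases i with i | i
    · change Sum.inl (e1 (g.1 (e1.symm (e1 i)))) = Sum.inl (e1 (g.1 i))
      rw [Equiv.symm_apply_apply]
    · change Sum.inr (e2 (g.2 (e2.symm (e2 i)))) = Sum.inr (e2 (g.2 i))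
      rw [Equiv.symm_apply_apply]
  · intro g i
    rfl

end Pool.Agent.Helper24.LOC
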