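import Pool.Agent.Helper24.LOC.XThree
import Pool.Agent.Helper24.LOC.UMain

/-!
X03 Four: labels of `BG (hV p w r v)` from labels of `BG (youngH (Fin v) (Fin r))`.

PROOF. Let `V = {i : Fin w // i < v}`, `U = {i : Fin w // ¬ i < v}`. By `lab_young` (`V ≃ Fin v` by `card_ltv`, `Fintype.equivFinOfCardEq`) we
have labels of `BG (youngH V (Fin r))`; `lab_U` with `B = V ⊕ Fin r`, `h0 = youngH V (Fin r)`, `η = chi2 p`, `u = w - v` gives labels of
`BG (hU (youngH V (Fin r)) (chi2 p))`; and `lab_bg` with `a : (V ⊕ Fin r) ⊕ U ≃ Fin w ⊕ Fin r` (`inl (inl i) ↦ inl i.1`, `inl (inr j) ↦ inr j`,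
`inr i ↦ inl i.1`; from `Equiv.sumCompl`, `Equiv.sumAssoc`, `Equiv.sumComm`, or `Equiv.ofBijective`),
`b : (Perm V × Perm (Fin r)) × WWt K U ≃* (Perm V × WWt K U) × Perm (Fin r)`, `((σ, τ), x) ↦ ((σ, x), τ)`: the two conditions
are checked on the three types of points (`Perm.subtypeCongr.left_apply`, `right_apply`, `incV_left_pos`, `incV_left_neg`).
-/

set_option autoImplicit false

open Equiv

namespace Pool.Agent.Helper24.LOC

open Pool.Agent.Helper42.INC Pool.Agent.Helper81.AN Pool.Agent.Helper41.SST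

private def x4a {w : ℕ} (v r : ℕ) :
    ({i : Fin w // ltv v i} ⊕ Fin r) ⊕ {i : Fin w // ¬ ltv v i} ≃ Fin w ⊕ Fin r where
  toFun q := match q with
    | Sum.inl (Sum.inl i) => Sum.inl i.1
    | Sum.inl (Sum.inr j) => Sum.inr j
    | Sum.inr i => Sum.inl i.1
  invFun q := match q with
    | Sum.inl i => if h : ltv v i then Sum.inl (Sum.inl ⟨i, h⟩) else Sum.inr ⟨i, h⟩
    | Sum.inr j => Sum.inl (Sum.inr j)
  left_inv := by
    rintro ((i | j) | i)
    · exact dif_pos i.2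
    · rfl
    · exact dif_neg i.2
  right_inv := by
    rintro (i | j)
    · by_cases h : ltv v i
      · simp only [dif_pos h]
      · simp only [dif_neg h]
    · rfl

private def x4b {A B C : Type} [Group A] [Group B] [Group C] : (A × B) × C ≃* (A × C) × B where
  toFun x := ((x.1.1, x.2), x.1.2)
  invFun y := ((y.1.1, y.2), y.1.2)
  left_inv _ := rfl
  right_inv _ := rfl
  map_mul' _ _ := rfl

theorem hV_of_young (p w r : ℕ) [Fact p.Prime] {m : ℕ} (θ : Fin m × Bool ≃ ((ZMod p)ˣ →* ℂˣ))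
    (hθ : ∀ j k, ((θ (j, true) k : ℂˣ) : ℂ) = (((chi2 p k : ℤˣ) : ℤ) : ℂ) * ((θ (j, false) k : ℂˣ) : ℂ))
    (v : Fin (w + 1)) {L : Type} {tw : L → L} {dg : L → ℕ}
    (h : Nonempty (Lab (BG (youngH (Fin v) (Fin r))) (BG.par _) (BG.z _) (-1) L tw dg)) :
    Nonempty (Lab (BG (hV p w r v)) (BG.par _) (BG.z _) (-1) (L × LabW (Fin m) (w - v)) (Prod.map tw id)
      fun q => 2 ^ (w - v) * (dg q.1 * q.2.dg)) := by
  have hc := card_ltv v
  have h1 : Nonempty (Lab (BG (youngH {i : Fin w // ltv (v : ℕ) i} (Fin r))) (BG.par _) (BG.z _) (-1) L tw dg) :=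
    lab_young (Fintype.equivFinOfCardEq hc.1).symm (Equiv.refl (Fin r)) (-1) h
  have h2 := lab_U (U := {i : Fin w // ¬ ltv (v : ℕ) i}) (youngH {i : Fin w // ltv (v : ℕ) i} (Fin r)) (chi2 p) θ hθ
    (w - v) hc.2 h1
  refine lab_bg (x4a (v : ℕ) r) x4b _ (hV p w r v) ?_ ?_ (-1) h2
  · rintro g ((i | j) | i)
    · exact congrArg Sum.inl (Perm.subtypeCongr.left_apply g.1.1 g.2.right i.2)
    · rfl
    · exact congrArg Sum.inl (Perm.subtypeCongr.right_apply g.1.1 g.2.right i.2)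
  · rintro g ((i | j) | i)
    · change chi2 p ((incV (ZMod p)ˣ (ltv (w := w) v) (g.1.1, g.2)).left i.1) = 1
      rw [incV_left_pos _ _ _ i.2, map_one]
    · rfl
    · change chi2 p ((incV (ZMod p)ˣ (ltv (w := w) v) (g.1.1, g.2)).left i.1) = chi2 p (g.2.left i)
      rw [incV_left_neg _ _ _ i.2]

end Pool.Agent.Helper24.LOC
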