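import Pool.Agent.Helper24.LOC.XFour
import Pool.Agent.Helper24.LOC.EInv

/-!
X04 Loc: labels of `BG (signL p w r)` (the group `X3`), from labels of the groups `BG (youngH (Fin v) (Fin r))`.

PROOFS. `relab2`: `E ⟨v, (y, κ)⟩ = (⟨v, y⟩, κ.1)`; `v + (w - v) = w`. Bijective: the inverse takes `v` from `q.1.1.1 ≤ w`, and
`∑ size = w - v` (`Equiv.ofBijective`; for the injectivity cases on the sigma type). Twist and degree: unfold (`LabZ.tw`, `LabZ.dg`, `LabW.dg`);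
`2 * m = p - 1`.
`x3_lab` (it does not use `relab2`): `θ` from `exists_theta` (`chi2_neg`, `ZMod.card_units`: `Nat.card (ZMod p)ˣ = p - 1 = 2 m`),
`hV_of_young` for every `v` with `hY v`, then `hV_lab` (`p - 1 = 2 * m`).
-/

set_option autoImplicit false

open Equiv

namespace Pool.Agent.Helper24.LOC

open Pool.Agent.Helper42.INC Pool.Agent.Helper81.AN Pool.Agent.Helper41.SST

theorem relab2 (m w r : ℕ) :
    ∃ E : (Σ v : Fin (w + 1), LabY (v : ℕ) r × LabW (Fin m) (w - v)) ≃ LabZ m w r,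
      (∀ s, E (Sigma.map id (fun _ => Prod.map LabY.tw id) s) = (E s).tw) ∧
      ∀ s, (E s).dg = 2 ^ (w * m) *
        ((2 * m) ^ (s.1 : ℕ) * w.choose s.1 * (2 ^ (w - s.1) * (s.2.1.dg * s.2.2.dg))) := by
  refine ⟨
    { toFun := fun s => ⟨(⟨(s.1 : ℕ), s.2.1⟩, s.2.2.1), by
        have h1 := s.2.2.2
        have h2 : (s.1 : ℕ) ≤ w := Nat.lt_succ_iff.1 s.1.2
        change (s.1 : ℕ) + ∑ i, (s.2.2.1 i).size = w
        rw [h1]
        omega⟩
      invFun := fun q => ⟨⟨q.1.1.1, Nat.lt_succ_iff.2 (by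
        have h1 := q.2
        omega)⟩, (q.1.1.2, ⟨q.1.2, by
        have h1 := q.2
        change ∑ i, (q.1.2 i).size = w - q.1.1.1
        omega⟩)⟩
      left_inv := fun s => rfl
      right_inv := fun q => rfl }, ?_, ?_⟩
  · intro s
    rfl
  · intro s
    change 2 ^ (w * m) * (2 * m) ^ (s.1 : ℕ) * w.choose (s.1 : ℕ) *
      Nat.multinomial Finset.univ (fun i => (s.2.2.1 i).size) * 2 ^ (w - (s.1 : ℕ)) *
      (∏ i, (s.2.2.1 i).f) * s.2.1.dg = 2 ^ (w * m) *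
        ((2 * m) ^ (s.1 : ℕ) * w.choose s.1 * (2 ^ (w - (s.1 : ℕ)) * (s.2.1.dg *
          (Nat.multinomial Finset.univ (fun c => (s.2.2.1 c).size) * ∏ c, (s.2.2.1 c).f))))
    ring

theorem x3_lab (p : ℕ) [Fact p.Prime] (m : ℕ) (hm : 2 * m + 1 = p) (hm0 : 0 < m) (w r : ℕ)
    (hY : ∀ v : ℕ, Nonempty (Lab (BG (youngH (Fin v) (Fin r))) (BG.par _) (BG.z _) (-1) (LabY v r) LabY.tw LabY.dg)) :
    Nonempty (Lab (BG (signL p w r)) (BG.par _) (BG.z _) (-1)
      (Σ v : Fin (w + 1), LabY (v : ℕ) r × LabW (Fin m) (w - v)) (Sigma.map id fun _ => Prod.map LabY.tw id)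
      fun s => (2 * m) ^ (s.1 : ℕ) * w.choose s.1 * (2 ^ (w - s.1) * (s.2.1.dg * s.2.2.dg))) := by
  have hcard : Nat.card (ZMod p)ˣ = 2 * m := by
    rw [Nat.card_eq_fintype_card, ZMod.card_units]
    omega
  obtain ⟨θ, hθ⟩ := exists_theta (chi2 p) (chi2_neg p (by omega)) m hcard
  have h := hV_lab p w r (fun v => LabY (v : ℕ) r × LabW (Fin m) (w - v)) (fun _ => Prod.map LabY.tw id)
    (fun v q => 2 ^ (w - (v : ℕ)) * (q.1.dg * q.2.dg)) (fun v => hV_of_young p w r θ hθ v (hY v))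
  have hp : p - 1 = 2 * m := by omega
  rw [hp] at h
  exact h

end Pool.Agent.Helper24.LOC
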