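import Pool.Agent.Helper24.LOC.XCongr
import Pool.Agent.Helper24.LOC.EMain
import Pool.Agent.Helper24.LOC.EInc

/-!
X02 Three: the E-step for the spin characters: from `BG (signL p w r)` to the groups `BG (hV p w r v)`.

PROOFS. `x3_iso`: `BG (signL p w r) = Cl : (EE : H0)`, `H0 = WW p w × Perm (Fin r)`, and `EE` acts trivially on `Cl` (`signL` factors through
`rightHom`) and `Cl` acts trivially on `EE`: `⟨c, ⟨a, g⟩⟩ ↦ ⟨a, ⟨c, g⟩⟩` is an isomorphism (compare the products componentwise).
`hV_lab`: `est` with `H = BG (signW p w r)`, `f = f3` (surjective: `f3 (inr (x, 1)) = x`), `zH = BG.z`, `ν = -1`, `ε = BG.par`,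
`Q v = BG (hV p w r v)`, `inc v = SemidirectProduct.map (MonoidHom.id _) ((incV _ _).prodMap (MonoidHom.id _))`, injective by
`incV_inj`, range: `x` is in the range iff `x.right.1` is in the range of `incV` iff `StabV v (f3 x)` (`incV_range`); `zQ v = BG.z _`;
`hcard`: `BG.card`, `Nat.card_prod`, `card_QV`. Then `lab_congr` with the inverse of the isomorphism of `x3_iso`
(`E = Equiv.refl`); `(ε.comp rightHom) (e x) = BG.par x`, `ε.comp (inc v) = BG.par (hV ..)` (both are `Cl.par` of the left component).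
-/

set_option autoImplicit false

open Equiv

namespace Pool.Agent.Helper24.LOC

open Pool.Agent.Helper42.INC Pool.Agent.Helper81.AN Pool.Agent.Helper41.SST

/-- the projection to `WW` -/
noncomputable def f3 (p w r : ℕ) [Fact p.Prime] : BG (signW p w r) →* WW p w :=
  (MonoidHom.fst (WW p w) (Perm (Fin r))).comp SemidirectProduct.rightHom

/-- the signed permutations given by the stabilizer -/
noncomputable def hV (p w r : ℕ) [Fact p.Prime] (v : ℕ) :
    (Perm {i : Fin w // ltv v i} × WWt (ZMod p)ˣ {i : Fin w // ¬ ltv v i}) × Perm (Fin r) →*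
      SPerm (Fin w ⊕ Fin r) :=
  (signW p w r).comp ((incV (ZMod p)ˣ (ltv (w := w) v)).prodMap (MonoidHom.id _))

theorem x3_iso (p w r : ℕ) [Fact p.Prime] :
    ∃ e : BG (signL p w r) ≃* EE p w ⋊[(actE p w).comp (f3 p w r)] BG (signW p w r),
      e (BG.z (signL p w r)) = SemidirectProduct.inr (BG.z (signW p w r)) ∧
      ∀ x, BG.par (signW p w r) (e x).right = BG.par (signL p w r) x := by
  refine ⟨{ toFun := fun x => ⟨x.right.left, ⟨x.left, x.right.right⟩⟩
            invFun := fun y => ⟨y.right.left, ⟨y.left, y.right.right⟩⟩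
            left_inv := fun x => rfl
            right_inv := fun y => rfl
            map_mul' := fun x y => rfl }, rfl, fun x => rfl⟩

private noncomputable def incB (p w r : ℕ) [Fact p.Prime] (v : ℕ) :
    BG (hV p w r v) →* BG (signW p w r) :=
  SemidirectProduct.map (MonoidHom.id _)
    ((incV (ZMod p)ˣ (ltv (w := w) v)).prodMap (MonoidHom.id _)) (by
      intro g
      rfl)

theorem hV_lab (p w r : ℕ) [Fact p.Prime] (L : Fin (w + 1) → Type) (tw : ∀ v, L v → L v) (dg : ∀ v, L v → ℕ)
    (hlab : ∀ v : Fin (w + 1), Nonempty (Lab (BG (hV p w r v)) (BG.par _) (BG.z _) (-1) (L v) (tw v) (dg v))) :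
    Nonempty (Lab (BG (signL p w r)) (BG.par _) (BG.z _) (-1) (Σ v, L v) (Sigma.map id tw)
      fun s => (p - 1) ^ (s.1 : ℕ) * w.choose s.1 * dg s.1 s.2) := by
  classical
  have hfW : Finite (WW p w) := Finite.of_equiv _ SemidirectProduct.equivProd.symm
  have hfWt : ∀ v : ℕ, Finite (WWt (ZMod p)ˣ {i : Fin w // ¬ ltv v i}) := fun v =>
    Finite.of_equiv _ SemidirectProduct.equivProd.symm
  have hpar : BG.par (signW p w r) (BG.z (signW p w r)) = 1 := by
    change Cl.par Cl.z * (1 : ℤˣ) = 1
    rw [mul_one]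
    exact Cl.lift_z _ _ _ _ _ _
  have key := est p w (f3 p w r) (fun x => ⟨SemidirectProduct.inr (x, 1), rfl⟩)
    (BG.z (signW p w r)) (BG.cinv (signW p w r)).1 rfl (-1) (BG.par (signW p w r)) hpar
    (fun v => BG (hV p w r v)) (fun v => incB p w r v)
    (fun v x y hxy => by
      have h1 : x.left = y.left := by
        have h := congrArg SemidirectProduct.left hxy
        exact h
      have h2 : ((incV (ZMod p)ˣ (ltv (w := w) (v : ℕ))) x.right.1, x.right.2) =
          ((incV (ZMod p)ˣ (ltv (w := w) (v : ℕ))) y.right.1, y.right.2) := by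
        have h := congrArg SemidirectProduct.right hxy
        exact h
      rw [Prod.mk.injEq] at h2
      exact SemidirectProduct.ext h1 (Prod.ext (incV_inj _ _ h2.1) h2.2))
    (fun v x => by
      have h1 := incV_range (ZMod p)ˣ (ltv (w := w) (v : ℕ)) x.right.1
      constructor
      · rintro ⟨y, rfl⟩
        exact h1.1 ⟨y.right.1, rfl⟩
      · intro h
        obtain ⟨y, hy⟩ := h1.2 h
        exact ⟨⟨x.left, (y, x.right.2)⟩, SemidirectProduct.ext rfl (Prod.ext hy rfl)⟩)
    (fun v => BG.z (hV p w r v)) (fun v => SemidirectProduct.ext rfl (map_one _))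
    (fun v => by
      rw [BG.card, BG.card, Nat.card_prod, Nat.card_prod, card_QV p w v]
      ring)
    L tw dg hlab
  obtain ⟨e, he1, he2⟩ := x3_iso p w r
  have hfX : Finite (LL p w r) := Finite.of_equiv _ SemidirectProduct.equivProd.symm
  have hfY : Finite (EE p w ⋊[(actE p w).comp (f3 p w r)] BG (signW p w r)) :=
    Finite.of_equiv _ SemidirectProduct.equivProd.symm
  have hε : ∀ x, BG.par (signL p w r) (e.symm x) =
      ((BG.par (signW p w r)).comp SemidirectProduct.rightHom) x := by
    intro x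
    have h := he2 (e.symm x)
    rw [e.apply_symm_apply] at h
    exact h.symm
  have hz : e.symm (SemidirectProduct.inr (BG.z (signW p w r))) = BG.z (signL p w r) := by
    rw [← he1, e.symm_apply_apply]
  exact lab_congr e.symm _ _ hε _ _ hz (-1) (Equiv.refl (Σ v, L v)) (Sigma.map id tw)
    (Sigma.map id tw) (fun l => rfl) (fun s => (p - 1) ^ (s.1 : ℕ) * w.choose s.1 * dg s.1 s.2)
    (fun s => (p - 1) ^ (s.1 : ℕ) * w.choose s.1 * dg s.1 s.2) (fun l => rfl) key

end Pool.Agent.Helper24.LOC
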